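import Pool.Agent.W900.SP.Fin
import Pool.Agent.W900.SP.Hier

/-!
# The polynomial hierarchy relative to an oracle with few additional strings

The proof of the main theorem follows `Pool.Agent.W900.SP.isSigPoly_of_join` (a library of the
starting files), with another table.
-/

set_option autoImplicit false

namespace Pool.Agent.TH672.SD.AD

open Pool.Agent.NPC Pool.Agent.H620R2.Gauge Pool.Agent.H622R2 Pool.Agent.H943R5.GC
  Pool.Agent.W908.Col Pool.Agent.W900.SP

attribute [local irreducible] unpair

/-- the decoder of lists of strings -/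
def dcd (n : List Bool) : List (List Bool) :=
  match parse n with
  | none => []
  | some t => match (TDec.dec t : Option (List (List Bool))) with
    | none => []
    | some l => l

theorem poly_dcd : Poly dcd := by
  have h1 : Poly (fun p : List Bool × T =>
      match (TDec.dec p.2 : Option (List (List Bool))) with
      | none => []
      | some l => l) := by
    refine (Poly.optCases (o := fun p : List Bool × T =>
      (TDec.dec p.2 : Option (List (List Bool))))
      (g := fun _ => ([] : List (List Bool))) (h := fun _ l => l)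
      (TDec.poly_dec.comp (Poly.snd Poly.id)) (NPC.Poly.const _) (Poly.snd Poly.id)).congr
      fun p => ?_
    cases (TDec.dec p.2 : Option (List (List Bool))) <;> rfl
  refine (Poly.optCases (g := fun _ => ([] : List (List Bool)))
    (h := fun _ t => match (TDec.dec t : Option (List (List Bool))) with
    | none => []
    | some l => l) poly_parse (NPC.Poly.const _) ?_).congr fun n => ?_
  · refine h1.congr fun p => ?_
    cases (TDec.dec p.2 : Option (List (List Bool))) <;> rfl
  · unfold dcd
    cases parse n with
    | none => rfl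
    | some t => cases (TDec.dec t : Option (List (List Bool))) <;> rfl

theorem dcd_enc (l : List (List Bool)) : dcd (toT l).enc = l := by
  unfold dcd
  rw [parse_enc]
  dsimp only
  rw [TDec.dec_toT]

theorem sz_le_mul (l : List (List Bool)) (B : ℕ) (h : ∀ b ∈ l, sz b ≤ B) :
    sz l ≤ l.length * (B + 1) + 1 := by
  induction l with
  | nil => simp
  | cons b l ih =>
    have h1 := h b (by simp)
    have h2 := ih fun b hb => h b (by simp [hb])
    rw [sz_list_cons, List.length_cons]
    nlinarith

theorem exists_lst {T : Oracle} (hT : ∀ n, {q | T q = true ∧ q.length ≤ n}.Finite ∧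
    {q | T q = true ∧ q.length ≤ n}.ncard ≤ n) : ∃ lst : ℕ → List (List Bool), ∀ m,
      (∀ q, q ∈ lst m ↔ ∃ q', q = true :: q' ∧ T q' = true ∧ q'.length ≤ m) ∧
      (lst m).length ≤ m ∧ (toT (lst m)).enc.length ≤ m * (4 * m + 6) + 1 := by
  classical
  refine ⟨fun m => ((hT m).1.toFinset.toList).map (fun q => true :: q), fun m => ?_⟩
  have h1 : ∀ q, q ∈ ((hT m).1.toFinset.toList).map (fun q => true :: q) ↔
      ∃ q', q = true :: q' ∧ T q' = true ∧ q'.length ≤ m := by
    intro q
    rw [List.mem_map]
    constructor
    · rintro ⟨q', h, rfl⟩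
      rw [Finset.mem_toList, Set.Finite.mem_toFinset] at h
      exact ⟨q', rfl, h⟩
    · rintro ⟨q', rfl, h⟩
      refine ⟨q', ?_, rfl⟩
      rw [Finset.mem_toList, Set.Finite.mem_toFinset]
      exact h
  have h2 : (((hT m).1.toFinset.toList).map (fun q => true :: q)).length ≤ m := by
    rw [List.length_map, Finset.length_toList, ← Set.ncard_eq_toFinset_card _ (hT m).1]
    exact (hT m).2
  refine ⟨h1, h2, ?_⟩
  have h3 := sz_le_mul (((hT m).1.toFinset.toList).map (fun q => true :: q))
    (4 * m + 5) (fun q hq => by
      obtain ⟨q', rfl, _, h4⟩ := (h1 q).1 hq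
      have := sz_listBool_le (true :: q')
      rw [List.length_cons] at this
      omega)
  change sz _ ≤ _
  refine h3.trans ?_
  nlinarith

theorem cor_eq' {T : Oracle} {L : List (List Bool)} {m : ℕ}
    (hL : ∀ q, q ∈ L ↔ ∃ q', q = true :: q' ∧ T q' = true ∧ q'.length ≤ m) (O : Oracle)
    (y : List Bool) (hy : y.length ≤ m) :
    cor L (L.map (join O T)) O y = join O T y := by
  unfold cor
  rcases y with _ | ⟨b, q⟩
  · rw [if_neg (by simp)]
    show _ = false
    rw [Bool.eq_false_iff]
    intro h
    obtain ⟨q, hq, _⟩ := (hL _).1 (lk_map.1 h).1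
    simp at hq
  · cases b with
    | false =>
      rw [if_pos (by simp)]
      rfl
    | true =>
      rw [if_neg (by simp)]
      rw [Bool.eq_iff_iff, lk_map]
      constructor
      · exact fun h => h.2
      · intro h
        refine ⟨(hL _).2 ⟨q, rfl, h, ?_⟩, h⟩
        rw [List.length_cons] at hy
        omega

/-- Levels of the hierarchy relative to `join O T`, as levels relative to `O` with advice -/
theorem isSigPoly_of_few {O T : Oracle} (hT : ∀ n, {q | T q = true ∧ q.length ≤ n}.Finite ∧
    {q | T q = true ∧ q.length ≤ n}.ncard ≤ n) {k : ℕ} {L : Set (List Bool)}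
    (h : H591R3.PHG.IsSigPoly (join O T) k L) : H591R3.PHG.IsSigPoly O k L := by
  obtain ⟨lst, hlst⟩ := exists_lst hT
  obtain ⟨L', h, p, ⟨V, p', ⟨M, hM⟩, hL'⟩, hh, hL⟩ := h
  obtain ⟨qb, hqb⟩ := out_local M
  -- the lengths
  obtain ⟨X, hX⟩ : ∃ X : Polynomial ℕ, X = Polynomial.C 2 * Polynomial.X + Polynomial.C 1 + p :=
    ⟨_, rfl⟩
  obtain ⟨R, hR⟩ : ∃ R : Polynomial ℕ, R = qb.comp (X + Polynomial.C k *
    (Polynomial.C 2 * p'.comp X + Polynomial.C 1)) := ⟨_, rfl⟩
  obtain ⟨n1, hn1⟩ : ∃ n1 : ℕ → List Bool, n1 = fun n => (toT (lst (R.eval n))).enc :=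
    ⟨_, rfl⟩
  obtain ⟨h2, hh2⟩ : ∃ h2 : ℕ → List Bool, h2 = fun n =>
      pairBits (h n) (pairBits ((dcd (n1 n)).map (join O T)) (n1 n)) := ⟨_, rfl⟩
  -- the base function
  obtain ⟨G, hG⟩ : ∃ G : List Bool → List Unit × List Bool, G = fun y =>
      (List.replicate (p'.eval (pairBits (unpair y).1 (unpair (unpair y).2).1).length) (),
        pairBits (unpair y).1 (unpair (unpair y).2).1) := ⟨_, rfl⟩
  have pG : Poly G := by
    have h3 : Poly (fun y : List Bool => pairBits (unpair y).1 (unpair (unpair y).2).1) :=
      poly_pairBits (poly_u1 Poly.id) (poly_u1 (poly_u2 Poly.id))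
    rw [hG]
    exact Poly.pair (UPoly.eval (UPoly.length h3) p') h3
  obtain ⟨r, hr⟩ := len_bound pG
  obtain ⟨V', hV'⟩ : ∃ V' : List Bool → List Bool, V' = fun z =>
      simF M dcd O (pairBits (unpair (unpair (bs k z)).2).2 (tr G k z).2) := ⟨_, rfl⟩
  have pV' : IsFP O V' := by
    have h3 : Poly (fun z : List Bool =>
        pairBits (unpair (unpair (bs k z)).2).2 (tr G k z).2) :=
      poly_pairBits (poly_u2 (poly_u2 (poly_bs k))) (Poly.snd (poly_tr pG k))
    rw [hV']
    exact IsFP.comp (isFP_simF M poly_dcd O) (IsFP.of_poly h3)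
  refine ⟨{y | Quant (r.eval y.length) V' k true y}, h2,
    Polynomial.C 2 * p + (Polynomial.C 2 * R + (R * (Polynomial.C 4 * R + Polynomial.C 6) +
      Polynomial.C 1)) + Polynomial.C 2, ⟨V', r, pV', fun y => Iff.rfl⟩, ?_, ?_⟩
  · intro n
    rw [hh2]
    dsimp only
    rw [A2.length_pairBits, A2.length_pairBits, List.length_map]
    have h3 : (dcd (n1 n)).length ≤ R.eval n := by
      rw [hn1, dcd_enc]
      exact (hlst _).2.1
    have h5 : (n1 n).length ≤ R.eval n * (4 * R.eval n + 6) + 1 := by
      rw [hn1]
      exact (hlst _).2.2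
    have h6 := hh n
    simp only [Polynomial.eval_add, Polynomial.eval_mul, Polynomial.eval_C]
    omega
  · intro x
    rw [hL x, hL']
    show _ ↔ Quant (r.eval (pairBits x (h2 x.length)).length) V' k true
      (pairBits x (h2 x.length))
    obtain ⟨y, hy⟩ : ∃ y, y = pairBits x (h2 x.length) := ⟨_, rfl⟩
    obtain ⟨x', hx'⟩ : ∃ x', x' = pairBits x (h x.length) := ⟨_, rfl⟩
    rw [← hy, ← hx']
    have hGy : G y = (List.replicate (p'.eval x'.length) (), x') := by
      rw [hG]
      dsimp only
      rw [hy, unpair_pairBits]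
      dsimp only
      rw [hh2]
      dsimp only
      rw [unpair_pairBits]
      dsimp only
      rw [← hx']
    have hm : p'.eval x'.length ≤ r.eval y.length := by
      have h3 := hr y
      rw [hGy] at h3
      simpa using h3
    have h3 := quant_tr G V hm k 0 true y x' (by rw [tr, hGy])
    rw [zero_add] at h3
    rw [h3]
    refine quant_congr _ _ _ (fun j z => ∃ t, j ≤ k ∧ bs (k - j) z = y ∧
      tr G (k - j) z = (List.replicate (p'.eval x'.length) (), t) ∧
      t.length ≤ x'.length + (k - j) * (2 * p'.eval x'.length + 1)) ?_ ?_ k true y ?_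
    · rintro j z w hw ⟨t, h4, h5, h6, h7⟩
      have e : k - j = k - (j + 1) + 1 := by omega
      refine ⟨pairBits (w.take (p'.eval x'.length)) t, by omega, ?_, ?_, ?_⟩
      · rw [e, bs, unpair_pairBits]
        exact h5
      · rw [e, tr]
        simp only [unpair_pairBits, h6, U2.map_fst_zip_replicate]
      · rw [A2.length_pairBits, e]
        have h8 : (w.take (p'.eval x'.length)).length ≤ p'.eval x'.length := by simp
        have h9 : (k - (j + 1) + 1) * (2 * p'.eval x'.length + 1) =
            (k - (j + 1)) * (2 * p'.eval x'.length + 1) + (2 * p'.eval x'.length + 1) := by ring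
        omega
    · rintro z ⟨t, -, h5, h6, h7⟩
      rw [Nat.sub_zero] at h5 h6 h7
      have h8 : V' z = V t := by
        rw [hV']
        dsimp only
        rw [h5, h6]
        dsimp only
        have h9 : (unpair (unpair y).2).2 = pairBits ((dcd (n1 x.length)).map (join O T))
            (n1 x.length) := by
          rw [hy, unpair_pairBits]
          dsimp only
          rw [hh2]
          dsimp only
          rw [unpair_pairBits]
        rw [h9]
        apply simF_eq
        rw [← hM t]
        apply hqb
        intro q hq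
        rw [hn1]
        dsimp only
        rw [dcd_enc]
        refine cor_eq' (hlst _).1 O _ (hq.trans ?_)
        rw [hR, Polynomial.eval_comp]
        apply eval_mono
        have h11 : x'.length ≤ X.eval x.length := by
          rw [hx', A2.length_pairBits, hX]
          simp only [Polynomial.eval_add, Polynomial.eval_mul, Polynomial.eval_C,
            Polynomial.eval_X]
          have := hh x.length
          omega
        have h12 := eval_mono p' h11
        refine h7.trans ?_
        simp only [Polynomial.eval_add, Polynomial.eval_mul, Polynomial.eval_C,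
          Polynomial.eval_comp]
        refine Nat.add_le_add h11 (Nat.mul_le_mul_left _ ?_)
        omega
      rw [h6, h8]
    · refine ⟨x', le_refl k, ?_, ?_, ?_⟩
      · rw [Nat.sub_self, bs]
      · rw [Nat.sub_self, tr, hGy]
      · omega

end Pool.Agent.TH672.SD.AD
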