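import Pool.Agent.TH672.SD.Main
import Pool.Agent.H628R3.RO.F3

/-!
# Very few strings destroy all complete pairs, languages and optimal proof systems: the theorem
-/

set_option autoImplicit false

namespace Pool.Agent.TH672.SD

open Pool.Agent.NPC Pool.Agent.H628R3.RO Pool.Agent.W900.SP
open Filter (Tendsto atTop)

/-- the candidates -/
abbrev Cnd : Type := ((Bool → Alg) × (Bool → Polynomial ℕ)) ⊕
  ((Alg × Polynomial ℕ) ⊕ ((Alg × Alg) ⊕ (Alg × Alg)))

/-- the tasks: an algorithm, a pad exponent (from the number `κ` on), and a lower bound -/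
abbrev Tsk : Type := (Alg ⊕ Alg) × ℕ × ℕ

def Dd (O : Oracle) (e : Cnd → ℕ) : Cnd → Set Oracle
  | Sum.inl c => deadP O c.1 c.2
  | Sum.inr (Sum.inl c) => deadU O c.1 c.2
  | Sum.inr (Sum.inr (Sum.inl c)) => deadT O c.1 c.2 (e (Sum.inr (Sum.inr (Sum.inl c))))
  | Sum.inr (Sum.inr (Sum.inr c)) => deadS O c.1 c.2 (e (Sum.inr (Sum.inr (Sum.inr c))))

/-- the algorithm of a task -/
def alg : Alg ⊕ Alg → Alg
  | Sum.inl M => M
  | Sum.inr M => M

def Rr (O : Oracle) (e : Cnd → ℕ) (ex : Alg → ℕ) (κ : Cnd → Alg ⊕ Alg → ℕ) :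
    Cnd → Tsk → Set Oracle
  | Sum.inl c, k => rqP O c.1 c.2 (e (Sum.inl c)) k.1 (κ (Sum.inl c) k.1 + k.2.1) k.2.2
  | Sum.inr (Sum.inl c), k => rqU O c.1 c.2 (e (Sum.inr (Sum.inl c))) k.1
      (κ (Sum.inr (Sum.inl c)) k.1 + k.2.1) k.2.2
  | Sum.inr (Sum.inr (Sum.inl c)), k =>
      rqT O c.1 c.2 (e (Sum.inr (Sum.inr (Sum.inl c)))) (ex c.1) k.2.2
  | Sum.inr (Sum.inr (Sum.inr c)), k => rqS O c.1 c.2 (e (Sum.inr (Sum.inr (Sum.inr c))))
      (alg k.1) (κ (Sum.inr (Sum.inr (Sum.inr c))) k.1 + k.2.1) k.2.2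

def AA (e : Cnd → ℕ) : Cnd → ℕ → Finset (List Bool) → Prop
  | Sum.inl c => AlP (e (Sum.inl c))
  | Sum.inr (Sum.inl c) => AlP (e (Sum.inr (Sum.inl c)))
  | Sum.inr (Sum.inr (Sum.inl _)) => fun _ => AlT
  | Sum.inr (Sum.inr (Sum.inr c)) => AlS (e (Sum.inr (Sum.inr (Sum.inr c))))

def WW (e : Cnd → ℕ) : Cnd → ℕ → Finset (List Bool) → Prop
  | Sum.inl c => WkP (e (Sum.inl c))
  | Sum.inr (Sum.inl c) => WkP (e (Sum.inr (Sum.inl c)))
  | Sum.inr (Sum.inr (Sum.inl c)) => WkT (e (Sum.inr (Sum.inr (Sum.inl c))))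
  | Sum.inr (Sum.inr (Sum.inr c)) => WkS (e (Sum.inr (Sum.inr (Sum.inr c))))

/-- the strings of the kinds 3 and 4 are unique in all level sets -/
theorem kinds {e : Cnd → ℕ} {i : Cnd} {n : ℕ} {E : Finset (List Bool)}
    (h : E = ∅ ∨ AA e i n E ∨ WW e i n E) {k : ℕ} (hk : k = 3 ∨ k = 4) {y y' : List Bool}
    (h1 : pos (e i) k y ∈ E) (h2 : pos (e i) k y' ∈ E) : y = y' := by
  rcases h with rfl | h
  · exact absurd h1 (Finset.notMem_empty _)
  have hP : ∀ j, AlP j n E ∨ WkP j n E → pos j k y ∈ E → False := by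
    rintro j (⟨b, y₀, _, rfl⟩ | h3) h4
    · rw [Finset.mem_insert, Finset.mem_singleton] at h4
      rcases h4 with h4 | h4
      · have := (pos_kind h4).1
        omega
      · have := (pos_kind h4).1
        have h5 := Bool.toNat_le b
        omega
    · obtain ⟨k', hk', y₀, _, h5⟩ := h3 _ h4
      have := (pos_kind h5).1
      omega
  rcases i with c | c | c | c
  · exact (hP _ h h1).elim
  · exact (hP _ h h1).elim
  · rcases h with h | ⟨y₀, _, h⟩
    · have h' : E = ∅ := h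
      rw [h'] at h1
      exact absurd h1 (Finset.notMem_empty _)
    · rw [h, Finset.mem_singleton] at h1 h2
      rw [(pos_kind h1).2, (pos_kind h2).2]
  · rcases h with ⟨y₀, _, h⟩ | h
    · rw [h, Finset.mem_insert, Finset.mem_singleton] at h1 h2
      rcases h1 with h1 | h1
      · have := (pos_kind h1).1
        omega
      · rcases h2 with h2 | h2
        · have := (pos_kind h2).1
          omega
        · rw [(pos_kind h1).2, (pos_kind h2).2]
    · have h' : E = {mk5 (e (Sum.inr (Sum.inr (Sum.inr c)))) n} := h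
      rw [h', Finset.mem_singleton] at h1
      have := (pos_kind h1).1
      omega

/-- For every oracle `O` and every function `g` that tends to infinity there is a second oracle
`T` with at most `g n` strings of length at most `n` such that all four statements hold relative
to `join O T`. -/
theorem main (O : Oracle) (g : ℕ → ℕ) (hg : Tendsto g atTop atTop) :
    ∃ T : Oracle, (∀ n, {q | T q = true ∧ q.length ≤ n}.Finite ∧
        {q | T q = true ∧ q.length ≤ n}.ncard ≤ g n) ∧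
      PartP (join O T) ∧ PartU (join O T) ∧ PartT (join O T) ∧ PartS (join O T) := by
  classical
  have hcp := countable_poly
  obtain ⟨e, he⟩ := Countable.exists_injective_nat Cnd
  choose ex hex1 hex2 using fun P : Alg => k1_poly_gap P.p
  have hne : Nonempty Alg := by
    obtain ⟨M, _⟩ := IsFP.of_poly (A := fun _ => false) (F := fun x => x) Poly.id
    exact ⟨M⟩
  obtain ⟨M₀⟩ := hne
  have : Nonempty Alg := ⟨M₀⟩
  have : Nonempty Cnd := ⟨Sum.inr (Sum.inr (Sum.inl (M₀, M₀)))⟩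
  have : Nonempty Tsk := ⟨(Sum.inl M₀, 0, 0)⟩
  choose κP hκP using fun (c : (Bool → Alg) × (Bool → Polynomial ℕ)) (M : Alg ⊕ Alg) =>
    stageP O c.1 c.2 M
  choose κU hκU using fun (c : Alg × Polynomial ℕ) (M : Alg ⊕ Alg) => stageU O c.1 c.2 M
  choose κS hκS using fun (c : Alg × Alg) (M : Alg ⊕ Alg) => stageS O c.1 c.2 (alg M)
  let κ : Cnd → Alg ⊕ Alg → ℕ := fun i => match i with
    | Sum.inl c => κP c
    | Sum.inr (Sum.inl c) => κU c
    | Sum.inr (Sum.inr (Sum.inl _)) => fun _ => 0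
    | Sum.inr (Sum.inr (Sum.inr c)) => κS c
  obtain ⟨T, hT1, hT2, hT3⟩ := stages (Dd O e) (Rr O e ex κ) (AA e) (WW e) e he (by
    intro i k S n0 hS
    rcases i with c | c | c | c
    · exact hκP c k.1 _ (Nat.le_add_right _ _) _ k.2.2 S n0
    · exact hκU c k.1 _ (Nat.le_add_right _ _) _ k.2.2 S n0
    · exact stageT O c.1 c.2 _ (ex c.1) (hex1 c.1) (hex2 c.1) k.2.2 S n0 hS
    · exact hκS c k.1 _ (Nat.le_add_right _ _) _ k.2.2 S n0 hS) g hg
  -- uniqueness
  have huniq : ∀ k, k = 3 ∨ k = 4 → ∀ (j : ℕ) (y y' : List Bool),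
      y.length = y'.length → T (pos j k y) = true → T (pos j k y') = true → y = y' := by
    intro k hk j y y' hyy h1 h2
    obtain ⟨i, n, h3⟩ := hT2 _ h1
    have h4 : pos j k y ∈ Lv j y.length := ⟨k, y, rfl, rfl⟩
    obtain ⟨h5, _⟩ := eq_of_mem_Lv h4 h3
    subst h5
    obtain ⟨E, h6, h7⟩ := (hT3 i).1 y.length
    exact kinds h7 hk ((h6 _).2 ⟨h4, h1⟩) ((h6 _).2 ⟨⟨k, y', hyy.symm, rfl⟩, h2⟩)
  refine ⟨T, hT1, ?_, ?_, ?_, ?_⟩
  · -- pairs
    rintro K₀ K₁ ⟨⟨V0, p0, ⟨M0, hM0⟩, hV0⟩, ⟨V1, p1, ⟨M1, hM1⟩, hV1⟩, hdis⟩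
    set V : Bool → Alg := fun i => bif i then M1 else M0 with hV
    set p : Bool → Polynomial ℕ := fun i => bif i then p1 else p0 with hp
    have hw0 : ∀ x, Wit (V false) (p false) x (join O T) ↔ x ∈ K₀ := by
      intro x
      rw [hV0 x, Wit]
      refine exists_congr fun y => and_congr_right fun _ => ?_
      change M0.out (join O T) (pairBits x y) = some [true] ↔ _
      rw [hM0, Option.some.injEq]
    have hw1 : ∀ x, Wit (V true) (p true) x (join O T) ↔ x ∈ K₁ := by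
      intro x
      rw [hV1 x, Wit]
      refine exists_congr fun y => and_congr_right fun _ => ?_
      change M1.out (join O T) (pairBits x y) = some [true] ↔ _
      rw [hM1, Option.some.injEq]
    have hnd : T ∉ deadP O V p := by
      rintro ⟨z, h2, h3⟩
      exact hdis z ⟨(hw0 z).1 h2, (hw1 z).1 h3⟩
    rcases (hT3 (Sum.inl (V, p))).2 with h | ⟨h1, h2⟩
    · exact absurd h hnd
    · have hLev : Lev T (e (Sum.inl (V, p))) (AlP (e (Sum.inl (V, p)))) := h2
      refine ⟨lang T (e (Sum.inl (V, p))), isUP_lang hLev, isUP_lang_compl hLev,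
        part_pair (fun M => ⟨κP (V, p) M, fun k hk N => ?_⟩) hLev hw0 hw1 hdis⟩
      obtain ⟨k', rfl⟩ := Nat.exists_eq_add_of_le hk
      exact h1 (M, k', N)
  · -- UP
    rintro K ⟨V', p, ⟨V, hV⟩, hK, huq⟩
    have hw0 : ∀ x, Wit V p x (join O T) ↔ x ∈ K := by
      intro x
      rw [hK x, Wit]
      refine exists_congr fun y => and_congr_right fun _ => ?_
      rw [hV, Option.some.injEq]
    have hnd : T ∉ deadU O V p := by
      rintro ⟨z, w, w', ⟨h1, h2⟩, ⟨h3, h4⟩, h5⟩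
      rw [hV, Option.some.injEq] at h2 h4
      exact h5 (huq z w w' h1 h3 h2 h4)
    rcases (hT3 (Sum.inr (Sum.inl (V, p)))).2 with h | ⟨h1, h2⟩
    · exact absurd h hnd
    · have hLev : Lev T (e (Sum.inr (Sum.inl (V, p)))) (AlP (e (Sum.inr (Sum.inl (V, p))))) := h2
      refine ⟨lang T (e (Sum.inr (Sum.inl (V, p)))), isUP_lang hLev, isUP_lang_compl hLev,
        part_up (fun M => ⟨κU (V, p) M, fun k hk N => ?_⟩) hLev hw0⟩
      obtain ⟨k', rfl⟩ := Nat.exists_eq_add_of_le hk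
      exact h1 (M, k', N)
  · -- tautologies
    intro L hL P hP
    obtain ⟨F, ⟨NF, hNF⟩, hF⟩ := hL (univ' T 3)ᶜ (by
      rw [compl_compl]
      exact isUP_univ' (huniq 3 (Or.inl rfl)))
    obtain ⟨NP, hNP⟩ := hP.1
    set i : Cnd := Sum.inr (Sum.inr (Sum.inl (NP, NF))) with hi
    have hnd : T ∉ deadT O NP NF (e i) := by
      rintro ⟨n, y, h1, h2, w, z, h3, h4⟩
      rw [hNF, Option.some.injEq] at h3
      rw [hNP, Option.some.injEq] at h4
      have h5 : F (code n (e i)) ∈ L := by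
        rw [h3, ← h4, ← hP.2]
        exact ⟨w, rfl⟩
      exact (hF _).2 h5 (mem_univ'_code.2 ⟨y, h1, h2⟩)
    rcases (hT3 i).2 with h | ⟨h1, h2⟩
    · exact absurd h hnd
    · refine part_taut (e := ex NP) (j := e i) (fun k => h1 (Sum.inl M₀, 0, k)) ?_ hP hNP hNF hF
      intro n y hy
      obtain ⟨E, h3, h4⟩ := h2 n
      have h5 : E = ∅ := by
        rcases h4 with h4 | h4
        · exact h4
        · exact h4
      rw [Bool.eq_false_iff]
      intro h6
      have := (h3 _).2 ⟨⟨3, y, hy, rfl⟩, h6⟩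
      rw [h5] at this
      exact absurd this (Finset.notMem_empty _)
  · -- satisfiability
    intro L hL P hP
    obtain ⟨F, ⟨NF, hNF⟩, hF⟩ := hL (univ' T 4) (isUP_univ' (huniq 4 (Or.inr rfl)))
    obtain ⟨NP, hNP⟩ := hP.1
    set i : Cnd := Sum.inr (Sum.inr (Sum.inr (NP, NF))) with hi
    have hnd : T ∉ deadS O NP NF (e i) := by
      rintro ⟨n, h1, h2, w, z, h3, h4⟩
      rw [hNF, Option.some.injEq] at h3
      rw [hNP, Option.some.injEq] at h4
      have h5 : F (code n (e i)) ∈ L := by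
        rw [h3, ← h4, ← hP.2]
        exact ⟨w, rfl⟩
      obtain ⟨y, h6, h7⟩ := mem_univ'_code.1 ((hF _).2 h5)
      rw [h2 y h6] at h7
      exact absurd h7 (by simp)
    rcases (hT3 i).2 with h | ⟨h1, h2⟩
    · exact absurd h hnd
    · refine part_sat (j := e i) (fun h => ⟨κS (NP, NF) (Sum.inl h), fun k hk N => ?_⟩) ?_
        hP hNP hNF hF
      · obtain ⟨k', rfl⟩ := Nat.exists_eq_add_of_le hk
        exact h1 (Sum.inl h, k', N)
      intro n hn
      obtain ⟨E, h3, h4⟩ := h2 n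
      have h5 : mk5 (e i) n ∈ E := (h3 _).2 ⟨mk5_mem_Lv _ _, hn⟩
      rcases h4 with h4 | ⟨y, h6, h7⟩
      · rw [h4] at h5
        exact absurd h5 (Finset.notMem_empty _)
      · refine ⟨y, h6, ((h3 _).1 ?_).2⟩
        rw [h7]
        exact Finset.mem_insert_of_mem (Finset.mem_singleton_self _)

end Pool.Agent.TH672.SD
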