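import Pool.Agent.TH672.SD.Pr

/-!
# One stage for a candidate proof system
-/

set_option autoImplicit false

namespace Pool.Agent.TH672.SD

open Filter Pool.Agent.NPC Pool.Agent.H628R3.RO Pool.Agent.W900.SP

/-- the marker used for proof systems -/
def mk5 (j n : ℕ) : List Bool := pos j 5 (List.replicate n true)

theorem mk5_mem_Lv (j n : ℕ) : mk5 j n ∈ Lv j n := ⟨5, _, List.length_replicate, rfl⟩

theorem ofF_one (S : Finset (List Bool)) (m : List Bool) :
    ofF (S ∪ {m}) = add (ofF S) m := by
  rw [← ofF_insert]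
  congr 1
  ext x
  simp only [Finset.mem_union, Finset.mem_insert, Finset.mem_singleton]
  tauto

theorem length_code' (n j : ℕ) : (code n j).length = j + n + 1 := by
  unfold code
  simp only [List.length_append, List.length_replicate, List.length_cons]
  omega

/-- `P` proves the statement `F (code n j)` although there is a string of size `n` -/
def deadT (O : Oracle) (P F : Alg) (j : ℕ) : Set Oracle :=
  {T | ∃ (n : ℕ) (y : List Bool), y.length = n ∧ T (pos j 3 y) = true ∧
    ∃ w z, F.out (join O T) (code n j) = some z ∧ P.out (join O T) w = some z}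

/-- there is no short proof of the statement for some large size -/
def rqT (O : Oracle) (P F : Alg) (j e k : ℕ) : Set Oracle :=
  {T | ∃ n ≥ k, ∀ w : List Bool, w.length ^ e ≤ 2 ^ n → ∀ z,
    F.out (join O T) (code n j) = some z → P.out (join O T) w ≠ some z}

def AlT (E : Finset (List Bool)) : Prop := E = ∅

def WkT (j n : ℕ) (E : Finset (List Bool)) : Prop :=
  ∃ y : List Bool, y.length = n ∧ E = {pos j 3 y}

theorem stageT (O : Oracle) (P F : Alg) (j e : ℕ) (he : 1 ≤ e)
    (hgap : ∃ N, ∀ n ≥ N, ∀ m : ℕ, m ^ e ≤ 2 ^ n → 32 * P.p.eval m ≤ 2 ^ n)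
    (k : ℕ) (S : Finset (List Bool)) (n0 : ℕ) (_hS : ∀ x ∈ S, x.length < n0) :
    ∃ (n : ℕ) (E : Finset (List Bool)) (b : ℕ), n0 ≤ n ∧ (∀ x ∈ E, x ∈ Lv j n) ∧
      E.card ≤ 3 ∧ ((AlT E ∧ ∀ T, Ag b (S ∪ E) T → T ∈ rqT O P F j e k) ∨
        (WkT j n E ∧ ∀ T, Ag b (S ∪ E) T → T ∈ deadT O P F j)) := by
  classical
  obtain ⟨N, hN⟩ := hgap
  obtain ⟨N1, hN1⟩ := mul_poly_le_two_pow (F.p.comp (Polynomial.X + Polynomial.C (j + 1))) 2
  set n := max (max n0 k) (max N N1) with hn
  have hn0 : n0 ≤ n := (le_max_left _ _).trans (le_max_left _ _)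
  have hnk : k ≤ n := (le_max_right _ _).trans (le_max_left _ _)
  have hnN : N ≤ n := (le_max_left _ _).trans (le_max_right _ _)
  have hnN1 : N1 ≤ n := (le_max_right _ _).trans (le_max_right _ _)
  obtain ⟨qF, hqF⟩ := loc1 F
  obtain ⟨qP, hqP⟩ := loc1 P
  obtain ⟨bF, hbF⟩ := out_short F (j + n + 1)
  by_cases h : ∃ w z : List Bool, w.length ^ e ≤ 2 ^ n ∧
      F.out (join O (ofF S)) (code n j) = some z ∧ P.out (join O (ofF S)) w = some z
  · obtain ⟨w, z, hw, h1, h2⟩ := h
    obtain ⟨Q1, hc1, -, hl1⟩ := hqF O (ofF S) (code n j)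
    obtain ⟨Q2, hc2, -, hl2⟩ := hqP O (ofF S) w
    have hcard : (Q1 ∪ Q2).card < (secs j n 3).card := by
      rw [card_secs]
      have h3 := Finset.card_union_le Q1 Q2
      have h4 := hN n hnN _ hw
      have h5 := hN1 n hnN1
      rw [Polynomial.eval_comp] at h5
      simp only [Polynomial.eval_add, Polynomial.eval_X, Polynomial.eval_C] at h5
      rw [length_code', show j + n + 1 = n + (j + 1) by ring] at hc1
      have h6 : 0 < 2 ^ n := Nat.two_pow_pos n
      omega
    obtain ⟨s, hs, hsB⟩ := Finset.exists_mem_notMem_of_card_lt_card hcard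
    rw [Finset.mem_union, not_or] at hsB
    obtain ⟨y, hy, hsy⟩ := mem_secs.1 hs
    obtain ⟨bP, hbP⟩ := out_short P w.length
    refine ⟨n, {s}, max (max bF bP) (s.length + 1), hn0, ?_, by simp, Or.inr
      ⟨⟨y, hy, by rw [hsy]⟩, ?_⟩⟩
    · intro x hx
      rw [Finset.mem_singleton] at hx
      rw [hx]
      exact mem_Lv_of_secs hs
    · intro T hT
      have hT0 : ∀ q : List Bool, q.length < max (max bF bP) (s.length + 1) →
          T q = add (ofF S) s q := fun q hq => by rw [hT q hq, ofF_one]
      refine ⟨n, y, hy, ?_, w, z, ?_, ?_⟩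
      · rw [← hsy, hT0 _ (by simp only [lt_max_iff]; omega)]
        exact add_self
      · rw [hbF O (add (ofF S) s) T _ (length_code' n j).le fun q hq => hT0 q (lt_of_lt_of_le hq
          ((le_max_left _ _).trans (le_max_left _ _))), ← h1]
        exact hl1 _ fun q hq => add_ne fun h => hsB.1 (h ▸ hq)
      · rw [hbP O (add (ofF S) s) T _ le_rfl fun q hq => hT0 q (lt_of_lt_of_le hq
          ((le_max_right _ _).trans (le_max_left _ _))), ← h2]
        exact hl2 _ fun q hq => add_ne fun h => hsB.2 (h ▸ hq)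
  · push Not at h
    obtain ⟨bP, hbP⟩ := out_short P (2 ^ n)
    refine ⟨n, ∅, max bF bP, hn0, by simp, by simp, Or.inl ⟨rfl, fun T hT => ?_⟩⟩
    have hT0 : ∀ q : List Bool, q.length < max bF bP → T q = ofF S q := fun q hq => by
      rw [hT q hq, Finset.union_empty]
    refine ⟨n, hnk, fun w hw z hz => ?_⟩
    rw [hbF O (ofF S) T _ (length_code' n j).le fun q hq => hT0 q (lt_of_lt_of_le hq
      (le_max_left _ _))] at hz
    rw [hbP O (ofF S) T w ((Nat.le_self_pow (by omega) _).trans hw) fun q hq =>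
      hT0 q (lt_of_lt_of_le hq (le_max_right _ _))]
    exact h w z hw hz

/-! ### `p`-optimality -/

/-- `P` proves the statement although there is a marker and no secret -/
def deadS (O : Oracle) (P F : Alg) (j : ℕ) : Set Oracle :=
  {T | ∃ n : ℕ, T (mk5 j n) = true ∧ (∀ y : List Bool, y.length = n → T (pos j 4 y) = false) ∧
    ∃ w z, F.out (join O T) (code n j) = some z ∧ P.out (join O T) w = some z}

/-- the algorithm `h` with a pad of length `2 ^ ((n + 1) / k)` does not find a proof for some
marked size `n ≥ N` -/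
def rqS (O : Oracle) (P F : Alg) (j : ℕ) (h : Alg) (k N : ℕ) : Set Oracle :=
  {T | ∃ n : ℕ, N ≤ n ∧ T (mk5 j n) = true ∧ ¬ ∃ w z,
    h.out (join O T) (inp k (true :: List.replicate n true)) = some w ∧
      P.out (join O T) w = some z ∧ F.out (join O T) (code n j) = some z}

def AlS (j n : ℕ) (E : Finset (List Bool)) : Prop :=
  ∃ y : List Bool, y.length = n ∧ E = {mk5 j n, pos j 4 y}

def WkS (j n : ℕ) (E : Finset (List Bool)) : Prop := E = {mk5 j n}

theorem stageS (O : Oracle) (P F h : Alg) : ∃ k0, ∀ k ≥ k0, ∀ (j N : ℕ)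
    (S : Finset (List Bool)) (n0 : ℕ), (∀ x ∈ S, x.length < n0) →
    ∃ (n : ℕ) (E : Finset (List Bool)) (b : ℕ), n0 ≤ n ∧ (∀ x ∈ E, x ∈ Lv j n) ∧
      E.card ≤ 3 ∧ ((AlS j n E ∧ ∀ T, Ag b (S ∪ E) T → T ∈ rqS O P F j h k N) ∨
        (WkS j n E ∧ ∀ T, Ag b (S ∪ E) T → T ∈ deadS O P F j)) := by
  classical
  obtain ⟨qF, hqF⟩ := loc1 F
  obtain ⟨qP, hqP⟩ := loc1 P
  obtain ⟨qh, hqh⟩ := loc1 h
  obtain ⟨bl, hbl⟩ := h.out_length
  obtain ⟨k0, hk0⟩ := pad_gap (h.p + P.p.comp bl)
  refine ⟨k0, fun k hk j N S n0' hS => ?_⟩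
  obtain ⟨n1, hn1⟩ := hk0 k hk
  obtain ⟨N1, hN1⟩ := mul_poly_le_two_pow (F.p.comp (Polynomial.X + Polynomial.C (j + 1))) 2
  set n := max (max n0' N) (max n1 N1) with hn
  have hn0 : n0' ≤ n := (le_max_left _ _).trans (le_max_left _ _)
  have hnN : N ≤ n := (le_max_right _ _).trans (le_max_left _ _)
  have hnn1 : n1 ≤ n := (le_max_left _ _).trans (le_max_right _ _)
  have hnN1 : N1 ≤ n := (le_max_right _ _).trans (le_max_right _ _)
  have hNn := hn1 (n + 1) (by omega)
  have hNF := hN1 n hnN1
  simp only [Polynomial.eval_add, Polynomial.eval_comp, Polynomial.eval_X, Polynomial.eval_C]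
    at hNn hNF
  rw [pow_succ] at hNn
  set T1 : Oracle := add (ofF S) (mk5 j n) with hT1
  set u : List Bool := inp k (true :: List.replicate n true) with hu
  have hul : u.length = XX k (n + 1) := by
    rw [hu, length_inp, List.length_cons, List.length_replicate]
  obtain ⟨bF, hbF⟩ := out_short F (j + n + 1)
  obtain ⟨bh, hbh⟩ := out_short h (XX k (n + 1))
  obtain ⟨bP, hbP⟩ := out_short P (bl.eval (XX k (n + 1)))
  by_cases hx : ∃ w z : List Bool, h.out (join O T1) u = some w ∧ P.out (join O T1) w = some z ∧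
      F.out (join O T1) (code n j) = some z
  · obtain ⟨w, z, h1, h2, h3⟩ := hx
    have hwl : w.length ≤ bl.eval (XX k (n + 1)) := by
      have := hbl _ _ _ h1
      rwa [hul] at this
    refine ⟨n, {mk5 j n}, max (max bF bP) (j + n + 8), hn0, ?_, by simp, Or.inr ⟨rfl, ?_⟩⟩
    · intro x hx
      rw [Finset.mem_singleton] at hx
      rw [hx]
      exact mk5_mem_Lv j n
    · intro T hT
      have hT0 : ∀ q : List Bool, q.length < max (max bF bP) (j + n + 8) → T q = T1 q :=
        fun q hq => by rw [hT q hq, ofF_one]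
      have hmk : (mk5 j n).length = j + n + 7 := by
        unfold mk5; rw [length_pos, List.length_replicate]; ring
      refine ⟨n, ?_, fun y hy => ?_, w, z, ?_, ?_⟩
      · rw [hT0 _ (by simp only [lt_max_iff]; omega)]
        exact add_self
      · have hl : (pos j 4 y).length = j + n + 6 := by rw [length_pos, hy]; ring
        rw [hT0 _ (by simp only [lt_max_iff]; omega), hT1, add_ne, ofF, decide_eq_false_iff_not]
        · intro hcon
          have := hS _ hcon
          omega
        · intro hcon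
          have := (pos_inj hcon).2.1
          omega
      · rw [hbF O T1 T _ (length_code' n j).le fun q hq => hT0 q (lt_of_lt_of_le hq
          ((le_max_left _ _).trans (le_max_left _ _)))]
        exact h3
      · rw [hbP O T1 T w hwl fun q hq => hT0 q (lt_of_lt_of_le hq
          ((le_max_right _ _).trans (le_max_left _ _)))]
        exact h2
  · obtain ⟨Q1, hc1, -, hl1⟩ := hqF O T1 (code n j)
    obtain ⟨Q2, hc2, -, hl2⟩ := hqh O T1 u
    obtain ⟨Q3, hc3, hl3⟩ : ∃ Q3 : Finset (List Bool), Q3.card ≤ P.p.eval (bl.eval (XX k (n + 1))) ∧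
        ∀ w, h.out (join O T1) u = some w → ∀ T' : Oracle, (∀ q ∈ Q3, T' q = T1 q) →
          P.out (join O T') w = P.out (join O T1) w := by
      cases hw : h.out (join O T1) u with
      | none => exact ⟨∅, by simp, fun w h' => by simp at h'⟩
      | some w =>
        obtain ⟨Q3, hc3, -, hl3⟩ := hqP O T1 w
        refine ⟨Q3, hc3.trans (eval_mono P.p ?_), fun w' h' => ?_⟩
        · have := hbl _ _ _ hw
          rwa [hul] at this
        · rw [Option.some.injEq] at h'
          rw [← h']
          exact hl3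
    have hcard : (Q1 ∪ (Q2 ∪ Q3)).card < (secs j n 4).card := by
      rw [card_secs]
      have h3 := Finset.card_union_le Q1 (Q2 ∪ Q3)
      have h4 := Finset.card_union_le Q2 Q3
      rw [length_code', show j + n + 1 = n + (j + 1) by ring] at hc1
      rw [hul] at hc2
      have h6 : 0 < 2 ^ n := Nat.two_pow_pos n
      omega
    obtain ⟨s, hs, hsB⟩ := Finset.exists_mem_notMem_of_card_lt_card hcard
    rw [Finset.mem_union, Finset.mem_union, not_or, not_or] at hsB
    obtain ⟨y, hy, hsy⟩ := mem_secs.1 hs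
    refine ⟨n, {mk5 j n, s}, max (max bF bP) (max bh (j + n + 8)), hn0, ?_,
      Finset.card_le_two.trans (by norm_num), Or.inl ⟨⟨y, hy, by rw [hsy]⟩, ?_⟩⟩
    · intro x hx
      simp only [Finset.mem_insert, Finset.mem_singleton] at hx
      rcases hx with rfl | rfl
      · exact mk5_mem_Lv j n
      · exact mem_Lv_of_secs hs
    · intro T hT
      have hT0 : ∀ q : List Bool, q.length < max (max bF bP) (max bh (j + n + 8)) →
          T q = add T1 s q := fun q hq => by rw [hT q hq, ofF_two]
      have hmk : (mk5 j n).length = j + n + 7 := by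
        unfold mk5; rw [length_pos, List.length_replicate]; ring
      have e1 : h.out (join O T) u = h.out (join O T1) u := by
        rw [hbh O (add T1 s) T u hul.le fun q hq => hT0 q (lt_of_lt_of_le hq
          ((le_max_left _ _).trans (le_max_right _ _)))]
        exact hl2 _ fun q hq => add_ne fun h => hsB.2.1 (h ▸ hq)
      have e2 : F.out (join O T) (code n j) = F.out (join O T1) (code n j) := by
        rw [hbF O (add T1 s) T _ (length_code' n j).le fun q hq => hT0 q (lt_of_lt_of_le hq
          ((le_max_left _ _).trans (le_max_left _ _)))]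
        exact hl1 _ fun q hq => add_ne fun h => hsB.1 (h ▸ hq)
      refine ⟨n, hnN, ?_, ?_⟩
      · rw [hT0 _ (by simp only [lt_max_iff]; omega)]
        unfold add
        split_ifs
        · rfl
        · exact add_self
      · rintro ⟨w, z, h1, h2, h3⟩
        rw [e1] at h1
        rw [e2] at h3
        have hwl : w.length ≤ bl.eval (XX k (n + 1)) := by
          have := hbl _ _ _ h1
          rwa [hul] at this
        rw [hbP O (add T1 s) T w hwl fun q hq => hT0 q (lt_of_lt_of_le hq
          ((le_max_right _ _).trans (le_max_left _ _))),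
          hl3 w h1 (add T1 s) fun q hq => add_ne fun h => hsB.2.2 (h ▸ hq)] at h2
        exact hx ⟨w, z, h1, h2, h3⟩

end Pool.Agent.TH672.SD
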