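import Pool.Agent.TH672.SD.Up
import Pool.Agent.TH672.SD.Ps
import Pool.Agent.H628R3.RO.A3
import Pool.Agent.H628R3.RO.G1
import Pool.Agent.H628R3.RO.G2

/-!
# The languages
-/

set_option autoImplicit false

namespace Pool.Agent.TH672.SD

open Pool.Agent.NPC Pool.Agent.H628R3.RO Pool.Agent.W900.SP
open Pool.Agent.H628R3.RO.G2 (ver ver_iff ver_isFP)

theorem pos_kind {j k k' : ℕ} {y y' : List Bool} (h : pos j k y = pos j k' y') :
    k = k' ∧ y = y' := (pos_inj h).2

/-- the language of the label `j` -/
def lang (T : Oracle) (j : ℕ) : Set (List Bool) :=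
  {x | T (mk j x.length) = true ∧ ∃ y : List Bool, y.length = x.length ∧ T (pos j 0 y) = true}

/-- all level sets of the label `j` are empty or of the right form -/
def Lev (T : Oracle) (j : ℕ) (Al : ℕ → Finset (List Bool) → Prop) : Prop :=
  ∀ n, ∃ E : Finset (List Bool), (∀ x, x ∈ E ↔ x ∈ Lv j n ∧ T x = true) ∧ (E = ∅ ∨ Al n E)

theorem lev_cases {T : Oracle} {j : ℕ} (h : Lev T j (AlP j)) (n : ℕ) :
    (T (mk j n) = false ∧ ∀ k (y : List Bool), y.length = n → T (pos j k y) = false) ∨
    ∃ (b : Bool) (y₀ : List Bool), y₀.length = n ∧ T (mk j n) = true ∧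
      ∀ (b' : Bool) (y : List Bool), y.length = n →
        (T (pos j b'.toNat y) = true ↔ b' = b ∧ y = y₀) := by
  obtain ⟨E, h1, h2⟩ := h n
  rcases h2 with h2 | ⟨b, y₀, hy₀, h2⟩
  · left
    have key : ∀ k (y : List Bool), y.length = n → T (pos j k y) = false := by
      intro k y hy
      rw [Bool.eq_false_iff]
      intro h3
      have := (h1 (pos j k y)).2 ⟨⟨k, y, hy, rfl⟩, h3⟩
      rw [h2] at this
      exact absurd this (Finset.notMem_empty _)
    exact ⟨key 2 _ List.length_replicate, key⟩
  · right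
    refine ⟨b, y₀, hy₀, ?_, fun b' y hy => ?_⟩
    · have : mk j n ∈ E := by rw [h2]; exact Finset.mem_insert_self _ _
      exact ((h1 _).1 this).2
    · have h3 : T (pos j b'.toNat y) = true ↔ pos j b'.toNat y ∈ E :=
        ⟨fun h => (h1 _).2 ⟨⟨_, y, hy, rfl⟩, h⟩, fun h => ((h1 _).1 h).2⟩
      rw [h3, h2, Finset.mem_insert, Finset.mem_singleton]
      constructor
      · rintro (h4 | h4)
        · have := (pos_kind h4).1
          have h5 := Bool.toNat_le b'
          omega
        · obtain ⟨h5, h6⟩ := pos_kind h4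
          exact ⟨by cases b' <;> cases b <;> simp_all, h6⟩
      · rintro ⟨rfl, rfl⟩
        exact Or.inr rfl

theorem p_pos' {α : Type} [TEnc α] {w : α → List Bool} (j k : ℕ) (hw : Poly w) :
    Poly (fun a => pos j k (w a)) := p_pos (UPoly.const j) (UPoly.const k) hw

theorem isUP_lang {O T : Oracle} {j : ℕ} (h : Lev T j (AlP j)) : IsUP (join O T) (lang T j) := by
  have hv : ∀ x w : List Bool, ver (join O T) (fun q => decide (q.2.length = q.1.length))
      (fun q => [true :: mk j q.1.length, true :: pos j 0 q.2]) (pairBits x w) = [true] ↔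
      w.length = x.length ∧ T (mk j x.length) = true ∧ T (pos j 0 w) = true := by
    intro x w
    rw [ver_iff, decide_eq_true_eq]
    simp [join]
  refine ⟨ver (join O T) (fun q => decide (q.2.length = q.1.length))
      (fun q => [true :: mk j q.1.length, true :: pos j 0 q.2]), Polynomial.X,
      ver_isFP _ ?_ ?_, fun x => ?_, fun x w w' _ _ h1 h2 => ?_⟩
  · exact Poly.decide_eq (Poly.length (Poly.snd Poly.id)) (Poly.length (Poly.fst Poly.id))
  · refine Poly.cons (Poly.cons (NPC.Poly.const true) ?_) (Poly.cons (Poly.cons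
      (NPC.Poly.const true) ?_) (NPC.Poly.const []))
    · exact p_pos' j 2 (p_replicate (UPoly.length (Poly.fst Poly.id)) true)
    · exact p_pos' j 0 (Poly.snd Poly.id)
  · constructor
    · rintro ⟨h1, y, h2, h3⟩
      exact ⟨y, by rw [Polynomial.eval_X]; omega, (hv x y).2 ⟨h2, h1, h3⟩⟩
    · rintro ⟨w, _, h2⟩
      obtain ⟨h3, h4, h5⟩ := (hv x w).1 h2
      exact ⟨h4, w, h3, h5⟩
  · obtain ⟨h3, h4, h5⟩ := (hv x w).1 h1
    obtain ⟨h3', _, h5'⟩ := (hv x w').1 h2
    rcases lev_cases h x.length with h6 | ⟨b, y₀, _, _, h6⟩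
    · rw [h6.1] at h4
      exact absurd h4 (by simp)
    · rw [((h6 false w h3).1 h5).2, ((h6 false w' h3').1 h5').2]

/-- the verifier for the complement -/
def coH (q : List Bool × List Bool) : List Bool :=
  if q.2 = [true, true] then
    (if (unpair q.1).2.length = (unpair q.1).1.length then [true] else [])
  else if q.2.head? = some false then
    (if (unpair q.1).2 = [] then [true] else [])
  else []

theorem isUP_lang_compl {O T : Oracle} {j : ℕ} (h : Lev T j (AlP j)) :
    IsUP (join O T) (lang T j)ᶜ := by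
  have hv : ∀ x w : List Bool, coH (pairBits x w, [true :: mk j (unpair (pairBits x w)).1.length,
      true :: pos j 1 (unpair (pairBits x w)).2].map (join O T)) = [true] ↔
      ((T (mk j x.length) = true ∧ T (pos j 1 w) = true ∧ w.length = x.length) ∨
        (T (mk j x.length) = false ∧ w = [])) := by
    intro x w
    unfold coH
    simp only [unpair_pairBits, List.map_cons, List.map_nil, join]
    cases h1 : T (mk j x.length) <;> cases h2 : T (pos j 1 w) <;> simp
  refine ⟨fun z => coH (z, [true :: mk j (unpair z).1.length,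
      true :: pos j 1 (unpair z).2].map (join O T)), Polynomial.X,
      IsFP.tt (Q := fun z => [true :: mk j (unpair z).1.length, true :: pos j 1 (unpair z).2])
      (H := coH) ?_ ?_, fun x => ?_, fun x w w' _ _ h1 h2 => ?_⟩
  · refine Poly.cons (Poly.cons (NPC.Poly.const true) ?_) (Poly.cons (Poly.cons
      (NPC.Poly.const true) ?_) (NPC.Poly.const []))
    · exact p_pos' j 2 (p_replicate (UPoly.length (Poly.fst poly_unpair)) true)
    · exact p_pos' j 1 (Poly.snd poly_unpair)
  · have h1 : Poly (fun q : List Bool × List Bool => q.2) := Poly.snd Poly.id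
    have h2 : Poly (fun q : List Bool × List Bool => unpair q.1) :=
      poly_unpair.comp (Poly.fst Poly.id)
    refine Poly.ite (Poly.decide_eq h1 (NPC.Poly.const _)) ?_ ?_
    · exact Poly.ite (Poly.decide_eq (Poly.length (Poly.snd h2)) (Poly.length (Poly.fst h2)))
        (NPC.Poly.const _) (NPC.Poly.const _)
    · refine Poly.ite (Poly.decide_eq (Poly.head? h1) (NPC.Poly.const _)) ?_ (NPC.Poly.const _)
      exact Poly.ite (Poly.decide_eq (Poly.snd h2) (NPC.Poly.const _))
        (NPC.Poly.const _) (NPC.Poly.const _)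
  · rw [Set.mem_compl_iff]
    rcases lev_cases h x.length with h6 | ⟨b, y₀, h7, h8, h6⟩
    · constructor
      · intro _
        exact ⟨[], by simp, (hv x []).2 (Or.inr ⟨h6.1, rfl⟩)⟩
      · rintro _ ⟨h9, _⟩
        rw [h6.1] at h9
        exact absurd h9 (by simp)
    · constructor
      · intro h9
        cases b with
        | false =>
          exact absurd ⟨h8, y₀, h7, (h6 false y₀ h7).2 ⟨rfl, rfl⟩⟩ h9
        | true =>
          exact ⟨y₀, by rw [Polynomial.eval_X]; omega,
            (hv x y₀).2 (Or.inl ⟨h8, (h6 true y₀ h7).2 ⟨rfl, rfl⟩, h7⟩)⟩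
      · rintro ⟨w, _, h9⟩ ⟨_, y, hy, h10⟩
        rcases (hv x w).1 h9 with h11 | h11
        · have e1 := ((h6 true w h11.2.2).1 h11.2.1).1
          have e2 := ((h6 false y hy).1 h10).1
          rw [← e1] at e2
          exact absurd e2 (by simp)
        · rw [h11.1] at h8
          exact absurd h8 (by simp)
  · have h1' := (hv x w).1 h1
    have h2' := (hv x w').1 h2
    rcases lev_cases h x.length with h6 | ⟨b, y₀, h7, h8, h6⟩
    · rcases h1' with h3 | h3
      · rw [h6.1] at h3; exact absurd h3.1 (by simp)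
      · rcases h2' with h4 | h4
        · rw [h6.1] at h4; exact absurd h4.1 (by simp)
        · rw [h3.2, h4.2]
    · rcases h1' with h3 | h3
      · rcases h2' with h4 | h4
        · rw [((h6 true w h3.2.2).1 h3.2.1).2, ((h6 true w' h4.2.2).1 h4.2.1).2]
        · rw [h8] at h4; exact absurd h4.1 (by simp)
      · rw [h8] at h3; exact absurd h3.1 (by simp)

/-- membership at a marked size -/
theorem mem_lang_iff {T : Oracle} {j : ℕ} (h : Lev T j (AlP j)) {n : ℕ}
    (hm : T (mk j n) = true) {o : Bool} {y : List Bool} (hy : y.length = n)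
    (ho : T (pos j o.toNat y) = true) : List.replicate n true ∈ lang T j ↔ o = false := by
  rcases lev_cases h n with h6 | ⟨b, y₀, h7, h8, h6⟩
  · rw [h6.1] at hm
    exact absurd hm (by simp)
  · have e1 := ((h6 o y hy).1 ho).1
    constructor
    · rintro ⟨_, y', hy', h9⟩
      rw [List.length_replicate] at hy'
      rw [e1, ← ((h6 false y' hy').1 h9).1]
    · intro h9
      refine ⟨by rw [List.length_replicate]; exact hm, y, by rw [List.length_replicate]; exact hy,
        ?_⟩
      rw [h9] at ho
      exact ho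

/-- the inputs for which there is a string of kind `k` -/
def univ' (T : Oracle) (k : ℕ) : Set (List Bool) :=
  {x | ∃ y : List Bool, y.length = siz x ∧ T (pos (lvl x) k y) = true}

theorem isUP_univ' {O T : Oracle} {k : ℕ} (h : ∀ (j : ℕ) (y y' : List Bool),
    y.length = y'.length → T (pos j k y) = true → T (pos j k y') = true → y = y') :
    IsUP (join O T) (univ' T k) := by
  have hv : ∀ x w : List Bool, ver (join O T) (fun q => decide (q.2.length = siz q.1))
      (fun q => [true :: pos (lvl q.1) k q.2]) (pairBits x w) = [true] ↔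
      w.length = siz x ∧ T (pos (lvl x) k w) = true := by
    intro x w
    rw [ver_iff, decide_eq_true_eq]
    simp [join]
  refine ⟨ver (join O T) (fun q => decide (q.2.length = siz q.1))
      (fun q => [true :: pos (lvl q.1) k q.2]), Polynomial.X,
      ver_isFP _ ?_ ?_, fun x => ?_, fun x w w' _ _ h1 h2 => ?_⟩
  · exact Poly.decide_eq (Poly.length (Poly.snd Poly.id)) (u_siz (Poly.fst Poly.id)).toPoly
  · refine Poly.cons (Poly.cons (NPC.Poly.const true) ?_) (NPC.Poly.const [])
    exact p_pos (u_lvl (Poly.fst Poly.id)) (UPoly.const k) (Poly.snd Poly.id)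
  · constructor
    · rintro ⟨y, h2, h3⟩
      have := siz_add_lvl x
      exact ⟨y, by rw [Polynomial.eval_X]; omega, (hv x y).2 ⟨h2, h3⟩⟩
    · rintro ⟨w, _, h2⟩
      exact ⟨w, (hv x w).1 h2⟩
  · obtain ⟨h3, h4⟩ := (hv x w).1 h1
    obtain ⟨h3', h4'⟩ := (hv x w').1 h2
    exact h _ _ _ (h3.trans h3'.symm) h4 h4'

theorem mem_univ'_code {T : Oracle} {k n j : ℕ} : code n j ∈ univ' T k ↔
    ∃ y : List Bool, y.length = n ∧ T (pos j k y) = true := by
  unfold univ'
  rw [Set.mem_ofPred_eq, siz_code, lvl_code]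

end Pool.Agent.TH672.SD
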