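import Pool.Agent.TH672.SD.Stage
import Pool.Agent.H628R3.RO.BaseE
import Pool.Agent.H628R3.RO.D2
import Pool.Agent.H628R3.RO.K1
import Pool.Agent.H628R3.RO.K2

/-!
# Few questions
-/

set_option autoImplicit false

namespace Pool.Agent.TH672.SD

open Filter Pool.Agent.NPC Pool.Agent.H628R3.RO Pool.Agent.W900.SP

/-- the questions about the second oracle of a join -/
theorem loc1 (M : Alg) : ∃ qb : Polynomial ℕ, ∀ (O T : Oracle) (x : List Bool),
    ∃ Q : Finset (List Bool), Q.card ≤ M.p.eval x.length ∧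
      (∀ q ∈ Q, q.length ≤ qb.eval x.length) ∧
      ∀ T' : Oracle, (∀ q ∈ Q, T' q = T q) → M.out (join O T') x = M.out (join O T) x := by
  classical
  obtain ⟨qb, hq⟩ := M.out_local
  refine ⟨qb, fun O T x => ?_⟩
  obtain ⟨Q, h1, h2, h3⟩ := hq (join O T) x
  refine ⟨Q.image List.tail, Finset.card_image_le.trans h1, ?_, fun T' hT' => h3 _ ?_⟩
  · intro q hqQ
    obtain ⟨q', h4, rfl⟩ := Finset.mem_image.1 hqQ
    have := h2 q' h4
    rw [List.length_tail]
    omega
  · intro q hqQ
    rcases q with _ | ⟨c, q⟩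
    · rfl
    · cases c with
      | false => rfl
      | true => exact hT' q (Finset.mem_image.2 ⟨_, hqQ, rfl⟩)

/-- The input `x` together with a pad of length `2 ^ (|x| / k)`: a polynomial-time algorithm with
this input may run for `2 ^ (c |x| / k)` steps. -/
def inp (k : ℕ) (x : List Bool) : List Bool :=
  pairBits x (List.replicate (2 ^ (x.length / k)) true)

/-- the length of `inp k x` -/
def XX (k n : ℕ) : ℕ := 2 * n + 1 + 2 ^ (n / k)

theorem length_inp (k : ℕ) (x : List Bool) : (inp k x).length = XX k x.length := by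
  unfold inp XX
  rw [length_pairBits, List.length_replicate]

theorem pad_gap (R : Polynomial ℕ) : ∃ k0, ∀ k ≥ k0, ∃ n1, ∀ n ≥ n1,
    32 * R.eval (XX k n) ≤ 2 ^ n := by
  obtain ⟨e, he, n0, h⟩ := k1_poly_gap R
  refine ⟨2 * e, fun k hk => ?_⟩
  obtain ⟨t0, ht0⟩ := poly_le_two_pow (Polynomial.C (2 * k) * (Polynomial.X + 1) + 1)
  refine ⟨max n0 (max (k * t0) (2 * e)), fun n hn => ?_⟩
  have hn0 : n0 ≤ n := (le_max_left _ _).trans hn
  have hn1 : k * t0 ≤ n := ((le_max_left _ _).trans (le_max_right _ _)).trans hn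
  have hn2 : 2 * e ≤ n := ((le_max_right _ _).trans (le_max_right _ _)).trans hn
  have hk0 : 0 < k := by omega
  refine h n hn0 _ ?_
  set t := n / k with ht
  have h1 : t0 ≤ t := by
    rw [ht, Nat.le_div_iff_mul_le hk0, mul_comm]
    exact hn1
  have h2 := ht0 t h1
  simp only [Polynomial.eval_add, Polynomial.eval_mul, Polynomial.eval_C, Polynomial.eval_X,
    Polynomial.eval_one] at h2
  have h3 : n < k * (t + 1) := by
    rw [ht]
    exact Nat.lt_mul_div_succ n hk0
  have h4 : k * t ≤ n := by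
    rw [ht]
    exact Nat.mul_div_le n k
  have h5 : XX k n ≤ 2 ^ (t + 1) := by
    unfold XX
    rw [← ht, pow_succ]
    nlinarith
  calc (XX k n) ^ e ≤ (2 ^ (t + 1)) ^ e := Nat.pow_le_pow_left h5 e
    _ = 2 ^ ((t + 1) * e) := (pow_mul _ _ _).symm
    _ ≤ 2 ^ n := Nat.pow_le_pow_right (by norm_num) (by nlinarith)

/-- a functional which asks few short questions about two oracles -/
def Few (Φ : Oracle → Oracle → ℕ → Bool) (p qb : ℕ → ℕ) : Prop :=
  ∀ (T S : Oracle) (n : ℕ), ∃ Q₁ Q₂ : Finset (List Bool), Q₁.card ≤ p n ∧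
    Q₂.card ≤ p n ∧ (∀ q ∈ Q₁, q.length ≤ qb n) ∧ (∀ q ∈ Q₂, q.length ≤ qb n) ∧
    ∀ T' S' : Oracle, (∀ q ∈ Q₁, T' q = T q) → (∀ q ∈ Q₂, S' q = S q) → Φ T' S' n = Φ T S n

/-- Turing reductions: the algorithm asks `O`, `T` and `S` -/
def phiT (O : Oracle) (M : Alg) (k : ℕ) (T S : Oracle) (n : ℕ) : Bool :=
  decide (M.out (join (join O T) S) (inp k (List.replicate n true)) = some [true])

/-- many-one reductions: the algorithm asks `O` and `T`, the value is asked from `S` -/
def phiM (O : Oracle) (M : Alg) (k : ℕ) (T S : Oracle) (n : ℕ) : Bool :=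
  match M.out (join O T) (inp k (List.replicate n true)) with
  | some z => S z
  | none => false

/-- both kinds -/
def phi (O : Oracle) : Alg ⊕ Alg → ℕ → Oracle → Oracle → ℕ → Bool
  | Sum.inl M => phiT O M
  | Sum.inr M => phiM O M

theorem few_phiT (O : Oracle) (M : Alg) : ∃ p qb : Polynomial ℕ, ∀ k,
    Few (phiT O M k) (fun n => p.eval (XX k n)) (fun n => qb.eval (XX k n)) := by
  classical
  obtain ⟨qb, hq⟩ := M.out_local
  refine ⟨M.p, qb, fun k T S n => ?_⟩
  obtain ⟨Q, h1, h2, h3⟩ := hq (join (join O T) S) (inp k (List.replicate n true))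
  rw [length_inp, List.length_replicate] at h1
  simp only [length_inp, List.length_replicate] at h2
  refine ⟨Q.image (fun q => q.tail.tail), Q.image List.tail, Finset.card_image_le.trans h1,
    Finset.card_image_le.trans h1, ?_, ?_, fun T' S' hT' hS' => ?_⟩
  · intro q hqQ
    obtain ⟨q', h4, rfl⟩ := Finset.mem_image.1 hqQ
    have := h2 q' h4
    simp only [List.length_tail]
    omega
  · intro q hqQ
    obtain ⟨q', h4, rfl⟩ := Finset.mem_image.1 hqQ
    have := h2 q' h4
    simp only [List.length_tail]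
    omega
  · unfold phiT
    rw [h3]
    intro q hqQ
    rcases q with _ | ⟨c, q⟩
    · rfl
    · cases c with
      | true => exact hS' q (Finset.mem_image.2 ⟨_, hqQ, rfl⟩)
      | false =>
        rcases q with _ | ⟨c, q⟩
        · rfl
        · cases c with
          | false => rfl
          | true => exact hT' q (Finset.mem_image.2 ⟨_, hqQ, rfl⟩)

theorem few_phiM (O : Oracle) (M : Alg) : ∃ p qb : Polynomial ℕ, ∀ k,
    Few (phiM O M k) (fun n => p.eval (XX k n)) (fun n => qb.eval (XX k n)) := by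
  classical
  obtain ⟨qb, hq⟩ := loc1 M
  obtain ⟨bl, hbl⟩ := M.out_length
  refine ⟨M.p + Polynomial.C 1, qb + bl, fun k T S n => ?_⟩
  obtain ⟨Q, h1, h2, h3⟩ := hq O T (inp k (List.replicate n true))
  rw [length_inp, List.length_replicate] at h1
  simp only [length_inp, List.length_replicate] at h2
  refine ⟨Q, (M.out (join O T) (inp k (List.replicate n true))).toFinset, ?_, ?_, ?_, ?_,
    fun T' S' hT' hS' => ?_⟩
  · simp only [Polynomial.eval_add, Polynomial.eval_C]; omega
  · simp only [Polynomial.eval_add, Polynomial.eval_C]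
    cases M.out (join O T) (inp k (List.replicate n true)) <;> simp
  · intro q hqQ
    have := h2 q hqQ
    simp only [Polynomial.eval_add]; omega
  · intro q hqQ
    rw [Option.mem_toFinset, Option.mem_def] at hqQ
    have := hbl _ _ _ hqQ
    rw [length_inp, List.length_replicate] at this
    simp only [Polynomial.eval_add]; omega
  · unfold phiM
    rw [h3 T' hT']
    cases h : M.out (join O T) (inp k (List.replicate n true)) with
    | none => rfl
    | some z =>
      refine hS' z ?_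
      rw [Option.mem_toFinset, Option.mem_def, h]

theorem few_phi (O : Oracle) (M : Alg ⊕ Alg) : ∃ p qb : Polynomial ℕ, ∀ k,
    Few (phi O M k) (fun n => p.eval (XX k n)) (fun n => qb.eval (XX k n)) := by
  cases M with
  | inl M => exact few_phiT O M
  | inr M => exact few_phiM O M

/-- the numbers of the construction -/
theorem few_size (O : Oracle) (M : Alg ⊕ Alg) (c : Polynomial ℕ) : ∃ k0, ∀ k ≥ k0,
    ∃ pf qb : ℕ → ℕ, Few (phi O M k) pf qb ∧ ∀ n0, ∃ n ≥ n0,
      pf n + pf n * ((c.eval (qb n) + 1) * c.eval (qb n) + 1) < 2 ^ n := by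
  obtain ⟨p, qb, h⟩ := few_phi O M
  obtain ⟨k0, hk0⟩ := pad_gap (p + p * ((c.comp qb + 1) * c.comp qb + 1))
  refine ⟨k0, fun k hk => ⟨_, _, h k, fun n0 => ?_⟩⟩
  obtain ⟨n1, hn1⟩ := hk0 k hk
  refine ⟨max n0 n1, le_max_left _ _, ?_⟩
  have h1 := hn1 (max n0 n1) (le_max_right _ _)
  simp only [Polynomial.eval_add, Polynomial.eval_mul, Polynomial.eval_one,
    Polynomial.eval_comp] at h1
  have h2 : 0 < 2 ^ (max n0 n1) := Nat.two_pow_pos _
  omega

/-! ### witnesses -/

/-- the questions of an accepting verifier -/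
theorem cert (V : Alg) (p : Polynomial ℕ) : ∃ c : Polynomial ℕ, ∀ (O T : Oracle)
    (x w : List Bool), w.length ≤ p.eval x.length → ∃ Q : Finset (List Bool),
      Q.card ≤ c.eval x.length ∧ ∀ T' : Oracle, (∀ q ∈ Q, T' q = T q) →
        V.out (join O T') (pairBits x w) = V.out (join O T) (pairBits x w) := by
  obtain ⟨qb, hq⟩ := loc1 V
  refine ⟨V.p.comp (Polynomial.C 2 * Polynomial.X + Polynomial.C 1 + p), fun O T x w hw => ?_⟩
  obtain ⟨Q, h1, -, h3⟩ := hq O T (pairBits x w)
  refine ⟨Q, h1.trans ?_, h3⟩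
  rw [Polynomial.eval_comp]
  apply eval_mono
  rw [length_pairBits]
  simp only [Polynomial.eval_add, Polynomial.eval_mul, Polynomial.eval_C, Polynomial.eval_X]
  omega

theorem wit_cert (V : Alg) (p : Polynomial ℕ) : ∃ c : Polynomial ℕ, ∀ (O T : Oracle)
    (x : List Bool), Wit V p x (join O T) → ∃ Q : Finset (List Bool),
      Q.card ≤ c.eval x.length ∧ ∀ T' : Oracle, (∀ q ∈ Q, T' q = T q) →
        Wit V p x (join O T') := by
  obtain ⟨c, hc⟩ := cert V p
  refine ⟨c, fun O T x => ?_⟩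
  rintro ⟨w, hw, h⟩
  obtain ⟨Q, h1, h2⟩ := hc O T x w hw
  exact ⟨Q, h1, fun T' hT' => ⟨w, hw, by rw [h2 T' hT', h]⟩⟩

/-- the output is determined by the short strings -/
theorem out_short (M : Alg) (L : ℕ) : ∃ b : ℕ, ∀ (O T T' : Oracle) (x : List Bool),
    x.length ≤ L → (∀ q : List Bool, q.length < b → T' q = T q) →
      M.out (join O T') x = M.out (join O T) x := by
  obtain ⟨qb, hq⟩ := loc1 M
  refine ⟨qb.eval L + 1, fun O T T' x hx h => ?_⟩
  obtain ⟨Q, -, h2, h3⟩ := hq O T x
  refine h3 T' fun q hqQ => h q ?_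
  have h4 := h2 q hqQ
  have h5 := eval_mono qb hx
  omega

theorem wit_short (V : Alg) (p : Polynomial ℕ) (L : ℕ) : ∃ b : ℕ, ∀ (O T T' : Oracle)
    (x : List Bool), x.length ≤ L → (∀ q : List Bool, q.length < b → T' q = T q) →
      (Wit V p x (join O T') ↔ Wit V p x (join O T)) := by
  obtain ⟨b, hb⟩ := out_short V (2 * L + 1 + p.eval L)
  refine ⟨b, fun O T T' x hx h => ?_⟩
  unfold Wit
  refine exists_congr fun w => and_congr_right fun hw => ?_
  rw [hb O T T' (pairBits x w) ?_ h]
  rw [length_pairBits]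
  have := eval_mono p hx
  omega

/-! ### two strings which do not disturb each other -/

theorem two {c : ℕ} (Z₀ Z₁ : Finset (List Bool)) (q₀ q₁ : List Bool → Finset (List Bool))
    (h0 : ∀ s ∈ Z₀, (q₀ s).card ≤ c) (h1 : ∀ s ∈ Z₁, (q₁ s).card ≤ c)
    (hc0 : c + 1 ≤ Z₀.card) (hc1 : (c + 1) * c + 1 ≤ Z₁.card) :
    ∃ s ∈ Z₀, ∃ s' ∈ Z₁, s' ∉ q₀ s ∧ s ∉ q₁ s' := by
  classical
  obtain ⟨W, hW, hWc⟩ := Finset.exists_subset_card_eq hc0
  have hU : (W.biUnion q₀).card ≤ (c + 1) * c := by
    rw [← hWc]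
    exact Finset.card_biUnion_le_card_mul _ _ _ fun s hs => h0 s (hW hs)
  obtain ⟨s', hs', hn⟩ := Finset.exists_mem_notMem_of_card_lt_card
    (lt_of_le_of_lt hU (Nat.lt_of_succ_le hc1))
  obtain ⟨s, hs, hn2⟩ := Finset.exists_mem_notMem_of_card_lt_card
    (lt_of_le_of_lt (h1 s' hs') (by omega : c < W.card))
  exact ⟨s, hW hs, s', hs', fun h => hn (Finset.mem_biUnion.2 ⟨s, hs, h⟩), hn2⟩

/-- one more string -/
def add (T : Oracle) (s : List Bool) : Oracle := fun x => if x = s then true else T x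

theorem add_ne {T : Oracle} {s x : List Bool} (h : x ≠ s) : add T s x = T x := if_neg h

theorem add_self {T : Oracle} {s : List Bool} : add T s s = true := if_pos rfl

theorem add_add {T : Oracle} {s s' : List Bool} {Q : Finset (List Bool)} (h : s' ∉ Q) :
    ∀ q ∈ Q, add (add T s) s' q = add T s q := fun q hq =>
  add_ne fun h' => h (h' ▸ hq)

theorem add_comm (T : Oracle) (s s' : List Bool) : add (add T s) s' = add (add T s') s := by
  funext x
  unfold add
  split_ifs <;> rfl

theorem ofF_insert (S : Finset (List Bool)) (s : List Bool) : ofF (insert s S) = add (ofF S) s := by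
  funext x
  unfold ofF add
  by_cases h : x = s
  · simp [h]
  · simp [h]

end Pool.Agent.TH672.SD
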