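import Pool.Agent.TH672.SD.Lang

/-!
# Very few strings destroy all complete pairs, languages and optimal proof systems
-/

set_option autoImplicit false

namespace Pool.Agent.TH672.SD

open Pool.Agent.NPC Pool.Agent.H628R3.RO Pool.Agent.W900.SP
open Pool.Agent.H628R3.RO.G2 (ver ver_iff ver_isFP)

/-- No disjoint `NP` pair `(K₀, K₁)` is hard for `UP ∩ coUP`: some language `L` in `UP ∩ coUP`
cannot be decided by any algorithm that runs in time `2 ^ o(n)`, with the help of an arbitrary set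
`S` that separates `K₀` from `K₁` (Turing reductions of pairs). The algorithms are given as
polynomial-time algorithms with pads of length `2 ^ (n / k)`. In particular there is no
polynomial-time many-one reduction. -/
def PartP (A : Oracle) : Prop := ∀ K₀ K₁, IsPair (IsNP A) K₀ K₁ →
  ∃ L, IsUP A L ∧ IsUP A Lᶜ ∧ (∀ M : Alg, ∃ k₀, ∀ k ≥ k₀, ∀ N, ∃ S : Oracle,
    (∀ z ∈ K₀, S z = true) ∧ (∀ z ∈ K₁, S z = false) ∧ ∃ x : List Bool, N ≤ x.length ∧
      ¬ (M.out (join A S) (inp k x) = some [true] ↔ x ∈ L)) ∧ ¬ RedPair A L Lᶜ K₀ K₁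

open Classical in
/-- No language `K` in `UP` is hard for `UP ∩ coUP`, even for Turing reductions in time
`2 ^ o(n)`. -/
def PartU (A : Oracle) : Prop := ∀ K, IsUP A K → ∃ L, IsUP A L ∧ IsUP A Lᶜ ∧
  (∀ M : Alg, ∃ k₀, ∀ k ≥ k₀, ∀ N, ∃ x : List Bool, N ≤ x.length ∧
    ¬ (M.out (join A (fun z => decide (z ∈ K))) (inp k x) = some [true] ↔ x ∈ L)) ∧
  ¬ Red A L K

/-- Every proof system for a `coUP`-hard set is exponentially worse than some other one, for
infinitely many proofs. -/
def PartT (A : Oracle) : Prop := ∀ L, (∀ L', IsUP A L'ᶜ → Red A L' L) →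
  ∀ P, IsProofSystem A L P → ∃ Q, IsProofSystem A L Q ∧
    ∃ k : ℕ, ∀ N, ∃ w : List Bool, N ≤ w.length ∧ ∀ v, P v = Q w → 2 ^ w.length ≤ v.length ^ k

/-- For every proof system `P` for a `UP`-hard set there is another one whose proofs cannot be
translated into proofs of `P` in time `2 ^ o(n)`; so there is no p-optimal one. -/
def PartS (A : Oracle) : Prop := ∀ L, (∀ L', IsUP A L' → Red A L' L) →
  ∀ P, IsProofSystem A L P → ¬ IsPOptimal A L P ∧ ∃ Q, IsProofSystem A L Q ∧
    ∀ h : Alg, ∃ k₀, ∀ k ≥ k₀, ∀ N, ∃ w : List Bool, N ≤ w.length ∧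
      ¬ ∃ v, h.out A (inp k w) = some v ∧ P v = Q w

/-- algorithms which ignore the pad -/
theorem isFP_unpad {A : Oracle} {F : List Bool → List Bool} (hF : IsFP A F) :
    ∃ M : Alg, ∀ k x, M.out A (inp k x) = some (F x) := by
  obtain ⟨M, hM⟩ := IsFP.comp (F := fun z : List Bool => (unpair z).1) (G := F) hF
    (IsFP.of_poly (Poly.fst poly_unpair))
  refine ⟨M, fun k x => ?_⟩
  rw [hM]
  show some (F (unpair (pairBits x _)).1) = _
  rw [unpair_pairBits]

/-- the candidate pair is defeated -/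
theorem part_pair {O T : Oracle} {V : Bool → Alg} {p : Bool → Polynomial ℕ} {j : ℕ}
    (hR : ∀ M, ∃ k₀, ∀ k ≥ k₀, ∀ N, T ∈ rqP O V p j M k N) (hL : Lev T j (AlP j))
    {K₀ K₁ : Set (List Bool)} (h0 : ∀ x, Wit (V false) (p false) x (join O T) ↔ x ∈ K₀)
    (h1 : ∀ x, Wit (V true) (p true) x (join O T) ↔ x ∈ K₁) (hd : ∀ x, ¬ (x ∈ K₀ ∧ x ∈ K₁)) :
    (∀ M : Alg, ∃ k₀, ∀ k ≥ k₀, ∀ N, ∃ S : Oracle,
      (∀ z ∈ K₀, S z = true) ∧ (∀ z ∈ K₁, S z = false) ∧ ∃ x : List Bool, N ≤ x.length ∧
        ¬ (M.out (join (join O T) S) (inp k x) = some [true] ↔ x ∈ lang T j)) ∧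
      ¬ RedPair (join O T) (lang T j) (lang T j)ᶜ K₀ K₁ := by
  have hnd : T ∉ deadP O V p := by
    rintro ⟨z, h2, h3⟩
    exact hd z ⟨(h0 z).1 h2, (h1 z).1 h3⟩
  constructor
  · intro M
    obtain ⟨k₀, hk₀⟩ := hR (Sum.inl M)
    refine ⟨k₀, fun k hk N => ?_⟩
    obtain ⟨n, S', hN, h2, h3, h4, y, h5, h6⟩ := hk₀ k hk N hnd
    refine ⟨S', fun z hz => h2 z ((h0 z).2 hz), fun z hz => h3 z ((h1 z).2 hz),
      List.replicate n true, by rw [List.length_replicate]; exact hN, ?_⟩
    have h10 := mem_lang_iff hL h4 h5 h6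
    have h11 : phi O (Sum.inl M) k T S' n = decide (M.out (join (join O T) S')
      (inp k (List.replicate n true)) = some [true]) := rfl
    rw [h11, decide_eq_false_iff_not] at h10
    tauto
  · rintro ⟨F, hF, hF0, hF1⟩
    obtain ⟨M, hM⟩ := isFP_unpad hF
    obtain ⟨k₀, hk₀⟩ := hR (Sum.inr M)
    obtain ⟨n, S', _, h2, h3, h4, y, h5, h6⟩ := hk₀ k₀ le_rfl 0 hnd
    have h10 := mem_lang_iff hL h4 h5 h6
    have h11 : phi O (Sum.inr M) k₀ T S' n = S' (F (List.replicate n true)) := by
      show phiM O M k₀ T S' n = _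
      unfold phiM
      rw [hM]
    rw [h11] at h10
    by_cases h12 : S' (F (List.replicate n true)) = false
    · have := h2 _ ((h0 _).2 (hF0 _ (h10.2 h12)))
      rw [h12] at this
      exact absurd this (by simp)
    · exact h12 (h3 _ ((h1 _).2 (hF1 _ fun h => h12 (h10.1 h))))

open Classical in
theorem part_up {O T : Oracle} {V : Alg} {p : Polynomial ℕ} {j : ℕ}
    (hR : ∀ M, ∃ k₀, ∀ k ≥ k₀, ∀ N, T ∈ rqU O V p j M k N) (hL : Lev T j (AlP j))
    {K : Set (List Bool)} (h0 : ∀ x, Wit V p x (join O T) ↔ x ∈ K) :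
    (∀ M : Alg, ∃ k₀, ∀ k ≥ k₀, ∀ N, ∃ x : List Bool, N ≤ x.length ∧
      ¬ (M.out (join (join O T) (fun z => decide (z ∈ K))) (inp k x) = some [true] ↔
        x ∈ lang T j)) ∧ ¬ Red (join O T) (lang T j) K := by
  have hS : (fun z => decide (Wit V p z (join O T))) = fun z => decide (z ∈ K) := by
    funext z
    exact decide_eq_decide.2 (h0 z)
  constructor
  · intro M
    obtain ⟨k₀, hk₀⟩ := hR (Sum.inl M)
    refine ⟨k₀, fun k hk N => ?_⟩
    obtain ⟨n, hN, h4, y, h5, h6⟩ := hk₀ k hk N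
    rw [hS] at h6
    refine ⟨List.replicate n true, by rw [List.length_replicate]; exact hN, ?_⟩
    have h10 := mem_lang_iff hL h4 h5 h6
    have h11 : phi O (Sum.inl M) k T (fun z => decide (z ∈ K)) n =
        decide (M.out (join (join O T) (fun z => decide (z ∈ K)))
          (inp k (List.replicate n true)) = some [true]) := rfl
    rw [h11, decide_eq_false_iff_not] at h10
    tauto
  · rintro ⟨F, hF', hF⟩
    obtain ⟨M, hM⟩ := isFP_unpad hF'
    obtain ⟨k₀, hk₀⟩ := hR (Sum.inr M)
    obtain ⟨n, _, h4, y, h5, h6⟩ := hk₀ k₀ le_rfl 0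
    rw [hS] at h6
    have h10 := mem_lang_iff hL h4 h5 h6
    have h11 : phi O (Sum.inr M) k₀ T (fun z => decide (z ∈ K)) n =
        decide (F (List.replicate n true) ∈ K) := by
      show phiM O M k₀ T _ n = _
      unfold phiM
      rw [hM]
    rw [h11, decide_eq_false_iff_not, hF] at h10
    tauto

theorem part_taut {O T : Oracle} {NP NF : Alg} {j e : ℕ}
    (hR : ∀ k, T ∈ rqT O NP NF j e k)
    (hL : ∀ n (y : List Bool), y.length = n → T (pos j 3 y) = false)
    {L : Set (List Bool)} {P F : List Bool → List Bool}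
    (hP : IsProofSystem (join O T) L P) (hNP : ∀ x, NP.out (join O T) x = some (P x))
    (hNF : ∀ x, NF.out (join O T) x = some (F x))
    (hF : ∀ x, x ∈ (univ' T 3)ᶜ ↔ F x ∈ L) :
    ∃ Q, IsProofSystem (join O T) L Q ∧ ∃ k : ℕ, ∀ N, ∃ w : List Bool, N ≤ w.length ∧
      ∀ v, P v = Q w → 2 ^ w.length ≤ v.length ^ k := by
  have hcode : ∀ n, F (code n j) ∈ L := by
    intro n
    rw [← hF, Set.mem_compl_iff, mem_univ'_code]
    rintro ⟨y, h1, h2⟩
    rw [hL n y h1] at h2
    exact absurd h2 (by simp)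
  have hc : IsFP (join O T) (fun u => code u.length j) :=
    IsFP.of_poly (p_code (UPoly.length Poly.id) (UPoly.const j))
  refine ⟨addSys F P (fun u => code u.length j), ⟨addSys_isFP ⟨NF, hNF⟩ hP.1 hc, ?_⟩, e + 1,
    fun N => ?_⟩
  · ext x
    constructor
    · rintro ⟨y, rfl⟩
      unfold addSys
      split_ifs with h
      · exact hcode _
      · rw [← hP.2]
        exact ⟨_, rfl⟩
    · intro hx
      rw [← hP.2] at hx
      obtain ⟨v, hv⟩ := hx
      refine ⟨false :: v, ?_⟩
      unfold addSys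
      rw [if_neg (by simp), List.tail_cons, hv]
  · obtain ⟨n, hn, h1⟩ := hR N
    refine ⟨true :: List.replicate n true, ?_, fun v hv => ?_⟩
    · rw [List.length_cons, List.length_replicate]; omega
    · rw [addSys_true, List.length_replicate] at hv
      rw [List.length_cons, List.length_replicate]
      have h2 : ¬ v.length ^ e ≤ 2 ^ n := by
        intro h3
        exact h1 v h3 (F (code n j)) (hNF _) (by rw [hNP, hv])
      rw [not_le] at h2
      have h3 : 2 ≤ v.length := by
        by_contra hcon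
        have h4 : v.length ≤ 1 := by omega
        have h5 : v.length ^ e ≤ 1 ^ e := Nat.pow_le_pow_left h4 e
        rw [one_pow] at h5
        have h6 : 0 < 2 ^ n := Nat.two_pow_pos n
        omega
      calc 2 ^ (n + 1) = 2 ^ n * 2 := pow_succ _ _
        _ ≤ v.length ^ e * v.length := Nat.mul_le_mul h2.le h3
        _ = v.length ^ (e + 1) := (pow_succ _ _).symm

/-- the selection of the new proof system -/
def selS (z : List Bool) : List Bool :=
  if (unpair z).1.head? = some true ∧ (unpair (unpair z).2).1 = [true] then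
    (unpair (unpair (unpair z).2).2).1 else (unpair (unpair (unpair z).2).2).2

theorem poly_selS : Poly selS := by
  have h1 : Poly (fun z : List Bool => unpair z) := poly_unpair
  have h2 : Poly (fun z : List Bool => unpair (unpair z).2) := poly_unpair.comp (Poly.snd h1)
  have h3 : Poly (fun z : List Bool => unpair (unpair (unpair z).2).2) :=
    poly_unpair.comp (Poly.snd h2)
  refine (Poly.ite (p := fun z : List Bool => ((decide ((unpair z).1.head? = some true)) &&
    decide ((unpair (unpair z).2).1 = [true])) = true) (Poly.decide_eq (Poly.and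
    (Poly.decide_eq (Poly.head? (Poly.fst h1)) (NPC.Poly.const _))
    (Poly.decide_eq (Poly.fst h2) (NPC.Poly.const _))) (NPC.Poly.const true))
    (Poly.fst h3) (Poly.snd h3)).congr fun z => ?_
  unfold selS
  simp only [Bool.and_eq_true, decide_eq_true_eq]

theorem part_sat {O T : Oracle} {NP NF : Alg} {j : ℕ}
    (hR : ∀ h, ∃ k₀, ∀ k ≥ k₀, ∀ N, T ∈ rqS O NP NF j h k N)
    (hL : ∀ n, T (mk5 j n) = true → ∃ y : List Bool, y.length = n ∧ T (pos j 4 y) = true)
    {L : Set (List Bool)} {P F : List Bool → List Bool}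
    (hP : IsProofSystem (join O T) L P) (hNP : ∀ x, NP.out (join O T) x = some (P x))
    (hNF : ∀ x, NF.out (join O T) x = some (F x))
    (hF : ∀ x, x ∈ univ' T 4 ↔ F x ∈ L) :
    ¬ IsPOptimal (join O T) L P ∧ ∃ Q, IsProofSystem (join O T) L Q ∧
      ∀ h : Alg, ∃ k₀, ∀ k ≥ k₀, ∀ N, ∃ w : List Bool, N ≤ w.length ∧
        ¬ ∃ v, h.out (join O T) (inp k w) = some v ∧ P v = Q w := by
  have hcode : ∀ n, T (mk5 j n) = true → F (code n j) ∈ L := by
    intro n hn
    rw [← hF, mem_univ'_code]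
    exact hL n hn
  have hc : IsFP (join O T) (fun w => F (code w.tail.length j)) :=
    IsFP.comp (F := fun w : List Bool => code w.tail.length j) (G := F) ⟨NF, hNF⟩
      (IsFP.of_poly (p_code (UPoly.length (Poly.tail Poly.id)) (UPoly.const j)))
  have hp : IsFP (join O T) (fun w => P w.tail) :=
    IsFP.comp (F := fun w : List Bool => w.tail) (G := P) hP.1 (IsFP.of_poly (Poly.tail Poly.id))
  have hb : IsFP (join O T) (fun w => [T (mk5 j w.tail.length)]) := by
    have := IsFP.tt (A := join O T) (Q := fun w : List Bool => [true :: mk5 j w.tail.length])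
      (H := fun q => q.2) (Poly.cons (Poly.cons (NPC.Poly.const true)
        (p_pos' j 5 (p_replicate (UPoly.length (Poly.tail Poly.id)) true))) (NPC.Poly.const []))
      (Poly.snd Poly.id)
    exact this
  have hq : IsFP (join O T) (fun w => selS (pairBits w (pairBits [T (mk5 j w.tail.length)]
      (pairBits (F (code w.tail.length j)) (P w.tail))))) :=
    IsFP.comp (G := selS) (IsFP.of_poly poly_selS)
      (IsFP.pair (IsFP.of_poly Poly.id) (IsFP.pair hb (IsFP.pair hc hp)))
  set Q : List Bool → List Bool := fun w => selS (pairBits w (pairBits [T (mk5 j w.tail.length)]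
      (pairBits (F (code w.tail.length j)) (P w.tail)))) with hQ
  have hQ' : ∀ w, Q w = if w.head? = some true ∧ T (mk5 j w.tail.length) = true then
      F (code w.tail.length j) else P w.tail := by
    intro w
    rw [hQ]
    unfold selS
    simp only [unpair_pairBits, List.cons.injEq, and_true]
  have hQs : IsProofSystem (join O T) L Q := by
    refine ⟨hq, ?_⟩
    ext x
    constructor
    · rintro ⟨w, rfl⟩
      rw [hQ']
      split_ifs with h
      · exact hcode _ h.2
      · rw [← hP.2]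
        exact ⟨_, rfl⟩
    · intro hx
      rw [← hP.2] at hx
      obtain ⟨v, hv⟩ := hx
      exact ⟨false :: v, by rw [hQ', if_neg (by simp), List.tail_cons, hv]⟩
  have key : ∀ h : Alg, ∃ k₀, ∀ k ≥ k₀, ∀ N, ∃ w : List Bool, N ≤ w.length ∧
        ¬ ∃ v, h.out (join O T) (inp k w) = some v ∧ P v = Q w := by
    intro h
    obtain ⟨k₀, hk₀⟩ := hR h
    refine ⟨k₀, fun k hk N => ?_⟩
    obtain ⟨n, hN, h1, h2⟩ := hk₀ k hk N
    refine ⟨true :: List.replicate n true, by
      rw [List.length_cons, List.length_replicate]; omega, ?_⟩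
    rintro ⟨v, h3, h4⟩
    refine h2 ⟨v, F (code n j), h3, ?_, hNF _⟩
    rw [hNP, h4, hQ', if_pos]
    · rw [List.tail_cons, List.length_replicate]
    · rw [List.tail_cons, List.length_replicate]
      exact ⟨rfl, h1⟩
  refine ⟨fun hopt => ?_, Q, hQs, key⟩
  obtain ⟨g, hg, hgQ⟩ := hopt.2 Q hQs
  obtain ⟨M, hM⟩ := isFP_unpad hg
  obtain ⟨k₀, hk₀⟩ := key M
  obtain ⟨w, _, hw⟩ := hk₀ k₀ le_rfl 0
  exact hw ⟨g w, hM _ _, hgQ w⟩

end Pool.Agent.TH672.SD
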