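import Pool.Agent.TH672.SD.Loc

/-!
# One stage for a candidate pair
-/

set_option autoImplicit false

namespace Pool.Agent.TH672.SD

open Filter Pool.Agent.NPC Pool.Agent.H628R3.RO Pool.Agent.W900.SP

/-- the marker of the label `j` and the size `n` -/
def mk (j n : ℕ) : List Bool := pos j 2 (List.replicate n true)

/-- the possible secrets of kind `k` -/
def secs (j n k : ℕ) : Finset (List Bool) :=
  (Finset.univ : Finset (Fin n → Bool)).image (fun v => pos j k (List.ofFn v))

theorem mem_secs {j n k : ℕ} {x : List Bool} :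
    x ∈ secs j n k ↔ ∃ y : List Bool, y.length = n ∧ x = pos j k y := by
  unfold secs
  rw [Finset.mem_image]
  constructor
  · rintro ⟨v, _, rfl⟩
    exact ⟨_, List.length_ofFn, rfl⟩
  · rintro ⟨y, rfl, rfl⟩
    exact ⟨y.get, Finset.mem_univ _, by rw [List.ofFn_get]⟩

theorem card_secs (j n k : ℕ) : (secs j n k).card = 2 ^ n := by
  unfold secs
  rw [Finset.card_image_of_injective]
  · simp
  · intro v v' h
    exact List.ofFn_injective (pos_inj h).2.2

theorem mem_Lv_of_secs {j n k : ℕ} {x : List Bool} (h : x ∈ secs j n k) : x ∈ Lv j n := by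
  obtain ⟨y, h1, h2⟩ := mem_secs.1 h
  exact ⟨k, y, h1, h2⟩

theorem mk_mem_Lv (j n : ℕ) : mk j n ∈ Lv j n := ⟨2, _, List.length_replicate, rfl⟩

theorem ofF_two (S : Finset (List Bool)) (m s : List Bool) :
    ofF (S ∪ {m, s}) = add (add (ofF S) m) s := by
  rw [← ofF_insert, ← ofF_insert]
  congr 1
  ext x
  simp only [Finset.mem_union, Finset.mem_insert, Finset.mem_singleton]
  tauto

theorem ofF_three (S : Finset (List Bool)) (m s s' : List Bool) :
    ofF (S ∪ {m, s, s'}) = add (add (add (ofF S) m) s) s' := by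
  rw [← ofF_insert, ← ofF_insert, ← ofF_insert]
  congr 1
  ext x
  simp only [Finset.mem_union, Finset.mem_insert, Finset.mem_singleton]
  tauto

/-- the candidate is not a disjoint pair -/
def deadP (O : Oracle) (V : Bool → Alg) (p : Bool → Polynomial ℕ) : Set Oracle :=
  {T | ∃ z, Wit (V false) (p false) z (join O T) ∧ Wit (V true) (p true) z (join O T)}

/-- the reduction `M` with the pads of length `2 ^ (n / k)` fails for some size `n ≥ N` -/
def rqP (O : Oracle) (V : Bool → Alg) (p : Bool → Polynomial ℕ) (j : ℕ) (M : Alg ⊕ Alg)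
    (k N : ℕ) : Set Oracle :=
  {T | T ∉ deadP O V p → ∃ (n : ℕ) (S' : Oracle), N ≤ n ∧
    (∀ z, Wit (V false) (p false) z (join O T) → S' z = true) ∧
    (∀ z, Wit (V true) (p true) z (join O T) → S' z = false) ∧
    T (mk j n) = true ∧
    ∃ y : List Bool, y.length = n ∧ T (pos j (phi O M k T S' n).toNat y) = true}

/-- the level sets of living candidates -/
def AlP (j n : ℕ) (E : Finset (List Bool)) : Prop :=
  ∃ (b : Bool) (y : List Bool), y.length = n ∧ E = {mk j n, pos j b.toNat y}

/-- the level sets of dead candidates -/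
def WkP (j n : ℕ) (E : Finset (List Bool)) : Prop :=
  ∀ x ∈ E, ∃ k ≤ 2, ∃ y : List Bool, y.length = n ∧ x = pos j k y

theorem stageP (O : Oracle) (V : Bool → Alg) (p : Bool → Polynomial ℕ) (M : Alg ⊕ Alg) :
    ∃ k0, ∀ k ≥ k0, ∀ (j N : ℕ) (S : Finset (List Bool)) (n0 : ℕ),
    ∃ (n : ℕ) (E : Finset (List Bool)) (b : ℕ), n0 ≤ n ∧ (∀ x ∈ E, x ∈ Lv j n) ∧
      E.card ≤ 3 ∧ ((AlP j n E ∧ ∀ T, Ag b (S ∪ E) T → T ∈ rqP O V p j M k N) ∨
        (WkP j n E ∧ ∀ T, Ag b (S ∪ E) T → T ∈ deadP O V p)) := by
  classical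
  obtain ⟨c0, hc0⟩ := wit_cert (V false) (p false)
  obtain ⟨c1, hc1⟩ := wit_cert (V true) (p true)
  obtain ⟨k0, hk0⟩ := few_size O M (c0 + c1)
  refine ⟨k0, fun k hk j N S n0' => ?_⟩
  obtain ⟨pf, qb, hf, hsz⟩ := hk0 k hk
  obtain ⟨n, hnn, hn⟩ := hsz (max n0' N)
  have hn0 : n0' ≤ n := (le_max_left _ _).trans hnn
  have hnN : N ≤ n := (le_max_right _ _).trans hnn
  set C : ℕ := (c0 + c1).eval (qb n) with hC
  set K : ℕ := (C + 1) * C + 1 with hK
  set T1 : Oracle := add (ofF S) (mk j n) with hT1
  set Sec : Finset (List Bool) := secs j n 0 ∪ secs j n 1 with hSec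
  have hSecL : ∀ s ∈ Sec, ∃ k ≤ 2, ∃ y : List Bool, y.length = n ∧ s = pos j k y := by
    intro s hs
    rcases Finset.mem_union.1 hs with h | h
    · obtain ⟨y, h1, h2⟩ := mem_secs.1 h
      exact ⟨0, by omega, y, h1, h2⟩
    · obtain ⟨y, h1, h2⟩ := mem_secs.1 h
      exact ⟨1, by omega, y, h1, h2⟩
  set In0 : List Bool → Finset (List Bool) := fun z =>
    Sec.filter (fun s => Wit (V false) (p false) z (join O (add T1 s))) with hIn0
  set In1 : List Bool → Finset (List Bool) := fun z =>
    Sec.filter (fun s => Wit (V true) (p true) z (join O (add T1 s))) with hIn1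
  have hcC0 : ∀ z : List Bool, z.length ≤ qb n → c0.eval z.length ≤ C := by
    intro z hz
    have := eval_mono c0 hz
    rw [hC, Polynomial.eval_add]; omega
  have hcC1 : ∀ z : List Bool, z.length ≤ qb n → c1.eval z.length ≤ C := by
    intro z hz
    have := eval_mono c1 hz
    rw [hC, Polynomial.eval_add]; omega
  obtain ⟨b0, hb0⟩ := wit_short (V false) (p false) (qb n)
  obtain ⟨b1, hb1⟩ := wit_short (V true) (p true) (qb n)
  by_cases hkill : ∃ z : List Bool, z.length ≤ qb n ∧ K ≤ (In0 z).card ∧ K ≤ (In1 z).card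
  · obtain ⟨z, hz, h0, h1⟩ := hkill
    have hq0 : ∀ s, ∃ Q : Finset (List Bool), s ∈ In0 z → Q.card ≤ C ∧
        ∀ T' : Oracle, (∀ q ∈ Q, T' q = add T1 s q) → Wit (V false) (p false) z (join O T') := by
      intro s
      by_cases hs : s ∈ In0 z
      · obtain ⟨Q, h2, h3⟩ := hc0 O (add T1 s) z (Finset.mem_filter.1 hs).2
        exact ⟨Q, fun _ => ⟨h2.trans (hcC0 z hz), h3⟩⟩
      · exact ⟨∅, fun h => absurd h hs⟩
    have hq1 : ∀ s, ∃ Q : Finset (List Bool), s ∈ In1 z → Q.card ≤ C ∧
        ∀ T' : Oracle, (∀ q ∈ Q, T' q = add T1 s q) → Wit (V true) (p true) z (join O T') := by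
      intro s
      by_cases hs : s ∈ In1 z
      · obtain ⟨Q, h2, h3⟩ := hc1 O (add T1 s) z (Finset.mem_filter.1 hs).2
        exact ⟨Q, fun _ => ⟨h2.trans (hcC1 z hz), h3⟩⟩
      · exact ⟨∅, fun h => absurd h hs⟩
    choose q0 hq0 using hq0
    choose q1 hq1 using hq1
    obtain ⟨s, hs, s', hs', h2, h3⟩ := two (c := C) (In0 z) (In1 z) q0 q1
      (fun s hs => (hq0 s hs).1) (fun s hs => (hq1 s hs).1) (by nlinarith) h1
    refine ⟨n, {mk j n, s, s'}, max b0 b1, hn0, ?_, Finset.card_le_three, Or.inr ⟨?_, ?_⟩⟩
    · intro x hx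
      simp only [Finset.mem_insert, Finset.mem_singleton] at hx
      rcases hx with rfl | rfl | rfl
      · exact mk_mem_Lv j n
      · obtain ⟨k, _, y, hy, rfl⟩ := hSecL _ (Finset.mem_filter.1 hs).1
        exact ⟨k, y, hy, rfl⟩
      · obtain ⟨k, _, y, hy, rfl⟩ := hSecL _ (Finset.mem_filter.1 hs').1
        exact ⟨k, y, hy, rfl⟩
    · intro x hx
      simp only [Finset.mem_insert, Finset.mem_singleton] at hx
      rcases hx with rfl | rfl | rfl
      · exact ⟨2, le_rfl, _, List.length_replicate, rfl⟩
      · exact hSecL _ (Finset.mem_filter.1 hs).1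
      · exact hSecL _ (Finset.mem_filter.1 hs').1
    · intro T hT
      have hT' : ∀ q : List Bool, q.length < max b0 b1 → T q = add (add T1 s) s' q := by
        intro q hq
        rw [hT q hq, ofF_three]
      refine ⟨z, ?_, ?_⟩
      · rw [hb0 O (add (add T1 s) s') T z hz fun q hq =>
          hT' q (lt_of_lt_of_le hq (le_max_left _ _))]
        exact (hq0 s hs).2 _ (add_add h2)
      · rw [hb1 O (add (add T1 s) s') T z hz fun q hq =>
          hT' q (lt_of_lt_of_le hq (le_max_right _ _))]
        rw [add_comm]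
        exact (hq1 s' hs').2 _ (add_add h3)
  · push Not at hkill
    set ans : Oracle := fun z => decide (K ≤ (In0 z).card) with hans
    obtain ⟨Q1, Q2, h1, h2, h3, h4, h5⟩ := hf T1 ans n
    set o : Bool := phi O M k T1 ans n with ho
    set Bad : Finset (List Bool) := Q1 ∪ Q2.biUnion (fun z => if ans z = true then In1 z else In0 z)
      with hBad
    have hBadc : Bad.card < (secs j n o.toNat).card := by
      rw [card_secs]
      have h6 : (Q2.biUnion (fun z => if ans z = true then In1 z else In0 z)).card ≤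
          Q2.card * K := by
        refine Finset.card_biUnion_le_card_mul _ _ _ fun z hz => ?_
        have h7 := hkill z (h4 z hz)
        by_cases h8 : K ≤ (In0 z).card
        · rw [if_pos (by rw [hans]; exact decide_eq_true h8)]
          exact (h7 h8).le
        · rw [if_neg (by rw [hans]; simpa using h8)]
          omega
      have h7 : Q2.card * K ≤ pf n * K := Nat.mul_le_mul_right _ h2
      have h8 : Bad.card ≤ Q1.card +
          (Q2.biUnion (fun z => if ans z = true then In1 z else In0 z)).card :=
        Finset.card_union_le _ _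
      omega
    obtain ⟨s, hs, hsB⟩ := Finset.exists_mem_notMem_of_card_lt_card hBadc
    obtain ⟨y, hy, hsy⟩ := mem_secs.1 hs
    have hsSec : s ∈ Sec := by
      rw [hSec, Finset.mem_union]
      cases ho2 : o with
      | false => left; rw [ho2] at hs; exact hs
      | true => right; rw [ho2] at hs; exact hs
    refine ⟨n, {mk j n, s}, max (max b0 b1) (max (qb n + 1) (max ((mk j n).length + 1)
      (s.length + 1))), hn0, ?_, Finset.card_le_two.trans (by norm_num), Or.inl ⟨?_, ?_⟩⟩
    · intro x hx
      simp only [Finset.mem_insert, Finset.mem_singleton] at hx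
      rcases hx with rfl | rfl
      · exact mk_mem_Lv j n
      · exact mem_Lv_of_secs hs
    · exact ⟨o, y, hy, by rw [hsy]⟩
    · intro T hT hd
      have hT0 : ∀ q : List Bool, q.length < max (max b0 b1) (max (qb n + 1)
          (max ((mk j n).length + 1) (s.length + 1))) → T q = add T1 s q := by
        intro q hq
        rw [hT q hq, ofF_two]
      have hw0 : ∀ z : List Bool, z.length ≤ qb n →
          (Wit (V false) (p false) z (join O T) ↔ Wit (V false) (p false) z (join O (add T1 s))) :=
        fun z hz => hb0 O (add T1 s) T z hz fun q hq => hT0 q (lt_of_lt_of_le hq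
          ((le_max_left _ _).trans (le_max_left _ _)))
      have hw1 : ∀ z : List Bool, z.length ≤ qb n →
          (Wit (V true) (p true) z (join O T) ↔ Wit (V true) (p true) z (join O (add T1 s))) :=
        fun z hz => hb1 O (add T1 s) T z hz fun q hq => hT0 q (lt_of_lt_of_le hq
          ((le_max_right _ _).trans (le_max_left _ _)))
      set S' : Oracle := fun z => if z ∈ Q2 then ans z else
        decide (Wit (V false) (p false) z (join O T)) with hS'
      have hphi : phi O M k T S' n = o := by
        rw [ho]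
        refine h5 T S' (fun q hq => ?_) (fun q hq => ?_)
        · rw [hT0 q]
          · exact add_ne fun h => hsB (Finset.mem_union_left _ (h ▸ hq))
          · have := h3 q hq
            simp only [lt_max_iff]; omega
        · rw [hS']; exact if_pos hq
      refine ⟨n, S', hnN, fun z hz => ?_, fun z hz => ?_, ?_, y, hy, ?_⟩
      · rw [hS']
        show (if z ∈ Q2 then ans z else decide (Wit (V false) (p false) z (join O T))) = true
        split_ifs with h
        · by_contra hcon
          have h6 : s ∈ In0 z := Finset.mem_filter.2 ⟨hsSec, (hw0 z (h4 z h)).1 hz⟩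
          refine hsB (Finset.mem_union_right _ (Finset.mem_biUnion.2 ⟨z, h, ?_⟩))
          rw [if_neg hcon]
          exact h6
        · exact decide_eq_true hz
      · rw [hS']
        show (if z ∈ Q2 then ans z else decide (Wit (V false) (p false) z (join O T))) = false
        split_ifs with h
        · by_contra hcon
          rw [Bool.not_eq_false] at hcon
          have h6 : s ∈ In1 z := Finset.mem_filter.2 ⟨hsSec, (hw1 z (h4 z h)).1 hz⟩
          refine hsB (Finset.mem_union_right _ (Finset.mem_biUnion.2 ⟨z, h, ?_⟩))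
          rw [if_pos hcon]
          exact h6
        · exact decide_eq_false fun h7 => hd ⟨z, h7, hz⟩
      · rw [hT0 _ (by simp only [lt_max_iff]; omega)]
        unfold add
        split_ifs
        · rfl
        · exact add_self
      · rw [hphi, ← hsy, hT0 _ (by simp only [lt_max_iff]; omega)]
        exact add_self

end Pool.Agent.TH672.SD
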