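import Pool.Agent.TH672.SD.Thr
import Pool.Agent.TH672.SD.Lang

/-!
# Very few strings destroy the separation properties of `NP` and `coNP`
-/

set_option autoImplicit false

namespace Pool.Agent.TH672.SD

open Pool.Agent.NPC Pool.Agent.H628R3.RO Pool.Agent.W900.SP
open Pool.Agent.H628R3.RO.G2 (ver ver_iff ver_isFP)
open Filter (Tendsto atTop)

/-- there is a string of the side `b` -/
def Sd (T : Oracle) (j : ℕ) (b : Bool) (n : ℕ) : Prop :=
  ∃ y : List Bool, y.length = n ∧ T (pos j b.toNat y) = true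

def rq1 (O : Oracle) (V : Bool → Alg) (p : Bool → Polynomial ℕ) (u : ℕ → List Bool) (j : ℕ) :
    Set Oracle :=
  {T | ∃ n, ¬ ((Wit (V false) (p false) (u n) (join O T) ↔
    ¬ Wit (V true) (p true) (u n) (join O T)) ∧
    ∀ b, Sd T j b n → Wit (V b) (p b) (u n) (join O T))}

def rq2 (O : Oracle) (V : Bool → Alg) (p : Bool → Polynomial ℕ) (u : ℕ → List Bool) (j : ℕ) :
    Set Oracle :=
  {T | ∃ n, ¬ ((Wit (V false) (p false) (u n) (join O T) ↔
    ¬ Wit (V true) (p true) (u n) (join O T)) ∧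
    ∀ b, T (mk j n) = true → ¬ Sd T j b n → Wit (V b) (p b) (u n) (join O T))}

def Al1 (j n : ℕ) (E : Finset (List Bool)) : Prop :=
  E = ∅ ∨ ∃ (b : Bool) (y : List Bool), y.length = n ∧ E = {pos j b.toNat y}

def Al2 (j n : ℕ) (E : Finset (List Bool)) : Prop :=
  (∃ (b : Bool) (y : List Bool), y.length = n ∧ E = {mk j n, pos j b.toNat y}) ∨
    ∃ y y' : List Bool, y.length = n ∧ y'.length = n ∧ E = {mk j n, pos j 0 y, pos j 1 y'}

/-- the candidates have short certificates, and `n` may be chosen large -/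
structure Cf (V : Bool → Alg) (p : Bool → Polynomial ℕ) (u : ℕ → List Bool) : Prop where
  ex : ∃ c : ℕ → ℕ, (∀ (b : Bool) (O T : Oracle) (n : ℕ), Wit (V b) (p b) (u n) (join O T) →
    ∃ Q : Finset (List Bool), Q.card ≤ c n ∧ ∀ T' : Oracle, (∀ q ∈ Q, T' q = T q) →
      Wit (V b) (p b) (u n) (join O T')) ∧
    ∀ n0, ∃ n ≥ n0, (c n + 1) * c n + 1 ≤ 2 ^ n

theorem stage1 (O : Oracle) (V : Bool → Alg) (p : Bool → Polynomial ℕ) (u : ℕ → List Bool)
    (hC : Cf V p u) (j : ℕ) (S : Finset (List Bool)) (n0 : ℕ) :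
    ∃ (n : ℕ) (E : Finset (List Bool)) (b : ℕ), n0 ≤ n ∧ (∀ x ∈ E, x ∈ Lv j n) ∧
      E.card ≤ 3 ∧ Al1 j n E ∧ ∀ T, Ag b (S ∪ E) T → T ∈ rq1 O V p u j := by
  classical
  obtain ⟨c, hc, hsz⟩ := hC.ex
  obtain ⟨n, hn, hn2⟩ := hsz n0
  by_cases h : ∃ b, Wit (V b) (p b) (u n) (join O (ofF S))
  · obtain ⟨b, hb⟩ := h
    obtain ⟨Q, h1, h2⟩ := hc b O _ n hb
    obtain ⟨s, hs, hsQ⟩ := Finset.exists_mem_notMem_of_card_lt_card (s := Q)
      (t := secs j n (!b).toNat) (by rw [card_secs]; nlinarith)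
    obtain ⟨y, hy, hsy⟩ := mem_secs.1 hs
    refine ⟨n, {s}, (Q ∪ {s}).sup List.length + 1, hn, ?_, by simp,
      Or.inr ⟨!b, y, hy, by rw [hsy]⟩, fun T hT => ⟨n, ?_⟩⟩
    · intro x hx
      rw [Finset.mem_singleton] at hx
      rw [hx]
      exact mem_Lv_of_secs hs
    · have hT0 : ∀ q ∈ Q ∪ {s}, T q = add (ofF S) s q := by
        intro q hq
        rw [hT q (Nat.lt_succ_of_le (Finset.le_sup (f := List.length) hq)), ← ofF_insert,
          Finset.union_comm]
        rfl
      have hW : Wit (V b) (p b) (u n) (join O T) := by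
        refine h2 T fun q hq => ?_
        rw [hT0 q (Finset.mem_union_left _ hq)]
        exact add_ne fun h => hsQ (h ▸ hq)
      have hS : Sd T j (!b) n := by
        refine ⟨y, hy, ?_⟩
        rw [← hsy, hT0 s (Finset.mem_union_right _ (Finset.mem_singleton_self _))]
        exact add_self
      rintro ⟨h3, h4⟩
      have h5 := h4 _ hS
      cases b with
      | false => exact h3.1 hW h5
      | true => exact h3.1 h5 hW
  · push Not at h
    choose B hB using fun b => wit_short (V b) (p b) (u n).length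
    refine ⟨n, ∅, max (B false) (B true), hn, by simp, by simp, Or.inl rfl, fun T hT => ⟨n, ?_⟩⟩
    have h1 : ∀ b, ¬ Wit (V b) (p b) (u n) (join O T) := by
      intro b
      rw [hB b O (ofF S) T (u n) le_rfl fun q hq => ?_]
      · exact h b
      · rw [hT q ?_, Finset.union_empty]
        cases b with
        | false => exact lt_of_lt_of_le hq (le_max_left _ _)
        | true => exact lt_of_lt_of_le hq (le_max_right _ _)
    rintro ⟨h3, -⟩
    exact h1 false (h3.2 (h1 true))

theorem stage2 (O : Oracle) (V : Bool → Alg) (p : Bool → Polynomial ℕ) (u : ℕ → List Bool)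
    (hC : Cf V p u) (j : ℕ) (S : Finset (List Bool)) (n0 : ℕ) (hS : ∀ x ∈ S, x.length < n0) :
    ∃ (n : ℕ) (E : Finset (List Bool)) (b : ℕ), n0 ≤ n ∧ (∀ x ∈ E, x ∈ Lv j n) ∧
      E.card ≤ 3 ∧ Al2 j n E ∧ ∀ T, Ag b (S ∪ E) T → T ∈ rq2 O V p u j := by
  classical
  obtain ⟨c, hc, hsz⟩ := hC.ex
  obtain ⟨n, hn, hn2⟩ := hsz n0
  set T1 : Oracle := add (ofF S) (mk j n) with hT1
  by_cases h : ∃ (b : Bool) (y : List Bool), y.length = n ∧
      ¬ Wit (V b) (p b) (u n) (join O (add T1 (pos j (!b).toNat y)))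
  · obtain ⟨b, y, hy, hb⟩ := h
    obtain ⟨B, hB⟩ := wit_short (V b) (p b) (u n).length
    set s : List Bool := pos j (!b).toNat y with hs
    have hsL : s ∈ Lv j n := ⟨_, y, hy, rfl⟩
    refine ⟨n, {mk j n, s}, max B (max ((mk j n).length + 1)
      ((secs j n b.toNat).sup List.length + 1)), hn, ?_, Finset.card_le_two.trans (by norm_num),
      Or.inl ⟨!b, y, hy, rfl⟩, fun T hT => ⟨n, ?_⟩⟩
    · intro x hx
      simp only [Finset.mem_insert, Finset.mem_singleton] at hx
      rcases hx with rfl | rfl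
      · exact mk_mem_Lv j n
      · exact hsL
    · rintro ⟨-, h4⟩
      have hW : ¬ Wit (V b) (p b) (u n) (join O T) := by
        rw [hB O (add T1 s) T (u n) le_rfl fun q hq => ?_]
        · exact hb
        · rw [hT q (lt_of_lt_of_le hq (le_max_left _ _)), ofF_two]
      refine hW (h4 b ?_ ?_)
      · rw [hT _ (by simp only [lt_max_iff]; omega), ofF_two]
        by_cases e : mk j n = s
        · rw [e]; exact add_self
        · rw [add_ne e]; exact add_self
      · rintro ⟨y', hy', h5⟩
        have h6 : pos j b.toNat y' ∈ secs j n b.toNat := mem_secs.2 ⟨y', hy', rfl⟩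
        have h7 : (pos j b.toNat y').length ≤ (secs j n b.toNat).sup List.length :=
          Finset.le_sup (f := List.length) h6
        rw [hT _ (by simp only [lt_max_iff]; omega), ofF, decide_eq_true_eq, Finset.mem_union,
          Finset.mem_insert, Finset.mem_singleton] at h5
        rcases h5 with h5 | h5 | h5
        · have h8 := hS _ h5
          have h9 := lt_of_mem_Lv (mem_Lv_of_secs h6)
          omega
        · have h8 := (pos_kind h5).1
          have h9 := Bool.toNat_le b
          omega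
        · have h8 := (pos_kind h5).1
          cases b <;> simp at h8
  · push Not at h
    have h0 : ∀ s : List Bool, ∃ Q : Finset (List Bool), s ∈ secs j n 0 → Q.card ≤ c n ∧
        ∀ T' : Oracle, (∀ q ∈ Q, T' q = add T1 s q) → Wit (V true) (p true) (u n) (join O T') := by
      intro s
      by_cases hs : s ∈ secs j n 0
      · obtain ⟨y, hy, hsy⟩ := mem_secs.1 hs
        have := h true y hy
        obtain ⟨Q, h1, h2⟩ := hc true O _ n this
        exact ⟨Q, fun _ => ⟨h1, by rw [hsy]; exact h2⟩⟩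
      · exact ⟨∅, fun h => absurd h hs⟩
    have h1 : ∀ s : List Bool, ∃ Q : Finset (List Bool), s ∈ secs j n 1 → Q.card ≤ c n ∧
        ∀ T' : Oracle, (∀ q ∈ Q, T' q = add T1 s q) →
          Wit (V false) (p false) (u n) (join O T') := by
      intro s
      by_cases hs : s ∈ secs j n 1
      · obtain ⟨y, hy, hsy⟩ := mem_secs.1 hs
        have := h false y hy
        obtain ⟨Q, h1, h2⟩ := hc false O _ n this
        exact ⟨Q, fun _ => ⟨h1, by rw [hsy]; exact h2⟩⟩
      · exact ⟨∅, fun h => absurd h hs⟩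
    choose q0 hq0 using h0
    choose q1 hq1 using h1
    obtain ⟨s, hs, s', hs', h2, h3⟩ := two (c := c n) (secs j n 0) (secs j n 1) q0 q1
      (fun s hs => (hq0 s hs).1) (fun s hs => (hq1 s hs).1) (by rw [card_secs]; nlinarith)
      (by rw [card_secs]; exact hn2)
    obtain ⟨y, hy, hsy⟩ := mem_secs.1 hs
    obtain ⟨y', hy', hsy'⟩ := mem_secs.1 hs'
    refine ⟨n, {mk j n, s, s'}, (q0 s ∪ q1 s').sup List.length + 1, hn, ?_,
      Finset.card_le_three, Or.inr ⟨y, y', hy, hy', by rw [hsy, hsy']⟩, fun T hT => ⟨n, ?_⟩⟩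
    · intro x hx
      simp only [Finset.mem_insert, Finset.mem_singleton] at hx
      rcases hx with rfl | rfl | rfl
      · exact mk_mem_Lv j n
      · exact mem_Lv_of_secs hs
      · exact mem_Lv_of_secs hs'
    · have hT0 : ∀ q ∈ q0 s ∪ q1 s', T q = add (add T1 s) s' q := by
        intro q hq
        rw [hT q (Nat.lt_succ_of_le (Finset.le_sup (f := List.length) hq)), ofF_three]
      have hA : Wit (V true) (p true) (u n) (join O T) := by
        refine (hq0 s hs).2 T fun q hq => ?_
        rw [hT0 q (Finset.mem_union_left _ hq)]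
        exact add_add h2 q hq
      have hB : Wit (V false) (p false) (u n) (join O T) := by
        refine (hq1 s' hs').2 T fun q hq => ?_
        rw [hT0 q (Finset.mem_union_right _ hq), add_comm]
        exact add_add h3 q hq
      rintro ⟨h5, -⟩
      exact h5.1 hB hA

/-! ### the languages -/

/-- the inputs whose size has a string of the side `b` -/
def la1 (T : Oracle) (j : ℕ) (b : Bool) : Set (List Bool) := {x | Sd T j b x.length}

/-- the inputs whose size is marked and has no string of the side `b` -/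
def la2 (T : Oracle) (j : ℕ) (b : Bool) : Set (List Bool) :=
  {x | T (mk j x.length) = true ∧ ¬ Sd T j b x.length}

/-- all level sets are empty or of the right form -/
def Lev' (T : Oracle) (j : ℕ) (Al : ℕ → Finset (List Bool) → Prop) : Prop :=
  ∀ n, ∃ E : Finset (List Bool), (∀ x, x ∈ E ↔ x ∈ Lv j n ∧ T x = true) ∧ (E = ∅ ∨ Al n E)

theorem sd_uniq {T : Oracle} {j : ℕ} (h : Lev' T j (Al1 j) ∨ Lev' T j (Al2 j)) {b : Bool}
    {y y' : List Bool} (hy : y.length = y'.length) (h1 : T (pos j b.toNat y) = true)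
    (h2 : T (pos j b.toNat y') = true) : y = y' := by
  have key : ∀ E : Finset (List Bool), pos j b.toNat y ∈ E → pos j b.toNat y' ∈ E →
      (E = ∅ ∨ Al1 j y.length E ∨ Al2 j y.length E) → y = y' := by
    intro E h3 h4 h5
    have hb := Bool.toNat_le b
    rcases h5 with rfl | (rfl | ⟨b', w, _, rfl⟩) | ⟨b', w, _, rfl⟩ | ⟨w, w', _, _, rfl⟩
    · exact absurd h3 (Finset.notMem_empty _)
    · exact absurd h3 (Finset.notMem_empty _)
    · rw [Finset.mem_singleton] at h3 h4
      rw [(pos_kind h3).2, (pos_kind h4).2]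
    · simp only [Finset.mem_insert, Finset.mem_singleton] at h3 h4
      rcases h3 with h3 | h3
      · have := (pos_kind h3).1; omega
      · rcases h4 with h4 | h4
        · have := (pos_kind h4).1; omega
        · rw [(pos_kind h3).2, (pos_kind h4).2]
    · simp only [Finset.mem_insert, Finset.mem_singleton] at h3 h4
      rcases h3 with h3 | h3 | h3
      · have := (pos_kind h3).1; omega
      · rcases h4 with h4 | h4 | h4
        · have := (pos_kind h4).1; omega
        · rw [(pos_kind h3).2, (pos_kind h4).2]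
        · have e1 := (pos_kind h3).1
          have e2 := (pos_kind h4).1
          omega
      · rcases h4 with h4 | h4 | h4
        · have := (pos_kind h4).1; omega
        · have e1 := (pos_kind h3).1
          have e2 := (pos_kind h4).1
          omega
        · rw [(pos_kind h3).2, (pos_kind h4).2]
  rcases h with h | h
  · obtain ⟨E, h3, h4⟩ := h y.length
    exact key E ((h3 _).2 ⟨⟨_, y, rfl, rfl⟩, h1⟩) ((h3 _).2 ⟨⟨_, y', hy.symm, rfl⟩, h2⟩)
      (h4.imp id Or.inl)
  · obtain ⟨E, h3, h4⟩ := h y.length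
    exact key E ((h3 _).2 ⟨⟨_, y, rfl, rfl⟩, h1⟩) ((h3 _).2 ⟨⟨_, y', hy.symm, rfl⟩, h2⟩)
      (h4.imp id Or.inr)

theorem isUP_la1 {O T : Oracle} {j : ℕ} (h : Lev' T j (Al1 j)) (b : Bool) :
    IsUP (join O T) (la1 T j b) := by
  have hv : ∀ x w : List Bool, ver (join O T) (fun q => decide (q.2.length = q.1.length))
      (fun q => [true :: pos j b.toNat q.2]) (pairBits x w) = [true] ↔
      w.length = x.length ∧ T (pos j b.toNat w) = true := by
    intro x w
    rw [ver_iff, decide_eq_true_eq]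
    simp [join]
  refine ⟨ver (join O T) (fun q => decide (q.2.length = q.1.length))
      (fun q => [true :: pos j b.toNat q.2]), Polynomial.X,
      ver_isFP _ ?_ ?_, fun x => ?_, fun x w w' _ _ h1 h2 => ?_⟩
  · exact Poly.decide_eq (Poly.length (Poly.snd Poly.id)) (Poly.length (Poly.fst Poly.id))
  · exact Poly.cons (Poly.cons (NPC.Poly.const true) (p_pos' j b.toNat (Poly.snd Poly.id)))
      (NPC.Poly.const [])
  · constructor
    · rintro ⟨y, h2, h3⟩
      exact ⟨y, by rw [Polynomial.eval_X]; omega, (hv x y).2 ⟨h2, h3⟩⟩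
    · rintro ⟨w, _, h2⟩
      exact ⟨w, (hv x w).1 h2⟩
  · obtain ⟨h3, h4⟩ := (hv x w).1 h1
    obtain ⟨h3', h4'⟩ := (hv x w').1 h2
    exact sd_uniq (Or.inl h) (h3.trans h3'.symm) h4 h4'

theorem isUP_la2 {O T : Oracle} {j : ℕ} (h : Lev' T j (Al2 j)) (b : Bool) :
    IsUP (join O T) (la2 T j b)ᶜ := by
  have hv : ∀ x w : List Bool, coH (pairBits x w, [true :: mk j (unpair (pairBits x w)).1.length,
      true :: pos j b.toNat (unpair (pairBits x w)).2].map (join O T)) = [true] ↔
      ((T (mk j x.length) = true ∧ T (pos j b.toNat w) = true ∧ w.length = x.length) ∨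
        (T (mk j x.length) = false ∧ w = [])) := by
    intro x w
    unfold coH
    simp only [unpair_pairBits, List.map_cons, List.map_nil, join]
    cases h1 : T (mk j x.length) <;> cases h2 : T (pos j b.toNat w) <;> simp
  refine ⟨fun z => coH (z, [true :: mk j (unpair z).1.length,
      true :: pos j b.toNat (unpair z).2].map (join O T)), Polynomial.X,
      IsFP.tt (Q := fun z => [true :: mk j (unpair z).1.length, true :: pos j b.toNat (unpair z).2])
      (H := coH) ?_ ?_, fun x => ?_, fun x w w' _ _ h1 h2 => ?_⟩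
  · refine Poly.cons (Poly.cons (NPC.Poly.const true) ?_) (Poly.cons (Poly.cons
      (NPC.Poly.const true) ?_) (NPC.Poly.const []))
    · exact p_pos' j 2 (p_replicate (UPoly.length (Poly.fst poly_unpair)) true)
    · exact p_pos' j b.toNat (Poly.snd poly_unpair)
  · have h1 : Poly (fun q : List Bool × List Bool => q.2) := Poly.snd Poly.id
    have h2 : Poly (fun q : List Bool × List Bool => unpair q.1) :=
      poly_unpair.comp (Poly.fst Poly.id)
    refine Poly.ite (Poly.decide_eq h1 (NPC.Poly.const _)) ?_ ?_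
    · exact Poly.ite (Poly.decide_eq (Poly.length (Poly.snd h2)) (Poly.length (Poly.fst h2)))
        (NPC.Poly.const _) (NPC.Poly.const _)
    · refine Poly.ite (Poly.decide_eq (Poly.head? h1) (NPC.Poly.const _)) ?_ (NPC.Poly.const _)
      exact Poly.ite (Poly.decide_eq (Poly.snd h2) (NPC.Poly.const _))
        (NPC.Poly.const _) (NPC.Poly.const _)
  · have e : x ∈ (la2 T j b)ᶜ ↔ (T (mk j x.length) = false ∨ Sd T j b x.length) := by
      rw [Set.mem_compl_iff]
      show ¬ (T (mk j x.length) = true ∧ ¬ Sd T j b x.length) ↔ _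
      cases h3 : T (mk j x.length) <;> simp
    rw [e]
    constructor
    · intro h3
      cases h4 : T (mk j x.length) with
      | false => exact ⟨[], by simp, (hv x []).2 (Or.inr ⟨h4, rfl⟩)⟩
      | true =>
        rcases h3 with h3 | ⟨y, hy, h3⟩
        · rw [h4] at h3; exact absurd h3 (by simp)
        · exact ⟨y, by rw [Polynomial.eval_X]; omega, (hv x y).2 (Or.inl ⟨h4, h3, hy⟩)⟩
    · rintro ⟨w, _, h3⟩
      rcases (hv x w).1 h3 with h4 | h4
      · exact Or.inr ⟨w, h4.2.2, h4.2.1⟩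
      · exact Or.inl h4.1
  · rcases (hv x w).1 h1 with h3 | h3
    · rcases (hv x w').1 h2 with h4 | h4
      · exact sd_uniq (Or.inr h) (h3.2.2.trans h4.2.2.symm) h3.2.1 h4.2.1
      · rw [h3.1] at h4; exact absurd h4.1 (by simp)
    · rcases (hv x w').1 h2 with h4 | h4
      · rw [h4.1] at h3; exact absurd h3.1 (by simp)
      · rw [h3.2, h4.2]

theorem disj1 {T : Oracle} {j : ℕ} (h : Lev' T j (Al1 j)) (x : List Bool) :
    ¬ (x ∈ la1 T j false ∧ x ∈ la1 T j true) := by
  rintro ⟨⟨y, hy, h1⟩, ⟨y', hy', h2⟩⟩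
  obtain ⟨E, h3, h4⟩ := h x.length
  have h5 := (h3 _).2 ⟨⟨_, y, hy, rfl⟩, h1⟩
  have h6 := (h3 _).2 ⟨⟨_, y', hy', rfl⟩, h2⟩
  rcases h4 with rfl | rfl | ⟨b, w, _, rfl⟩
  · exact absurd h5 (Finset.notMem_empty _)
  · exact absurd h5 (Finset.notMem_empty _)
  · rw [Finset.mem_singleton] at h5 h6
    have e1 := (pos_kind h5).1
    have e2 := (pos_kind h6).1
    cases b <;> simp at e1 e2

theorem disj2 {T : Oracle} {j : ℕ} (h : Lev' T j (Al2 j)) (x : List Bool) :
    ¬ (x ∈ la2 T j false ∧ x ∈ la2 T j true) := by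
  rintro ⟨⟨h1, h2⟩, ⟨_, h3⟩⟩
  obtain ⟨E, h4, h5⟩ := h x.length
  have h6 := (h4 _).2 ⟨mk_mem_Lv j x.length, h1⟩
  rcases h5 with rfl | ⟨b, w, hw, rfl⟩ | ⟨w, w', hw, _, rfl⟩
  · exact absurd h6 (Finset.notMem_empty _)
  · have h7 := ((h4 (pos j b.toNat w)).1 (by simp)).2
    cases b with
    | false => exact h2 ⟨w, hw, h7⟩
    | true => exact h3 ⟨w, hw, h7⟩
  · have h7 := ((h4 (pos j 0 w)).1 (by simp)).2
    exact h2 ⟨w, hw, h7⟩

end Pool.Agent.TH672.SD
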