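import Pool.Agent.TH672.SD.Sp

/-!
# Very few strings destroy the separation properties: the theorem
-/

set_option autoImplicit false

namespace Pool.Agent.TH672.SD

open Pool.Agent.NPC Pool.Agent.H628R3.RO Pool.Agent.W900.SP
open Filter (Tendsto atTop)

theorem cf_cert (V : Bool → Alg) (p : Bool → Polynomial ℕ) : ∃ c : Polynomial ℕ,
    ∀ (b : Bool) (O T : Oracle) (x : List Bool), Wit (V b) (p b) x (join O T) →
    ∃ Q : Finset (List Bool), Q.card ≤ c.eval x.length ∧ ∀ T' : Oracle, (∀ q ∈ Q, T' q = T q) →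
      Wit (V b) (p b) x (join O T') := by
  choose c hc using fun b => wit_cert (V b) (p b)
  refine ⟨c false + c true, fun b O T x h => ?_⟩
  obtain ⟨Q, h1, h2⟩ := hc b O T x h
  refine ⟨Q, h1.trans ?_, h2⟩
  rw [Polynomial.eval_add]
  cases b <;> omega

theorem cf_pad (V : Bool → Alg) (p : Bool → Polynomial ℕ) : ∃ k0, ∀ k ≥ k0,
    Cf V p (fun n => inp k (List.replicate n true)) := by
  obtain ⟨c, hc⟩ := cf_cert V p
  obtain ⟨k0, hk0⟩ := pad_gap ((c + 1) * c + 1)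
  refine ⟨k0, fun k hk => ⟨fun n => c.eval (XX k n), fun b O T n h => ?_, fun n0 => ?_⟩⟩
  · obtain ⟨Q, h1, h2⟩ := hc b O T _ h
    rw [length_inp, List.length_replicate] at h1
    exact ⟨Q, h1, h2⟩
  · obtain ⟨n1, hn1⟩ := hk0 k hk
    refine ⟨max n0 n1, le_max_left _ _, ?_⟩
    have h1 := hn1 (max n0 n1) (le_max_right _ _)
    simp only [Polynomial.eval_add, Polynomial.eval_mul, Polynomial.eval_one] at h1
    show (c.eval (XX k (max n0 n1)) + 1) * c.eval (XX k (max n0 n1)) + 1 ≤ _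
    omega

theorem cf_plain (V : Bool → Alg) (p : Bool → Polynomial ℕ) :
    Cf V p (fun n => List.replicate n true) := by
  obtain ⟨c, hc⟩ := cf_cert V p
  obtain ⟨n1, hn1⟩ := poly_le_two_pow ((c + 1) * c + 1)
  refine ⟨fun n => c.eval n, fun b O T n h => ?_, fun n0 => ?_⟩
  · obtain ⟨Q, h1, h2⟩ := hc b O T _ h
    rw [List.length_replicate] at h1
    exact ⟨Q, h1, h2⟩
  · refine ⟨max n0 n1, le_max_left _ _, ?_⟩
    have h1 := hn1 (max n0 n1) (le_max_right _ _)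
    simp only [Polynomial.eval_add, Polynomial.eval_mul, Polynomial.eval_one] at h1
    exact h1

/-- `S` is accepted by the nondeterministic algorithm `(V, p)` on padded inputs -/
def Accp (A : Oracle) (V : Alg) (p : Polynomial ℕ) (k : ℕ) (S : Set (List Bool)) : Prop :=
  ∀ x, x ∈ S ↔ ∃ w : List Bool, w.length ≤ p.eval (inp k x).length ∧
    V.out A (pairBits (inp k x) w) = some [true]

/-- no separator in `NP ∩ coNP`, even with time `2 ^ o(n)` -/
def Insp (A : Oracle) (L₀ L₁ : Set (List Bool)) : Prop :=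
  (∀ S, L₀ ⊆ S → L₁ ⊆ Sᶜ → ¬ (IsNP A S ∧ IsNP A Sᶜ)) ∧
  ∀ (V₀ V₁ : Alg) (p₀ p₁ : Polynomial ℕ), ∃ k₀, ∀ k ≥ k₀, ∀ S, L₀ ⊆ S → L₁ ⊆ Sᶜ →
    ¬ (Accp A V₀ p₀ k S ∧ Accp A V₁ p₁ k Sᶜ)

theorem kill1 {O T : Oracle} {V : Bool → Alg} {p : Bool → Polynomial ℕ} {u : ℕ → List Bool}
    {j : ℕ} (hR : T ∈ rq1 O V p u j) {S : Set (List Bool)} (h0 : la1 T j false ⊆ S)
    (h1 : la1 T j true ⊆ Sᶜ)
    (hW0 : ∀ n, Wit (V false) (p false) (u n) (join O T) ↔ List.replicate n true ∈ S)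
    (hW1 : ∀ n, Wit (V true) (p true) (u n) (join O T) ↔ List.replicate n true ∈ Sᶜ) :
    False := by
  obtain ⟨n, hn⟩ := hR
  refine hn ⟨?_, fun b hb => ?_⟩
  · rw [hW0, hW1, Set.mem_compl_iff, not_not]
  · have hm : List.replicate n true ∈ la1 T j b := by
      show Sd T j b (List.replicate n true).length
      rw [List.length_replicate]
      exact hb
    cases b with
    | false => exact (hW0 n).2 (h0 hm)
    | true => exact (hW1 n).2 (h1 hm)

theorem kill2 {O T : Oracle} {V : Bool → Alg} {p : Bool → Polynomial ℕ} {u : ℕ → List Bool}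
    {j : ℕ} (hR : T ∈ rq2 O V p u j) {S : Set (List Bool)} (h0 : la2 T j false ⊆ S)
    (h1 : la2 T j true ⊆ Sᶜ)
    (hW0 : ∀ n, Wit (V false) (p false) (u n) (join O T) ↔ List.replicate n true ∈ S)
    (hW1 : ∀ n, Wit (V true) (p true) (u n) (join O T) ↔ List.replicate n true ∈ Sᶜ) :
    False := by
  obtain ⟨n, hn⟩ := hR
  refine hn ⟨?_, fun b hm hb => ?_⟩
  · rw [hW0, hW1, Set.mem_compl_iff, not_not]
  · have hm : List.replicate n true ∈ la2 T j b := by
      show T (mk j (List.replicate n true).length) = true ∧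
        ¬ Sd T j b (List.replicate n true).length
      rw [List.length_replicate]
      exact ⟨hm, hb⟩
    cases b with
    | false => exact (hW0 n).2 (h0 hm)
    | true => exact (hW1 n).2 (h1 hm)

abbrev TskS : Type := ((Bool → Alg) × (Bool → Polynomial ℕ)) × Option ℕ

def uu (κ : (Bool → Alg) × (Bool → Polynomial ℕ) → ℕ) (t : TskS) : ℕ → List Bool :=
  match t.2 with
  | none => fun n => List.replicate n true
  | some k => fun n => inp (κ t.1 + k) (List.replicate n true)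

/-- two of the candidates as one -/
def two' {α : Type} (a b : α) : Bool → α := fun i => bif i then b else a

theorem insp_of {O T : Oracle} {L₀ L₁ : Set (List Bool)}
    (κ : (Bool → Alg) × (Bool → Polynomial ℕ) → ℕ)
    (h : ∀ (t : TskS) (S : Set (List Bool)), L₀ ⊆ S → L₁ ⊆ Sᶜ →
      (∀ n, Wit (t.1.1 false) (t.1.2 false) (uu κ t n) (join O T) ↔ List.replicate n true ∈ S) →
      (∀ n, Wit (t.1.1 true) (t.1.2 true) (uu κ t n) (join O T) ↔ List.replicate n true ∈ Sᶜ) →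
      False) : Insp (join O T) L₀ L₁ := by
  constructor
  · rintro S h0 h1 ⟨⟨V0, p0, ⟨M0, hM0⟩, hV0⟩, ⟨V1, p1, ⟨M1, hM1⟩, hV1⟩⟩
    refine h ((two' M0 M1, two' p0 p1), none) S h0 h1 (fun n => ?_) (fun n => ?_)
    · rw [hV0]
      refine exists_congr fun y => and_congr_right fun _ => ?_
      show M0.out (join O T) (pairBits _ y) = some [true] ↔ _
      rw [hM0, Option.some.injEq]
      rfl
    · rw [hV1]
      refine exists_congr fun y => and_congr_right fun _ => ?_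
      show M1.out (join O T) (pairBits _ y) = some [true] ↔ _
      rw [hM1, Option.some.injEq]
      rfl
  · intro V0 V1 p0 p1
    refine ⟨κ (two' V0 V1, two' p0 p1), fun k hk S h0 h1 => ?_⟩
    rintro ⟨hA0, hA1⟩
    obtain ⟨k', rfl⟩ := Nat.exists_eq_add_of_le hk
    refine h ((two' V0 V1, two' p0 p1), some k') S h0 h1 (fun n => ?_) (fun n => ?_)
    · rw [hA0]; rfl
    · rw [hA1]; rfl

theorem mainS (O : Oracle) (g : ℕ → ℕ) (hg : Tendsto g atTop atTop) :
    ∃ T : Oracle, AtMost g T ∧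
      (∃ L₀ L₁, IsUP (join O T) L₀ ∧ IsUP (join O T) L₁ ∧ (∀ x, ¬ (x ∈ L₀ ∧ x ∈ L₁)) ∧
        Insp (join O T) L₀ L₁) ∧
      (∃ L₀ L₁, IsUP (join O T) L₀ᶜ ∧ IsUP (join O T) L₁ᶜ ∧ (∀ x, ¬ (x ∈ L₀ ∧ x ∈ L₁)) ∧
        Insp (join O T) L₀ L₁) := by
  classical
  have hcp := countable_poly
  have hne : Nonempty Alg := by
    obtain ⟨M, _⟩ := IsFP.of_poly (A := fun _ => false) (F := fun x => x) Poly.id
    exact ⟨M⟩
  choose κ hκ using fun c : (Bool → Alg) × (Bool → Polynomial ℕ) => cf_pad c.1 c.2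
  have hcf : ∀ t : TskS, Cf t.1.1 t.1.2 (uu κ t) := by
    rintro ⟨c, _ | k⟩
    · exact cf_plain c.1 c.2
    · exact hκ c _ (Nat.le_add_right _ _)
  obtain ⟨T, hT1, -, hT3⟩ := stages (ι := Bool) (κ := TskS) (fun _ => ∅)
    (fun i t => bif i then rq2 O t.1.1 t.1.2 (uu κ t) 1 else rq1 O t.1.1 t.1.2 (uu κ t) 0)
    (fun i n E => bif i then Al2 1 n E else Al1 0 n E) (fun _ _ _ => False) Bool.toNat
    (by intro a b h; cases a <;> cases b <;> simp_all) (by
      intro i t S n0 hS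
      cases i with
      | false =>
        obtain ⟨n, E, b, h1, h2, h3, h4, h5⟩ := stage1 O t.1.1 t.1.2 (uu κ t) (hcf t) 0 S n0
        exact ⟨n, E, b, h1, h2, h3, Or.inl ⟨h4, h5⟩⟩
      | true =>
        obtain ⟨n, E, b, h1, h2, h3, h4, h5⟩ :=
          stage2 O t.1.1 t.1.2 (uu κ t) (hcf t) 1 S n0 hS
        exact ⟨n, E, b, h1, h2, h3, Or.inl ⟨h4, h5⟩⟩) g hg
  refine ⟨T, hT1, ?_, ?_⟩
  · rcases (hT3 false).2 with h | ⟨h1, h2⟩
    · exact absurd h (Set.notMem_empty _)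
    have hL : Lev' T 0 (Al1 0) := h2
    refine ⟨la1 T 0 false, la1 T 0 true, isUP_la1 hL false, isUP_la1 hL true, disj1 hL,
      insp_of κ fun t S h3 h4 h5 h6 => ?_⟩
    have h7 : T ∈ rq1 O t.1.1 t.1.2 (uu κ t) 0 := h1 t
    exact kill1 h7 h3 h4 h5 h6
  · rcases (hT3 true).2 with h | ⟨h1, h2⟩
    · exact absurd h (Set.notMem_empty _)
    have hL : Lev' T 1 (Al2 1) := h2
    refine ⟨la2 T 1 false, la2 T 1 true, isUP_la2 hL false, isUP_la2 hL true, disj2 hL,
      insp_of κ fun t S h3 h4 h5 h6 => ?_⟩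
    have h7 : T ∈ rq2 O t.1.1 t.1.2 (uu κ t) 1 := h1 t
    exact kill2 h7 h3 h4 h5 h6

end Pool.Agent.TH672.SD
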