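import Pool.Agent.H628R3.RO.A1
import Pool.Agent.H628R3.RO.D1
import Pool.Agent.W900.SP.Defs

/-!
# Adding very few strings to an oracle: the general stage construction
-/

set_option autoImplicit false

namespace Pool.Agent.TH672.SD

open Filter Pool.Agent.NPC Pool.Agent.H628R3.RO Pool.Agent.W900.SP

/-- the oracle of a finite set -/
def ofF (S : Finset (List Bool)) : Oracle := fun x => decide (x ∈ S)

/-- `T` agrees with the finite set `S` on the strings shorter than `b` -/
def Ag (b : ℕ) (S : Finset (List Bool)) (T : Oracle) : Prop :=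
  ∀ x : List Bool, x.length < b → T x = ofF S x

/-- the strings which belong to the label `j` and the size `n` -/
def Lv (j n : ℕ) : Set (List Bool) := {x | ∃ (k : ℕ) (y : List Bool), y.length = n ∧ x = pos j k y}

theorem lt_of_mem_Lv {j n : ℕ} {x : List Bool} (h : x ∈ Lv j n) : n < x.length := by
  obtain ⟨k, y, rfl, rfl⟩ := h
  rw [length_pos]; omega

theorem eq_of_mem_Lv {j n j' n' : ℕ} {x : List Bool} (h : x ∈ Lv j n) (h' : x ∈ Lv j' n') :
    j = j' ∧ n = n' := by
  obtain ⟨k, y, rfl, rfl⟩ := h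
  obtain ⟨k', y', rfl, h2⟩ := h'
  obtain ⟨h3, _, h4⟩ := pos_inj h2
  exact ⟨h3, by rw [h4]⟩

theorem stages {ι κ : Type} [Countable ι] [Countable κ] [Nonempty ι] [Nonempty κ]
    (Dead : ι → Set Oracle) (Rq : ι → κ → Set Oracle)
    (Al Wk : ι → ℕ → Finset (List Bool) → Prop)
    (e : ι → ℕ) (he : Function.Injective e)
    (H : ∀ (i : ι) (k : κ) (S : Finset (List Bool)) (n0 : ℕ), (∀ x ∈ S, x.length < n0) →
      ∃ (n : ℕ) (E : Finset (List Bool)) (b : ℕ), n0 ≤ n ∧ (∀ x ∈ E, x ∈ Lv (e i) n) ∧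
        E.card ≤ 3 ∧
        ((Al i n E ∧ ∀ T, Ag b (S ∪ E) T → T ∈ Rq i k) ∨
          (Wk i n E ∧ ∀ T, Ag b (S ∪ E) T → T ∈ Dead i)))
    (g : ℕ → ℕ) (hg : Tendsto g atTop atTop) :
    ∃ T : Oracle, (∀ n, {x | T x = true ∧ x.length ≤ n}.Finite ∧
        {x | T x = true ∧ x.length ≤ n}.ncard ≤ g n) ∧
      (∀ x, T x = true → ∃ i n, x ∈ Lv (e i) n) ∧
      ∀ i, (∀ n, ∃ E : Finset (List Bool), (∀ x, x ∈ E ↔ x ∈ Lv (e i) n ∧ T x = true) ∧
          (E = ∅ ∨ Al i n E ∨ Wk i n E)) ∧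
        (T ∈ Dead i ∨ ((∀ k, T ∈ Rq i k) ∧
          ∀ n, ∃ E : Finset (List Bool), (∀ x, x ∈ E ↔ x ∈ Lv (e i) n ∧ T x = true) ∧
            (E = ∅ ∨ Al i n E))) := by
  classical
  obtain ⟨f, hf⟩ := exists_surjective_nat (ι × κ)
  have H' : ∀ (q : ι × κ) (S : Finset (List Bool)) (n0 : ℕ),
      ∃ (n : ℕ) (E : Finset (List Bool)) (b : ℕ), (∀ x ∈ S, x.length < n0) →
        n0 ≤ n ∧ (∀ x ∈ E, x ∈ Lv (e q.1) n) ∧ E.card ≤ 3 ∧
        ((Al q.1 n E ∧ ∀ T, Ag b (S ∪ E) T → T ∈ Rq q.1 q.2) ∨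
          (Wk q.1 n E ∧ ∀ T, Ag b (S ∪ E) T → T ∈ Dead q.1)) := by
    intro q S n0
    by_cases h : ∀ x ∈ S, x.length < n0
    · obtain ⟨n, E, b, h1⟩ := H q.1 q.2 S n0 h
      exact ⟨n, E, b, fun _ => h1⟩
    · exact ⟨0, ∅, 0, fun h' => absurd h' h⟩
  choose nn EE bb hh using H'
  have hG : ∀ m : ℕ, ∃ N : ℕ, ∀ n ≥ N, 3 * (m + 1) ≤ g n := fun m =>
    eventually_atTop.1 (hg.eventually_ge_atTop _)
  choose G hG using hG
  -- the states
  let stp : ℕ → Finset (List Bool) × ℕ → Finset (List Bool) × ℕ := fun m r =>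
    (r.1 ∪ EE (f m) r.1 (max r.2 (G m)),
      max (bb (f m) r.1 (max r.2 (G m))) (max (nn (f m) r.1 (max r.2 (G m)) + 1)
        ((r.1 ∪ EE (f m) r.1 (max r.2 (G m))).sup List.length + 1)))
  let st : ℕ → Finset (List Bool) × ℕ := fun m => Nat.rec (∅, 0) stp m
  set S : ℕ → Finset (List Bool) := fun m => (st m).1 with hS
  set b : ℕ → ℕ := fun m => (st m).2 with hb
  set n0 : ℕ → ℕ := fun m => max (b m) (G m) with hn0
  set n : ℕ → ℕ := fun m => nn (f m) (S m) (n0 m) with hn
  set E : ℕ → Finset (List Bool) := fun m => EE (f m) (S m) (n0 m) with hE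
  have hS0 : S 0 = ∅ := rfl
  have hS1 : ∀ m, S (m + 1) = S m ∪ E m := fun m => rfl
  have hb1 : ∀ m, b (m + 1) = max (bb (f m) (S m) (n0 m)) (max (n m + 1)
      ((S m ∪ E m).sup List.length + 1)) := fun m => rfl
  have hSb : ∀ m, ∀ x ∈ S m, x.length < b m := by
    intro m
    cases m with
    | zero => intro x hx; rw [hS0] at hx; exact absurd hx (Finset.notMem_empty x)
    | succ m =>
      intro x hx
      rw [hS1] at hx
      have h1 : x.length ≤ (S m ∪ E m).sup List.length := Finset.le_sup (f := List.length) hx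
      rw [hb1]
      have h2 := le_max_right (bb (f m) (S m) (n0 m)) (max (n m + 1)
        ((S m ∪ E m).sup List.length + 1))
      have h3 := le_max_right (n m + 1) ((S m ∪ E m).sup List.length + 1)
      omega
  have key : ∀ m, n0 m ≤ n m ∧ (∀ x ∈ E m, x ∈ Lv (e (f m).1) (n m)) ∧ (E m).card ≤ 3 ∧
        ((Al (f m).1 (n m) (E m) ∧ ∀ T, Ag (bb (f m) (S m) (n0 m)) (S m ∪ E m) T →
          T ∈ Rq (f m).1 (f m).2) ∨
          (Wk (f m).1 (n m) (E m) ∧ ∀ T, Ag (bb (f m) (S m) (n0 m)) (S m ∪ E m) T →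
            T ∈ Dead (f m).1)) := by
    intro m
    exact hh (f m) (S m) (n0 m) fun x hx => lt_of_lt_of_le (hSb m x hx) (le_max_left _ _)
  have hbn : ∀ m, b m ≤ n m := fun m => (le_max_left _ _).trans (key m).1
  have hnb : ∀ m, n m < b (m + 1) := by
    intro m
    rw [hb1]
    have h2 := le_max_right (bb (f m) (S m) (n0 m)) (max (n m + 1)
      ((S m ∪ E m).sup List.length + 1))
    have h3 := le_max_left (n m + 1) ((S m ∪ E m).sup List.length + 1)
    omega
  have hbm : StrictMono b := strictMono_nat_of_lt_succ fun m => lt_of_le_of_lt (hbn m) (hnb m)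
  have hnm : StrictMono n := strictMono_nat_of_lt_succ fun m =>
    lt_of_lt_of_le (hnb m) (hbn (m + 1))
  have hSm : Monotone S := monotone_nat_of_le_succ fun m => by
    rw [hS1]; exact Finset.subset_union_left
  have hfix : ∀ m m' x, x.length < b m → x ∈ S m' → x ∈ S m := by
    intro m m' x hx hx'
    rcases le_total m' m with h | h
    · exact hSm h hx'
    · induction m', h using Nat.le_induction with
      | base => exact hx'
      | succ m' h ih =>
        rw [hS1, Finset.mem_union] at hx'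
        rcases hx' with h1 | h1
        · exact ih h1
        · have h2 := lt_of_mem_Lv ((key m').2.1 x h1)
          have h3 := hbn m'
          have h4 := hbm.monotone h
          omega
  set T : Oracle := fun x => decide (∃ m, x ∈ S m) with hT
  have hTS : ∀ x, T x = true ↔ ∃ m, x ∈ S m := fun x => by rw [hT]; simp
  have hSE : ∀ m x, x ∈ S m → ∃ m' < m, x ∈ E m' := by
    intro m x
    induction m with
    | zero => intro hx; rw [hS0] at hx; exact absurd hx (Finset.notMem_empty x)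
    | succ m ih =>
      intro hx
      rw [hS1, Finset.mem_union] at hx
      rcases hx with h1 | h1
      · obtain ⟨m', h2, h3⟩ := ih h1
        exact ⟨m', by omega, h3⟩
      · exact ⟨m, by omega, h1⟩
  have hTE : ∀ x, T x = true ↔ ∃ m, x ∈ E m := by
    intro x
    rw [hTS]
    constructor
    · rintro ⟨m, hm⟩
      obtain ⟨m', _, h⟩ := hSE m x hm
      exact ⟨m', h⟩
    · rintro ⟨m, hm⟩
      exact ⟨m + 1, by rw [hS1]; exact Finset.mem_union_right _ hm⟩
  have hAg : ∀ m, Ag (b m) (S m) T := by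
    intro m x hx
    rw [Bool.eq_iff_iff, hTS, ofF, decide_eq_true_iff]
    exact ⟨fun ⟨m', hm'⟩ => hfix m m' x hx hm', fun h => ⟨m, h⟩⟩
  have hAg' : ∀ m, Ag (bb (f m) (S m) (n0 m)) (S m ∪ E m) T := by
    intro m x hx
    have := hAg (m + 1) x (lt_of_lt_of_le hx (by rw [hb1]; exact le_max_left _ _))
    rw [hS1] at this
    exact this
  -- the level sets
  have hlev : ∀ i k, ∃ F : Finset (List Bool), (∀ x, x ∈ F ↔ x ∈ Lv (e i) k ∧ T x = true) ∧
      (F = ∅ ∨ ∃ m, n m = k ∧ (f m).1 = i ∧ F = E m) := by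
    intro i k
    by_cases h : ∃ m, n m = k ∧ (f m).1 = i
    · obtain ⟨m, hm1, hm2⟩ := h
      refine ⟨E m, fun x => ⟨fun hx => ⟨?_, (hTE x).2 ⟨m, hx⟩⟩, ?_⟩, Or.inr ⟨m, hm1, hm2, rfl⟩⟩
      · have := (key m).2.1 x hx
        rw [hm1, hm2] at this
        exact this
      · rintro ⟨h1, h2⟩
        obtain ⟨m', hm'⟩ := (hTE x).1 h2
        obtain ⟨_, h4⟩ := eq_of_mem_Lv ((key m').2.1 x hm') h1
        have : m' = m := hnm.injective (h4.trans hm1.symm)
        rw [← this]
        exact hm'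
    · refine ⟨∅, fun x => ⟨fun hx => absurd hx (Finset.notMem_empty x), ?_⟩, Or.inl rfl⟩
      rintro ⟨h1, h2⟩
      exfalso
      obtain ⟨m', hm'⟩ := (hTE x).1 h2
      obtain ⟨h3, h4⟩ := eq_of_mem_Lv ((key m').2.1 x hm') h1
      exact h ⟨m', h4, he h3⟩
  refine ⟨T, fun k => ?_, fun x hx => ?_, fun i => ⟨fun k => ?_, ?_⟩⟩
  · -- counting
    have hsub : {x | T x = true ∧ x.length ≤ k} ⊆
        ((((Finset.range k).filter (fun m => n m < k)).biUnion E : Finset (List Bool)) :
          Set (List Bool)) := by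
      rintro x ⟨h1, h2⟩
      obtain ⟨m, hm⟩ := (hTE x).1 h1
      have h3 := lt_of_mem_Lv ((key m).2.1 x hm)
      have h4 : m ≤ n m := hnm.le_apply
      rw [Finset.mem_coe, Finset.mem_biUnion]
      exact ⟨m, Finset.mem_filter.2 ⟨Finset.mem_range.2 (by omega), by omega⟩, hm⟩
    refine ⟨(Finset.finite_toSet _).subset hsub, ?_⟩
    refine (Set.ncard_le_ncard hsub (Finset.finite_toSet _)).trans ?_
    rw [Set.ncard_coe_finset]
    set I := (Finset.range k).filter (fun m => n m < k) with hI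
    have h1 : (I.biUnion E).card ≤ I.card * 3 :=
      Finset.card_biUnion_le_card_mul _ _ _ fun m _ => (key m).2.2.1
    rcases I.eq_empty_or_nonempty with h0 | h0
    · rw [h0] at h1 ⊢
      simp
    · set M := I.max' h0 with hM
      have h2 : M ∈ I := I.max'_mem h0
      have h3 := (Finset.mem_filter.1 h2).2
      have h4 : I ⊆ Finset.range (M + 1) := fun m hm => by
        rw [Finset.mem_range]
        have := I.le_max' m hm
        omega
      have h5 := Finset.card_le_card h4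
      rw [Finset.card_range] at h5
      have h6 : G M ≤ k := by
        have h7 : G M ≤ n0 M := le_max_right _ _
        have h8 := (key M).1
        omega
      have h7 := hG M k h6
      omega
  · obtain ⟨m, hm⟩ := (hTE x).1 hx
    exact ⟨_, _, (key m).2.1 x hm⟩
  · obtain ⟨F, h1, h2⟩ := hlev i k
    refine ⟨F, h1, ?_⟩
    rcases h2 with h2 | ⟨m, rfl, rfl, rfl⟩
    · exact Or.inl h2
    · rcases (key m).2.2.2 with h3 | h3
      · exact Or.inr (Or.inl h3.1)
      · exact Or.inr (Or.inr h3.1)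
  · by_cases hd : T ∈ Dead i
    · exact Or.inl hd
    · right
      have hal : ∀ m, (f m).1 = i → Al (f m).1 (n m) (E m) ∧ T ∈ Rq (f m).1 (f m).2 := by
        intro m hm
        rcases (key m).2.2.2 with h3 | h3
        · exact ⟨h3.1, h3.2 T (hAg' m)⟩
        · exact absurd (hm ▸ h3.2 T (hAg' m)) hd
      refine ⟨fun k => ?_, fun k => ?_⟩
      · obtain ⟨m, hm⟩ := hf (i, k)
        have := (hal m (by rw [hm])).2
        rw [hm] at this
        exact this
      · obtain ⟨F, h1, h2⟩ := hlev i k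
        refine ⟨F, h1, ?_⟩
        rcases h2 with h2 | ⟨m, rfl, rfl, rfl⟩
        · exact Or.inl h2
        · exact Or.inr (hal m rfl).1

end Pool.Agent.TH672.SD
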