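import Pool.Agent.TH672.SD.Thr

/-!
# Very few strings destroy all complete total search problems
-/

set_option autoImplicit false

namespace Pool.Agent.TH672.SD

open Pool.Agent.NPC Pool.Agent.H628R3.RO Pool.Agent.W900.SP
open Filter (Tendsto atTop)

/-- total `NP` search problems relative to `A` -/
def IsTF (A : Oracle) (R : List Bool → List Bool → Prop) : Prop :=
  (∃ V : List Bool → List Bool, IsFP A V ∧ ∀ x y, R x y ↔ V (pairBits x y) = [true]) ∧
    (∃ p : Polynomial ℕ, ∀ x y, R x y → y.length ≤ p.eval x.length) ∧ ∀ x, ∃ y, R x y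

/-- many-one reductions of search problems: `R` reduces to `Q` -/
def RedTF (A : Oracle) (R Q : List Bool → List Bool → Prop) : Prop :=
  ∃ f g : List Bool → List Bool, IsFP A f ∧ IsFP A g ∧ ∀ x w, Q (f x) w → R x (g (pairBits x w))

/-- the candidate is not total -/
def deadF (O : Oracle) (V : Alg) (p : Polynomial ℕ) : Set Oracle :=
  {T | ∃ z, ∀ w, ¬ Acc V p (join O T) z w}

/-- the reduction `(F, G)` with pads fails for some size `n ≥ N` -/
def rqF (O : Oracle) (V : Alg) (p : Polynomial ℕ) (j : ℕ) (F G : Alg) (k N : ℕ) : Set Oracle :=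
  {T | ∃ n : ℕ, N ≤ n ∧ T (mk j n) = true ∧ ∃ y : List Bool, y.length = n ∧
    T (pos j 1 y) = true ∧ ∀ z, F.out (join O T) (inp k (List.replicate n true)) = some z →
      ∃ w, Acc V p (join O T) z w ∧
        G.out (join O T) (pairBits (inp k (List.replicate n true)) w) ≠ some y}

def AlF (j n : ℕ) (E : Finset (List Bool)) : Prop :=
  ∃ y : List Bool, y.length = n ∧ E = {mk j n, pos j 1 y}

def WkF (j n : ℕ) (E : Finset (List Bool)) : Prop := E = {mk j n}

theorem AlF.alP {j n : ℕ} {E : Finset (List Bool)} (h : AlF j n E) : AlP j n E := by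
  obtain ⟨y, hy, h⟩ := h
  exact ⟨true, y, hy, h⟩

theorem stageF (O : Oracle) (V : Alg) (p : Polynomial ℕ) (F G : Alg) :
    ∃ k0, ∀ k ≥ k0, ∀ (j N : ℕ) (S : Finset (List Bool)) (n0 : ℕ),
    ∃ (n : ℕ) (E : Finset (List Bool)) (b : ℕ), n0 ≤ n ∧ (∀ x ∈ E, x ∈ Lv j n) ∧
      E.card ≤ 3 ∧ ((AlF j n E ∧ ∀ T, Ag b (S ∪ E) T → T ∈ rqF O V p j F G k N) ∨
        (WkF j n E ∧ ∀ T, Ag b (S ∪ E) T → T ∈ deadF O V p)) := by
  classical
  obtain ⟨qF, hqF⟩ := loc1 F
  obtain ⟨qV, hqV⟩ := loc1 V
  obtain ⟨qG, hqG⟩ := loc1 G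
  obtain ⟨bl, hbl⟩ := F.out_length
  obtain ⟨k0, hk0⟩ := pad_gap (F.p + V.p.comp (2 * bl + 1 + p.comp bl) +
    G.p.comp (2 * Polynomial.X + 1 + p.comp bl) + 1)
  refine ⟨k0, fun k hk j N S n0 => ?_⟩
  obtain ⟨n1, hn1⟩ := hk0 k hk
  set n : ℕ := max n0 (max N n1) with hn
  have hn0 : n0 ≤ n := le_max_left _ _
  have hnN : N ≤ n := (le_max_left _ _).trans (le_max_right _ _)
  have hsz := hn1 n ((le_max_right _ _).trans (le_max_right _ _))
  simp only [Polynomial.eval_add, Polynomial.eval_mul, Polynomial.eval_one, Polynomial.eval_comp,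
    Polynomial.eval_ofNat, Polynomial.eval_X] at hsz
  set X : ℕ := XX k n with hX
  set u : List Bool := inp k (List.replicate n true) with hu
  have hul : u.length = X := by rw [hu, length_inp, List.length_replicate]
  set T1 : Oracle := add (ofF S) (mk j n) with hT1
  have hpos : 0 < 2 ^ n := Nat.two_pow_pos n
  obtain ⟨Q1, h1, h2, h3⟩ := hqF O T1 u
  rw [hul] at h1
  -- the general end
  have fin : ∀ (Q2 : Finset (List Bool)),
      (∀ s : List Bool, s ∈ secs j n 1 → s ∉ Q1 ∪ Q2 → ∀ y : List Bool, y.length = n →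
        s = pos j 1 y → ∀ T : Oracle, (∀ q ∈ Q1 ∪ Q2, T q = T1 q) →
        ∀ z, F.out (join O T) u = some z →
        ∃ w, Acc V p (join O T) z w ∧ G.out (join O T) (pairBits u w) ≠ some y) →
      (Q1 ∪ Q2).card < 2 ^ n →
      ∃ (n : ℕ) (E : Finset (List Bool)) (b : ℕ), n0 ≤ n ∧ (∀ x ∈ E, x ∈ Lv j n) ∧
      E.card ≤ 3 ∧ ((AlF j n E ∧ ∀ T, Ag b (S ∪ E) T → T ∈ rqF O V p j F G k N) ∨
        (WkF j n E ∧ ∀ T, Ag b (S ∪ E) T → T ∈ deadF O V p)) := by
    intro Q2 hQ2 hcard
    obtain ⟨s, hs, hsB⟩ := Finset.exists_mem_notMem_of_card_lt_card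
      (s := Q1 ∪ Q2) (t := secs j n 1) (by rw [card_secs]; exact hcard)
    obtain ⟨y, hy, hsy⟩ := mem_secs.1 hs
    refine ⟨n, {mk j n, s}, ((Q1 ∪ Q2) ∪ {mk j n, s}).sup List.length + 1, hn0, ?_,
      Finset.card_le_two.trans (by norm_num), Or.inl ⟨⟨y, hy, by rw [hsy]⟩, fun T hT => ?_⟩⟩
    · intro x hx
      simp only [Finset.mem_insert, Finset.mem_singleton] at hx
      rcases hx with rfl | rfl
      · exact mk_mem_Lv j n
      · exact mem_Lv_of_secs hs
    · have hT0 : ∀ q ∈ (Q1 ∪ Q2) ∪ {mk j n, s}, T q = add T1 s q := by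
        intro q hq
        rw [hT q (Nat.lt_succ_of_le (Finset.le_sup (f := List.length) hq)), ofF_two]
      have hT1' : ∀ q ∈ Q1 ∪ Q2, T q = T1 q := by
        intro q hq
        rw [hT0 q (Finset.mem_union_left _ hq)]
        exact add_ne fun h => hsB (h ▸ hq)
      refine ⟨n, hnN, ?_, y, hy, ?_, fun z hz => hQ2 s hs hsB y hy hsy T hT1' z hz⟩
      · rw [hT0 _ (Finset.mem_union_right _ (Finset.mem_insert_self _ _))]
        unfold add
        split_ifs
        · rfl
        · exact add_self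
      · rw [← hsy, hT0 _ (Finset.mem_union_right _ (Finset.mem_insert_of_mem
          (Finset.mem_singleton_self _)))]
        exact add_self
  cases hz : F.out (join O T1) u with
  | none =>
    refine fin ∅ (fun s _ _ y _ _ T hT z hz' => ?_) ?_
    · rw [h3 T (fun q hq => hT q (Finset.mem_union_left _ hq)), hz] at hz'
      exact absurd hz' (by simp)
    · rw [Finset.union_empty]; omega
  | some z =>
    have hzl : z.length ≤ bl.eval X := by
      have := hbl _ _ _ hz
      rw [hul] at this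
      exact this
    by_cases hacc : ∃ w, Acc V p (join O T1) z w
    · obtain ⟨w, hw, hVw⟩ := hacc
      obtain ⟨Q2, h4, h5, h6⟩ := hqV O T1 (pairBits z w)
      obtain ⟨Q3, h7, h8, h9⟩ := hqG O T1 (pairBits u w)
      have hpz : p.eval z.length ≤ p.eval (bl.eval X) := eval_mono p hzl
      have hQ2c : Q2.card ≤ V.p.eval (2 * bl.eval X + 1 + p.eval (bl.eval X)) := by
        refine h4.trans (eval_mono _ ?_)
        rw [length_pairBits]
        omega
      have hQ3c : Q3.card ≤ G.p.eval (2 * X + 1 + p.eval (bl.eval X)) := by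
        refine h7.trans (eval_mono _ ?_)
        rw [length_pairBits, hul]
        omega
      set Q4 : Finset (List Bool) := match G.out (join O T1) (pairBits u w) with
        | some y => {pos j 1 y}
        | none => ∅ with hQ4
      have hQ4c : Q4.card ≤ 1 := by
        rw [hQ4]
        split
        · simp
        · simp
      refine fin (Q2 ∪ Q3 ∪ Q4) (fun s hs hsB y hy hsy T hT z' hz' => ?_) ?_
      · rw [h3 T (fun q hq => hT q (Finset.mem_union_left _ hq)), hz, Option.some.injEq] at hz'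
        subst hz'
        refine ⟨w, ⟨hw, ?_⟩, ?_⟩
        · rw [h6 T (fun q hq => hT q (by simp [hq]))]
          exact hVw
        · rw [h9 T (fun q hq => hT q (by simp [hq]))]
          intro h10
          refine hsB ?_
          have : s ∈ Q4 := by
            rw [hQ4, h10, hsy]
            exact Finset.mem_singleton_self _
          simp [this]
      · have e1 := Finset.card_union_le Q1 (Q2 ∪ Q3 ∪ Q4)
        have e2 := Finset.card_union_le (Q2 ∪ Q3) Q4
        have e3 := Finset.card_union_le Q2 Q3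
        omega
    · push Not at hacc
      obtain ⟨b, hb⟩ := out_short V (2 * z.length + 1 + p.eval z.length)
      refine ⟨n, {mk j n}, b, hn0, ?_, by simp, Or.inr ⟨rfl, fun T hT => ⟨z, fun w hw => ?_⟩⟩⟩
      · intro x hx
        rw [Finset.mem_singleton] at hx
        rw [hx]
        exact mk_mem_Lv j n
      · refine hacc w ⟨hw.1, ?_⟩
        rw [← hw.2]
        refine (hb O T1 T _ ?_ fun q hq => ?_).symm
        · rw [length_pairBits]
          have := hw.1
          omega
        · rw [hT q hq, hT1, ← ofF_insert, Finset.union_comm]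
          rfl

/-- the search problem of the label `j` -/
def srch (T : Oracle) (j : ℕ) (x y : List Bool) : Prop :=
  (T (mk j x.length) = true ∧ T (pos j 1 y) = true ∧ y.length = x.length) ∨
    (T (mk j x.length) = false ∧ y = [])

theorem isTF_srch {O T : Oracle} {j : ℕ} (h : Lev T j (AlF j)) :
    IsTF (join O T) (srch T j) ∧ ∀ x y y', srch T j x y → srch T j x y' → y = y' := by
  have hP : Lev T j (AlP j) := fun n => by
    obtain ⟨E, h1, h2⟩ := h n
    exact ⟨E, h1, h2.imp id AlF.alP⟩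
  have hv : ∀ x w : List Bool, coH (pairBits x w, [true :: mk j (unpair (pairBits x w)).1.length,
      true :: pos j 1 (unpair (pairBits x w)).2].map (join O T)) = [true] ↔ srch T j x w := by
    intro x w
    unfold coH srch
    simp only [unpair_pairBits, List.map_cons, List.map_nil, join]
    cases h1 : T (mk j x.length) <;> cases h2 : T (pos j 1 w) <;> simp
  have hu : ∀ x y y', srch T j x y → srch T j x y' → y = y' := by
    intro x y y' h1 h2
    rcases lev_cases hP x.length with h6 | ⟨b, y₀, h7, h8, h6⟩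
    · rcases h1 with h3 | h3
      · rw [h6.1] at h3; exact absurd h3.1 (by simp)
      · rcases h2 with h4 | h4
        · rw [h6.1] at h4; exact absurd h4.1 (by simp)
        · rw [h3.2, h4.2]
    · rcases h1 with h3 | h3
      · rcases h2 with h4 | h4
        · rw [((h6 true y h3.2.2).1 h3.2.1).2, ((h6 true y' h4.2.2).1 h4.2.1).2]
        · rw [h8] at h4; exact absurd h4.1 (by simp)
      · rw [h8] at h3; exact absurd h3.1 (by simp)
  refine ⟨⟨⟨fun z => coH (z, [true :: mk j (unpair z).1.length,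
      true :: pos j 1 (unpair z).2].map (join O T)), ?_, fun x y => (hv x y).symm⟩,
      ⟨Polynomial.X, fun x y hxy => ?_⟩, fun x => ?_⟩, hu⟩
  · refine IsFP.tt (Q := fun z => [true :: mk j (unpair z).1.length,
      true :: pos j 1 (unpair z).2]) (H := coH) ?_ ?_
    · refine Poly.cons (Poly.cons (NPC.Poly.const true) ?_) (Poly.cons (Poly.cons
        (NPC.Poly.const true) ?_) (NPC.Poly.const []))
      · exact p_pos' j 2 (p_replicate (UPoly.length (Poly.fst poly_unpair)) true)
      · exact p_pos' j 1 (Poly.snd poly_unpair)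
    · have h1 : Poly (fun q : List Bool × List Bool => q.2) := Poly.snd Poly.id
      have h2 : Poly (fun q : List Bool × List Bool => unpair q.1) :=
        poly_unpair.comp (Poly.fst Poly.id)
      refine Poly.ite (Poly.decide_eq h1 (NPC.Poly.const _)) ?_ ?_
      · exact Poly.ite (Poly.decide_eq (Poly.length (Poly.snd h2)) (Poly.length (Poly.fst h2)))
          (NPC.Poly.const _) (NPC.Poly.const _)
      · refine Poly.ite (Poly.decide_eq (Poly.head? h1) (NPC.Poly.const _)) ?_
          (NPC.Poly.const _)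
        exact Poly.ite (Poly.decide_eq (Poly.snd h2) (NPC.Poly.const _))
          (NPC.Poly.const _) (NPC.Poly.const _)
  · rw [Polynomial.eval_X]
    rcases hxy with h3 | h3
    · exact h3.2.2.le
    · rw [h3.2]; simp
  · obtain ⟨E, h1, h2⟩ := h x.length
    rcases h2 with h2 | ⟨y, hy, h2⟩
    · refine ⟨[], Or.inr ⟨?_, rfl⟩⟩
      rw [Bool.eq_false_iff]
      intro h3
      have := (h1 _).2 ⟨mk_mem_Lv j x.length, h3⟩
      rw [h2] at this
      exact absurd this (Finset.notMem_empty _)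
    · refine ⟨y, Or.inl ⟨((h1 _).1 ?_).2, ((h1 _).1 ?_).2, hy⟩⟩
      · rw [h2]; exact Finset.mem_insert_self _ _
      · rw [h2]; exact Finset.mem_insert_of_mem (Finset.mem_singleton_self _)

/-- No total search problem is hard even for those with unique solutions. -/
def PartF (A : Oracle) : Prop := ∀ Q, IsTF A Q → ∃ R, IsTF A R ∧
  (∀ x y y', R x y → R x y' → y = y') ∧ (∀ F G : Alg, ∃ k₀, ∀ k ≥ k₀, ∀ N, ∃ x : List Bool,
    N ≤ x.length ∧ ¬ ∃ z, F.out A (inp k x) = some z ∧ ∀ w, Q z w →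
      ∃ y, G.out A (pairBits (inp k x) w) = some y ∧ R x y) ∧ ¬ RedTF A R Q

theorem mainF (O : Oracle) (g : ℕ → ℕ) (hg : Tendsto g atTop atTop) :
    ∃ T : Oracle, AtMost g T ∧ PartF (join O T) := by
  classical
  have hcp := countable_poly
  obtain ⟨e, he⟩ := Countable.exists_injective_nat (Alg × Polynomial ℕ)
  have hne : Nonempty Alg := by
    obtain ⟨M, _⟩ := IsFP.of_poly (A := fun _ => false) (F := fun x => x) Poly.id
    exact ⟨M⟩
  choose κ hκ using fun (c : Alg × Polynomial ℕ) (M : Alg × Alg) => stageF O c.1 c.2 M.1 M.2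
  obtain ⟨T, hT1, hT2, hT3⟩ := stages (ι := Alg × Polynomial ℕ) (κ := (Alg × Alg) × ℕ × ℕ)
    (fun c => deadF O c.1 c.2)
    (fun c k => rqF O c.1 c.2 (e c) k.1.1 k.1.2 (κ c k.1 + k.2.1) k.2.2)
    (fun c => AlF (e c)) (fun c => WkF (e c)) e he (by
      intro c k S n0 _
      exact hκ c k.1 _ (Nat.le_add_right _ _) _ k.2.2 S n0) g hg
  refine ⟨T, hT1, ?_⟩
  rintro Q ⟨⟨V', ⟨V, hV⟩, hVQ⟩, ⟨p, hp⟩, htot⟩
  have hacc : ∀ z w, Acc V p (join O T) z w ↔ Q z w := by
    intro z w
    unfold Acc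
    rw [hV, Option.some.injEq, ← hVQ]
    exact ⟨fun h => h.2, fun h => ⟨hp _ _ h, h⟩⟩
  have hnd : T ∉ deadF O V p := by
    rintro ⟨z, hz⟩
    obtain ⟨w, hw⟩ := htot z
    exact hz w ((hacc z w).2 hw)
  rcases (hT3 (V, p)).2 with h | ⟨h1, h2⟩
  · exact absurd h hnd
  have hLev : Lev T (e (V, p)) (AlF (e (V, p))) := h2
  obtain ⟨hTF, hun⟩ := isTF_srch (O := O) hLev
  have key : ∀ F G : Alg, ∃ k₀, ∀ k ≥ k₀, ∀ N, ∃ x : List Bool,
      N ≤ x.length ∧ ¬ ∃ z, F.out (join O T) (inp k x) = some z ∧ ∀ w, Q z w →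
      ∃ y, G.out (join O T) (pairBits (inp k x) w) = some y ∧ srch T (e (V, p)) x y := by
    intro F G
    refine ⟨κ (V, p) (F, G), fun k hk N => ?_⟩
    obtain ⟨k', rfl⟩ := Nat.exists_eq_add_of_le hk
    obtain ⟨n, hN, h3, y, hy, h4, h5⟩ := h1 ((F, G), k', N)
    refine ⟨List.replicate n true, by rw [List.length_replicate]; exact hN, ?_⟩
    rintro ⟨z, h6, h7⟩
    obtain ⟨w, h8, h9⟩ := h5 z h6
    obtain ⟨y', h10, h11⟩ := h7 w ((hacc z w).1 h8)
    refine h9 ?_
    rw [h10, hun _ y' y h11 (Or.inl ⟨?_, h4, ?_⟩)]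
    · rw [List.length_replicate]; exact h3
    · rw [List.length_replicate]; exact hy
  refine ⟨srch T (e (V, p)), hTF, hun, key, ?_⟩
  rintro ⟨f, g', hf, hg', hred⟩
  obtain ⟨F, hF⟩ := isFP_unpad hf
  have hg2 : IsFP (join O T) (fun z => g' (pairBits (unpair (unpair z).1).1 (unpair z).2)) :=
    IsFP.comp (F := fun z : List Bool => pairBits (unpair (unpair z).1).1 (unpair z).2) (G := g')
      hg' (IsFP.pair (IsFP.of_poly (Poly.fst (poly_unpair.comp (Poly.fst poly_unpair))))
        (IsFP.of_poly (Poly.snd poly_unpair)))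
  obtain ⟨G, hG⟩ := hg2
  obtain ⟨k₀, hk₀⟩ := key F G
  obtain ⟨x, _, hx⟩ := hk₀ k₀ le_rfl 0
  refine hx ⟨f x, hF _ _, fun w hw => ⟨g' (pairBits x w), ?_, hred x w hw⟩⟩
  rw [hG]
  unfold inp
  simp only [unpair_pairBits]

end Pool.Agent.TH672.SD
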