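import Pool.Agent.TH672.SD.Tf

/-!
# Very few strings destroy all complete total search problems: Turing reductions
-/

set_option autoImplicit false

namespace Pool.Agent.TH672.SD

open Pool.Agent.NPC Pool.Agent.H628R3.RO Pool.Agent.W900.SP
open Filter (Tendsto atTop)

open Classical in
/-- The oracle that answers the questions about the function `σ`: whether `u` is an initial
segment of `σ z`. -/
noncomputable def pre (σ : List Bool → List Bool) : Oracle :=
  fun q => decide (∃ z u, q = pairBits z u ∧ u <+: σ z)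

theorem loc2 (M : Alg) : ∃ qb : Polynomial ℕ, ∀ (O T S : Oracle) (x : List Bool),
    ∃ Q₁ Q₂ : Finset (List Bool), Q₁.card ≤ M.p.eval x.length ∧
      Q₂.card ≤ M.p.eval x.length ∧ (∀ q ∈ Q₁, q.length ≤ qb.eval x.length) ∧
      (∀ q ∈ Q₂, q.length ≤ qb.eval x.length) ∧
      ∀ T' S' : Oracle, (∀ q ∈ Q₁, T' q = T q) → (∀ q ∈ Q₂, S' q = S q) →
        M.out (join (join O T') S') x = M.out (join (join O T) S) x := by
  classical
  obtain ⟨qb, hq⟩ := M.out_local
  refine ⟨qb, fun O T S x => ?_⟩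
  obtain ⟨Q, h1, h2, h3⟩ := hq (join (join O T) S) x
  refine ⟨Q.image (fun q => q.tail.tail), Q.image List.tail, Finset.card_image_le.trans h1,
    Finset.card_image_le.trans h1, ?_, ?_, fun T' S' hT' hS' => ?_⟩
  · intro q hqQ
    obtain ⟨q', h4, rfl⟩ := Finset.mem_image.1 hqQ
    have := h2 q' h4
    simp only [List.length_tail]
    omega
  · intro q hqQ
    obtain ⟨q', h4, rfl⟩ := Finset.mem_image.1 hqQ
    have := h2 q' h4
    simp only [List.length_tail]
    omega
  · rw [h3]
    intro q hqQ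
    rcases q with _ | ⟨c, q⟩
    · rfl
    · cases c with
      | true => exact hS' q (Finset.mem_image.2 ⟨_, hqQ, rfl⟩)
      | false =>
        rcases q with _ | ⟨c, q⟩
        · rfl
        · cases c with
          | false => rfl
          | true => exact hT' q (Finset.mem_image.2 ⟨_, hqQ, rfl⟩)

/-- the Turing reduction `M` with pads fails for some size `n ≥ N` -/
def rqT' (O : Oracle) (V : Alg) (p : Polynomial ℕ) (j : ℕ) (M : Alg) (k N : ℕ) : Set Oracle :=
  {T | T ∉ deadF O V p → ∃ n : ℕ, N ≤ n ∧ T (mk j n) = true ∧ ∃ y : List Bool, y.length = n ∧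
    T (pos j 1 y) = true ∧ ∃ σ : List Bool → List Bool, (∀ z, Acc V p (join O T) z (σ z)) ∧
      M.out (join (join O T) (pre σ)) (inp k (List.replicate n true)) ≠ some y}

theorem length_unpair_fst (q : List Bool) : (unpair q).1.length ≤ q.length := by
  have := Pool.Agent.H543R3.PC.unpair_len q
  omega

theorem stageT' (O : Oracle) (V : Alg) (p : Polynomial ℕ) (M : Alg) :
    ∃ k0, ∀ k ≥ k0, ∀ (j N : ℕ) (S : Finset (List Bool)) (n0 : ℕ),
    ∃ (n : ℕ) (E : Finset (List Bool)) (b : ℕ), n0 ≤ n ∧ (∀ x ∈ E, x ∈ Lv j n) ∧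
      E.card ≤ 3 ∧ ((AlF j n E ∧ ∀ T, Ag b (S ∪ E) T → T ∈ rqT' O V p j M k N) ∨
        (WkF j n E ∧ ∀ T, Ag b (S ∪ E) T → T ∈ deadF O V p)) := by
  classical
  obtain ⟨qM, hqM⟩ := loc2 M
  obtain ⟨c, hc⟩ := cert V p
  obtain ⟨k0, hk0⟩ := pad_gap (M.p + M.p * c.comp qM + 1)
  refine ⟨k0, fun k hk j N S n0 => ?_⟩
  obtain ⟨n1, hn1⟩ := hk0 k hk
  set n : ℕ := max n0 (max N n1) with hn
  have hn0 : n0 ≤ n := le_max_left _ _
  have hnN : N ≤ n := (le_max_left _ _).trans (le_max_right _ _)
  have hsz := hn1 n ((le_max_right _ _).trans (le_max_right _ _))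
  simp only [Polynomial.eval_add, Polynomial.eval_mul, Polynomial.eval_one,
    Polynomial.eval_comp] at hsz
  set X : ℕ := XX k n with hX
  set u : List Bool := inp k (List.replicate n true) with hu
  have hul : u.length = X := by rw [hu, length_inp, List.length_replicate]
  set T1 : Oracle := add (ofF S) (mk j n) with hT1
  have hpos : 0 < 2 ^ n := Nat.two_pow_pos n
  by_cases hdead : ∃ z, ∀ w, ¬ Acc V p (join O T1) z w
  · obtain ⟨z, hacc⟩ := hdead
    obtain ⟨b, hb⟩ := out_short V (2 * z.length + 1 + p.eval z.length)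
    refine ⟨n, {mk j n}, b, hn0, ?_, by simp, Or.inr ⟨rfl, fun T hT => ⟨z, fun w hw => ?_⟩⟩⟩
    · intro x hx
      rw [Finset.mem_singleton] at hx
      rw [hx]
      exact mk_mem_Lv j n
    · refine hacc w ⟨hw.1, ?_⟩
      rw [← hw.2]
      refine (hb O T1 T _ ?_ fun q hq => ?_).symm
      · rw [length_pairBits]
        have := hw.1
        omega
      · rw [hT q hq, hT1, ← ofF_insert, Finset.union_comm]
        rfl
  · push Not at hdead
    choose σ1 hσ1 using hdead
    choose C hC1 hC2 using fun z => hc O T1 z (σ1 z) (hσ1 z).1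
    obtain ⟨Q1, Q2, h1, h2, h3, h4, h5⟩ := hqM O T1 (pre σ1) u
    rw [hul] at h1 h2 h3 h4
    set Q3 : Finset (List Bool) := Q2.biUnion (fun q => C (unpair q).1) with hQ3
    have hQ3c : Q3.card ≤ M.p.eval X * c.eval (qM.eval X) := by
      have e1 : Q3.card ≤ Q2.card * c.eval (qM.eval X) := by
        refine Finset.card_biUnion_le_card_mul _ _ _ fun q hq => ?_
        refine (hC1 _).trans (eval_mono c ?_)
        exact (length_unpair_fst q).trans (h4 q hq)
      exact e1.trans (Nat.mul_le_mul_right _ h2)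
    set Q4 : Finset (List Bool) := match M.out (join (join O T1) (pre σ1)) u with
      | some y => {pos j 1 y}
      | none => ∅ with hQ4
    have hQ4c : Q4.card ≤ 1 := by
      rw [hQ4]
      split
      · simp
      · simp
    have hcard : (Q1 ∪ Q3 ∪ Q4).card < (secs j n 1).card := by
      rw [card_secs]
      have e2 := Finset.card_union_le (Q1 ∪ Q3) Q4
      have e3 := Finset.card_union_le Q1 Q3
      omega
    obtain ⟨s, hs, hsB⟩ := Finset.exists_mem_notMem_of_card_lt_card hcard
    obtain ⟨y, hy, hsy⟩ := mem_secs.1 hs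
    refine ⟨n, {mk j n, s}, ((Q1 ∪ Q3) ∪ {mk j n, s}).sup List.length + 1, hn0, ?_,
      Finset.card_le_two.trans (by norm_num), Or.inl ⟨⟨y, hy, by rw [hsy]⟩, fun T hT hal => ?_⟩⟩
    · intro x hx
      simp only [Finset.mem_insert, Finset.mem_singleton] at hx
      rcases hx with rfl | rfl
      · exact mk_mem_Lv j n
      · exact mem_Lv_of_secs hs
    · have hT0 : ∀ q ∈ (Q1 ∪ Q3) ∪ {mk j n, s}, T q = add T1 s q := by
        intro q hq
        rw [hT q (Nat.lt_succ_of_le (Finset.le_sup (f := List.length) hq)), ofF_two]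
      have hT1' : ∀ q ∈ Q1 ∪ Q3, T q = T1 q := by
        intro q hq
        rw [hT0 q (Finset.mem_union_left _ hq)]
        exact add_ne fun h => hsB (Finset.mem_union_left _ (h ▸ hq))
      have hal' : ∀ z, ∃ w, Acc V p (join O T) z w := by
        intro z
        by_contra hcon
        push Not at hcon
        exact hal ⟨z, hcon⟩
      choose τ hτ using hal'
      set σ : List Bool → List Bool := fun z =>
        if Acc V p (join O T) z (σ1 z) then σ1 z else τ z with hσ
      have hσa : ∀ z, Acc V p (join O T) z (σ z) := by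
        intro z
        rw [hσ]
        dsimp only
        split_ifs with h
        · exact h
        · exact hτ z
      have hσ2 : ∀ q ∈ Q2, σ (unpair q).1 = σ1 (unpair q).1 := by
        intro q hq
        rw [hσ]
        dsimp only
        rw [if_pos]
        refine ⟨(hσ1 _).1, ?_⟩
        rw [hC2 _ T fun q' hq' => hT1' q' (Finset.mem_union_right _
          (Finset.mem_biUnion.2 ⟨q, hq, hq'⟩))]
        exact (hσ1 _).2
      refine ⟨n, hnN, ?_, y, hy, ?_, σ, hσa, ?_⟩
      · rw [hT0 _ (Finset.mem_union_right _ (Finset.mem_insert_self _ _))]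
        unfold add
        split_ifs
        · rfl
        · exact add_self
      · rw [← hsy, hT0 _ (Finset.mem_union_right _ (Finset.mem_insert_of_mem
          (Finset.mem_singleton_self _)))]
        exact add_self
      · rw [← hu, h5 T (pre σ) (fun q hq => hT1' q (Finset.mem_union_left _ hq)) (fun q hq => ?_)]
        · intro h10
          refine hsB (Finset.mem_union_right _ ?_)
          rw [hQ4, h10, hsy]
          exact Finset.mem_singleton_self _
        · unfold pre
          refine decide_eq_decide.2 (exists_congr fun z => exists_congr fun v =>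
            and_congr_right fun h => ?_)
          have h11 := hσ2 q hq
          rw [h, unpair_pairBits] at h11
          rw [h11]

/-- No total search problem is hard for those with unique solutions, even for Turing reductions
in time `2 ^ o(n)`. -/
def PartF' (A : Oracle) : Prop := ∀ Q, IsTF A Q → ∃ R, IsTF A R ∧
  (∀ x y y', R x y → R x y' → y = y') ∧ (∀ M : Alg, ∃ k₀, ∀ k ≥ k₀, ∀ N,
    ∃ σ : List Bool → List Bool, (∀ z, Q z (σ z)) ∧ ∃ x : List Bool, N ≤ x.length ∧
      ¬ ∃ y, M.out (join A (pre σ)) (inp k x) = some y ∧ R x y) ∧ ¬ RedTF A R Q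

/-- the tasks of the construction -/
def RrF (O : Oracle) (e : Alg × Polynomial ℕ → ℕ) (κ : Alg × Polynomial ℕ → Alg → ℕ)
    (κ' : Alg × Polynomial ℕ → Alg × Alg → ℕ) (c : Alg × Polynomial ℕ) :
    (Alg ⊕ (Alg × Alg)) × ℕ × ℕ → Set Oracle
  | (Sum.inl M, k, N) => rqT' O c.1 c.2 (e c) M (κ c M + k) N
  | (Sum.inr M, k, N) => rqF O c.1 c.2 (e c) M.1 M.2 (κ' c M + k) N

theorem mainF' (O : Oracle) (g : ℕ → ℕ) (hg : Tendsto g atTop atTop) :
    ∃ T : Oracle, AtMost g T ∧ PartF' (join O T) := by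
  classical
  have hcp := countable_poly
  obtain ⟨e, he⟩ := Countable.exists_injective_nat (Alg × Polynomial ℕ)
  have hne : Nonempty Alg := by
    obtain ⟨M, _⟩ := IsFP.of_poly (A := fun _ => false) (F := fun x => x) Poly.id
    exact ⟨M⟩
  choose κ hκ using fun (c : Alg × Polynomial ℕ) (M : Alg) => stageT' O c.1 c.2 M
  choose κ' hκ' using fun (c : Alg × Polynomial ℕ) (M : Alg × Alg) => stageF O c.1 c.2 M.1 M.2
  obtain ⟨T, hT1, hT2, hT3⟩ := stages (ι := Alg × Polynomial ℕ)
    (κ := (Alg ⊕ (Alg × Alg)) × ℕ × ℕ) (fun c => deadF O c.1 c.2) (RrF O e κ κ')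
    (fun c => AlF (e c)) (fun c => WkF (e c)) e he (by
      intro c k S n0 _
      rcases k with ⟨M | M, k, N⟩
      · exact hκ c M _ (Nat.le_add_right _ _) _ N S n0
      · exact hκ' c M _ (Nat.le_add_right _ _) _ N S n0) g hg
  refine ⟨T, hT1, ?_⟩
  rintro Q ⟨⟨V', ⟨V, hV⟩, hVQ⟩, ⟨p, hp⟩, htot⟩
  have hacc : ∀ z w, Acc V p (join O T) z w ↔ Q z w := by
    intro z w
    unfold Acc
    rw [hV, Option.some.injEq, ← hVQ]
    exact ⟨fun h => h.2, fun h => ⟨hp _ _ h, h⟩⟩
  have hnd : T ∉ deadF O V p := by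
    rintro ⟨z, hz⟩
    obtain ⟨w, hw⟩ := htot z
    exact hz w ((hacc z w).2 hw)
  rcases (hT3 (V, p)).2 with h | ⟨h1, h2⟩
  · exact absurd h hnd
  have hLev : Lev T (e (V, p)) (AlF (e (V, p))) := h2
  obtain ⟨hTF, hun⟩ := isTF_srch (O := O) hLev
  refine ⟨srch T (e (V, p)), hTF, hun, fun M => ⟨κ (V, p) M, fun k hk N => ?_⟩, ?_⟩
  · obtain ⟨k', rfl⟩ := Nat.exists_eq_add_of_le hk
    have h1' : T ∈ rqT' O V p (e (V, p)) M (κ (V, p) M + k') N := h1 (Sum.inl M, k', N)
    obtain ⟨n, hN, h3, y, hy, h4, σ, h5, h6⟩ := h1' hnd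
    refine ⟨σ, fun z => (hacc z _).1 (h5 z), List.replicate n true, by
      rw [List.length_replicate]; exact hN, ?_⟩
    rintro ⟨y', h7, h8⟩
    refine h6 ?_
    rw [h7, hun _ y' y h8 (Or.inl ⟨?_, h4, ?_⟩)]
    · rw [List.length_replicate]; exact h3
    · rw [List.length_replicate]; exact hy
  · rintro ⟨f, g', hf, hg', hred⟩
    obtain ⟨F, hF⟩ := isFP_unpad hf
    have hg2 : IsFP (join O T) (fun z => g' (pairBits (unpair (unpair z).1).1 (unpair z).2)) :=
      IsFP.comp (F := fun z : List Bool => pairBits (unpair (unpair z).1).1 (unpair z).2)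
        (G := g') hg' (IsFP.pair (IsFP.of_poly (Poly.fst (poly_unpair.comp
          (Poly.fst poly_unpair)))) (IsFP.of_poly (Poly.snd poly_unpair)))
    obtain ⟨G, hG⟩ := hg2
    have h1' : T ∈ rqF O V p (e (V, p)) F G (κ' (V, p) (F, G) + 0) 0 :=
      h1 (Sum.inr (F, G), 0, 0)
    obtain ⟨n, _, h3, y, hy, h4, h5⟩ := h1'
    obtain ⟨w, h8, h9⟩ := h5 _ (hF _ _)
    refine h9 ?_
    have h10 := hred (List.replicate n true) w ((hacc _ _).1 h8)
    have h11 := hun _ _ y h10 (Or.inl ⟨by rw [List.length_replicate]; exact h3, h4, by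
      rw [List.length_replicate]; exact hy⟩)
    rw [hG, ← h11]
    unfold inp
    simp only [unpair_pairBits]

/-! ### p-optimal proof systems -/

/-- the selection -/
def selC (t z : List Bool) : List Bool := if (unpair z).1 = [true] then (unpair z).2 else t

/-- If the set is decided in polynomial time then it has a p-optimal proof system. -/
theorem pOpt_of_isP {A : Oracle} {L : Set (List Bool)} (h : IsP A L) (hL : L.Nonempty) :
    ∃ P, IsPOptimal A L P := by
  obtain ⟨V, hV, hVL⟩ := h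
  obtain ⟨t, ht⟩ := hL
  have hP : ∀ x, selC t (pairBits (V x) x) ∈ L := by
    intro x
    unfold selC
    rw [unpair_pairBits]
    split_ifs with h
    · exact (hVL x).2 h
    · exact ht
  have hid : ∀ x ∈ L, selC t (pairBits (V x) x) = x := by
    intro x hx
    unfold selC
    rw [unpair_pairBits, if_pos ((hVL x).1 hx)]
  have hF : IsFP A (fun x => selC t (pairBits (V x) x)) := by
    refine IsFP.comp (F := fun x : List Bool => pairBits (V x) x) (G := selC t)
      (IsFP.of_poly ?_) (IsFP.pair hV (IsFP.of_poly Poly.id))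
    exact Poly.ite (Poly.decide_eq (Poly.fst poly_unpair) (NPC.Poly.const _))
      (Poly.snd poly_unpair) (NPC.Poly.const _)
  refine ⟨fun x => selC t (pairBits (V x) x), ⟨hF, ?_⟩, fun Q hQ => ⟨Q, hQ.1, fun w => ?_⟩⟩
  · ext x
    exact ⟨fun ⟨y, hy⟩ => hy ▸ hP y, fun hx => ⟨x, hid x hx⟩⟩
  · refine hid _ ?_
    rw [← hQ.2]
    exact ⟨w, rfl⟩

theorem isP_join {O : Oracle} (T : Oracle) {L : Set (List Bool)} (h : IsP O L) :
    IsP (join O T) L := by
  obtain ⟨V, hV, hVL⟩ := h
  exact ⟨V, (isFP_iff.2 (isFP_join T (isFP_iff.1 hV))), hVL⟩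

end Pool.Agent.TH672.SD
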