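import Pool.Agent.TH672.SD.All
import Pool.Agent.W900.SP.Fin

/-!
# The thresholds
-/

set_option autoImplicit false

namespace Pool.Agent.TH672.SD

open Pool.Agent.NPC Pool.Agent.H628R3.RO Pool.Agent.W900.SP
open Filter (Tendsto atTop)

/-- at most `g n` strings of length at most `n`, for all `n` -/
def AtMost (g : ℕ → ℕ) (T : Oracle) : Prop :=
  ∀ n, {q | T q = true ∧ q.length ≤ n}.Finite ∧ {q | T q = true ∧ q.length ≤ n}.ncard ≤ g n

theorem finite_of_atMost {g : ℕ → ℕ} (hg : ¬ Tendsto g atTop atTop) {T : Oracle}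
    (h : AtMost g T) : {q | T q = true}.Finite := by
  rw [Filter.tendsto_atTop] at hg
  push Not at hg
  obtain ⟨c, hc⟩ := hg
  by_contra hinf
  obtain ⟨F, hF, hF2⟩ := Set.Infinite.exists_subset_card_eq hinf c
  obtain ⟨n, hn, hn2⟩ := Filter.frequently_atTop.1 hc (F.sup List.length)
  have h2 : c ≤ {q | T q = true ∧ q.length ≤ n}.ncard := by
    rw [← hF2, ← Set.ncard_coe_finset]
    refine Set.ncard_le_ncard (fun y hy => ⟨hF hy, ?_⟩) (h n).1
    exact (Finset.le_sup (f := List.length) hy).trans hn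
  have := (h n).2
  omega

theorem IsUP.isNP {A : Oracle} {L : Set (List Bool)} (h : IsUP A L) : IsNP A L := by
  obtain ⟨V, p, h1, h2, _⟩ := h
  exact ⟨V, p, h1, h2⟩

/-- a property which depends on the polynomial-time functions only does not depend on finite
additional oracles -/
theorem inv_finite {X : Oracle → Prop} (hX : Inv X) {O T : Oracle} (hT : {q | T q = true}.Finite) :
    X (join O T) ↔ X O :=
  ⟨hX _ _ fun _ => isFP_join_finite hT, hX _ _ fun _ => (isFP_join_finite hT).symm⟩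

/-- The scheme: the threshold for the destruction of a property. -/
theorem threshold {X Y : Oracle → Prop} (hX : Inv X) (hXY : ∀ A, Y A → ¬ X A)
    (hY : ∀ (O : Oracle) (g : ℕ → ℕ), Tendsto g atTop atTop →
      ∃ T : Oracle, AtMost g T ∧ Y (join O T)) (O : Oracle) (g : ℕ → ℕ) :
    (Tendsto g atTop atTop → ∃ T : Oracle, AtMost g T ∧ Y (join O T) ∧ ¬ X (join O T)) ∧
    (¬ Tendsto g atTop atTop → ∀ T : Oracle, AtMost g T → (X (join O T) ↔ X O)) := by
  constructor
  · intro hg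
    obtain ⟨T, h1, h2⟩ := hY O g hg
    exact ⟨T, h1, h2, hXY _ h2⟩
  · intro hg T hT
    exact inv_finite hX (finite_of_atMost hg hT)

/-- the lengths of short proofs are contradictory -/
theorem not_short {P Q : List Bool → List Bool} {k : ℕ}
    (h : ∀ N, ∃ w : List Bool, N ≤ w.length ∧ ∀ v, P v = Q w → 2 ^ w.length ≤ v.length ^ k)
    (q : Polynomial ℕ) (hq : ∀ w, ∃ v, P v = Q w ∧ v.length ≤ q.eval w.length) : False := by
  obtain ⟨n0, h0⟩ := mul_poly_le_two_pow (q ^ k) 2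
  obtain ⟨w, hw, h1⟩ := h n0
  obtain ⟨v, h2, h3⟩ := hq w
  have h4 := h1 v h2
  have h5 : v.length ^ k ≤ q.eval w.length ^ k := Nat.pow_le_pow_left h3 k
  have h6 := h0 _ hw
  rw [Polynomial.eval_pow] at h6
  have h7 : 0 < 2 ^ w.length := Nat.two_pow_pos _
  omega

theorem PartT.not_optimal {A : Oracle} (h : PartT A) {L : Set (List Bool)}
    (hL : ∀ L', IsUP A L'ᶜ → Red A L' L) (P : List Bool → List Bool) : ¬ IsOptimal A L P := by
  rintro ⟨hP, hopt⟩
  obtain ⟨Q, hQ, k, hk⟩ := h L hL P hP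
  obtain ⟨q, hq⟩ := hopt Q hQ
  exact not_short hk q hq

theorem IsPOptimal.isOptimal {A : Oracle} {L : Set (List Bool)} {P : List Bool → List Bool}
    (h : IsPOptimal A L P) : IsOptimal A L P := by
  refine ⟨h.1, fun Q hQ => ?_⟩
  obtain ⟨g, hg, hgQ⟩ := h.2 Q hQ
  obtain ⟨b, hb⟩ := IsFP.length_le hg
  exact ⟨b, fun w => ⟨g w, hgQ w, hb w⟩⟩

end Pool.Agent.TH672.SD
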