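import Pool.Agent.TH672.SD.Pr

/-!
# One stage for a candidate language in `UP`
-/

set_option autoImplicit false

namespace Pool.Agent.TH672.SD

open Filter Pool.Agent.NPC Pool.Agent.H628R3.RO Pool.Agent.W900.SP

/-- the verifier accepts -/
def Acc (V : Alg) (p : Polynomial ℕ) (A : Oracle) (z w : List Bool) : Prop :=
  w.length ≤ p.eval z.length ∧ V.out A (pairBits z w) = some [true]

/-- the candidate has two witnesses for some input -/
def deadU (O : Oracle) (V : Alg) (p : Polynomial ℕ) : Set Oracle :=
  {T | ∃ z w w', Acc V p (join O T) z w ∧ Acc V p (join O T) z w' ∧ w ≠ w'}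

open Classical in
/-- the reduction `M` with the pads of length `2 ^ (n / k)` fails for some size `n ≥ N` -/
def rqU (O : Oracle) (V : Alg) (p : Polynomial ℕ) (j : ℕ) (M : Alg ⊕ Alg) (k N : ℕ) :
    Set Oracle :=
  {T | ∃ n : ℕ, N ≤ n ∧ T (mk j n) = true ∧ ∃ y : List Bool, y.length = n ∧
    T (pos j (phi O M k T (fun z => decide (Wit V p z (join O T))) n).toNat y) = true}

theorem stageU (O : Oracle) (V : Alg) (p : Polynomial ℕ) (M : Alg ⊕ Alg) :
    ∃ k0, ∀ k ≥ k0, ∀ (j N : ℕ) (S : Finset (List Bool)) (n0 : ℕ),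
    ∃ (n : ℕ) (E : Finset (List Bool)) (b : ℕ), n0 ≤ n ∧ (∀ x ∈ E, x ∈ Lv j n) ∧
      E.card ≤ 3 ∧ ((AlP j n E ∧ ∀ T, Ag b (S ∪ E) T → T ∈ rqU O V p j M k N) ∨
        (WkP j n E ∧ ∀ T, Ag b (S ∪ E) T → T ∈ deadU O V p)) := by
  classical
  obtain ⟨c0, hc0⟩ := cert V p
  obtain ⟨k0, hk0⟩ := few_size O M (c0 + c0)
  refine ⟨k0, fun k hk j N S n0' => ?_⟩
  obtain ⟨pf, qb, hf, hsz⟩ := hk0 k hk
  obtain ⟨n, hnn, hn⟩ := hsz (max n0' N)
  have hn0 : n0' ≤ n := (le_max_left _ _).trans hnn
  have hnN : N ≤ n := (le_max_right _ _).trans hnn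
  set C : ℕ := (c0 + c0).eval (qb n) with hC
  set K : ℕ := (C + 1) * C + 1 with hK
  set T1 : Oracle := add (ofF S) (mk j n) with hT1
  set Sec : Finset (List Bool) := secs j n 0 ∪ secs j n 1 with hSec
  have hSecL : ∀ s ∈ Sec, ∃ k ≤ 2, ∃ y : List Bool, y.length = n ∧ s = pos j k y := by
    intro s hs
    rcases Finset.mem_union.1 hs with h | h
    · obtain ⟨y, h1, h2⟩ := mem_secs.1 h
      exact ⟨0, by omega, y, h1, h2⟩
    · obtain ⟨y, h1, h2⟩ := mem_secs.1 h
      exact ⟨1, by omega, y, h1, h2⟩
  set In0 : List Bool → Finset (List Bool) := fun z =>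
    Sec.filter (fun s => Wit V p z (join O (add T1 s))) with hIn0
  have hcC0 : ∀ z : List Bool, z.length ≤ qb n → 2 * c0.eval z.length ≤ C := by
    intro z hz
    have := eval_mono c0 hz
    rw [hC, Polynomial.eval_add]; omega
  obtain ⟨b0, hb0⟩ := wit_short V p (qb n)
  by_cases hkill : ∃ z : List Bool, z.length ≤ qb n ∧ ¬ Wit V p z (join O T1) ∧
      K ≤ (In0 z).card
  · obtain ⟨z, hz, hnw, h0⟩ := hkill
    have hw : ∀ s, ∃ w : List Bool, s ∈ In0 z → Acc V p (join O (add T1 s)) z w := by
      intro s
      by_cases hs : s ∈ In0 z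
      · obtain ⟨w, h2, h3⟩ := (Finset.mem_filter.1 hs).2
        exact ⟨w, fun _ => ⟨h2, h3⟩⟩
      · exact ⟨[], fun h => absurd h hs⟩
    choose w hw using hw
    have hq : ∀ s, ∃ Q : Finset (List Bool), s ∈ In0 z → Q.card ≤ c0.eval z.length ∧
        ∀ T' : Oracle, (∀ q ∈ Q, T' q = add T1 s q) → Acc V p (join O T') z (w s) := by
      intro s
      by_cases hs : s ∈ In0 z
      · obtain ⟨Q, h2, h3⟩ := hc0 O (add T1 s) z (w s) (hw s hs).1
        exact ⟨Q, fun _ => ⟨h2, fun T' hT' => ⟨(hw s hs).1, by rw [h3 T' hT', (hw s hs).2]⟩⟩⟩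
      · exact ⟨∅, fun h => absurd h hs⟩
    have hr : ∀ s, ∃ Q : Finset (List Bool), s ∈ In0 z → Q.card ≤ c0.eval z.length ∧
        ∀ s', Acc V p (join O (add T1 s')) z (w s) → s' ∈ Q := by
      intro s
      by_cases hs : s ∈ In0 z
      · obtain ⟨Q, h2, h3⟩ := hc0 O T1 z (w s) (hw s hs).1
        refine ⟨Q, fun _ => ⟨h2, fun s' hs' => ?_⟩⟩
        by_contra hcon
        refine hnw ⟨w s, (hw s hs).1, ?_⟩
        have h4 := h3 (add T1 s') fun q hq => add_ne fun h => hcon (h ▸ hq)
        rw [← h4]
        exact hs'.2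
      · exact ⟨∅, fun h => absurd h hs⟩
    choose q hq using hq
    choose r hr using hr
    obtain ⟨s, hs, s', hs', h2, h3⟩ := two (c := C) (In0 z) (In0 z) (fun s => q s ∪ r s) q
      (fun s hs => (Finset.card_union_le _ _).trans (by
        have h4 := (hq s hs).1
        have h5 := (hr s hs).1
        have h6 := hcC0 z hz
        omega))
      (fun s hs => by
        have h4 := (hq s hs).1
        have h6 := hcC0 z hz
        omega) (by nlinarith) h0
    rw [Finset.mem_union, not_or] at h2
    obtain ⟨b, hb⟩ := out_short V ((pairBits z (w s)).length + (pairBits z (w s')).length)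
    refine ⟨n, {mk j n, s, s'}, b, hn0, ?_, Finset.card_le_three, Or.inr ⟨?_, ?_⟩⟩
    · intro x hx
      simp only [Finset.mem_insert, Finset.mem_singleton] at hx
      rcases hx with rfl | rfl | rfl
      · exact mk_mem_Lv j n
      · obtain ⟨k, _, y, hy, rfl⟩ := hSecL _ (Finset.mem_filter.1 hs).1
        exact ⟨k, y, hy, rfl⟩
      · obtain ⟨k, _, y, hy, rfl⟩ := hSecL _ (Finset.mem_filter.1 hs').1
        exact ⟨k, y, hy, rfl⟩
    · intro x hx
      simp only [Finset.mem_insert, Finset.mem_singleton] at hx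
      rcases hx with rfl | rfl | rfl
      · exact ⟨2, le_rfl, _, List.length_replicate, rfl⟩
      · exact hSecL _ (Finset.mem_filter.1 hs).1
      · exact hSecL _ (Finset.mem_filter.1 hs').1
    · intro T hT
      have hT' : ∀ q : List Bool, q.length < b → T q = add (add T1 s) s' q := by
        intro q hq
        rw [hT q hq, ofF_three]
      have hAs := (hq s hs).2 _ (add_add (T := T1) h2.1)
      have hAs' := (hq s' hs').2 _ (add_add (T := T1) h3)
      rw [add_comm] at hAs'
      refine ⟨z, w s, w s', ⟨hAs.1, ?_⟩, ⟨hAs'.1, ?_⟩, fun h => ?_⟩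
      · rw [hb O (add (add T1 s) s') T _ (by omega) hT']
        exact hAs.2
      · rw [hb O (add (add T1 s) s') T _ (by omega) hT']
        exact hAs'.2
      · refine h2.2 ((hr s hs).2 s' ?_)
        rw [h]
        exact hw s' hs'
  · push Not at hkill
    set ans : Oracle := fun z => decide (Wit V p z (join O T1)) with hans
    have hcz : ∀ z, ∃ Q : Finset (List Bool), z.length ≤ qb n → Q.card ≤ K ∧
        (Wit V p z (join O T1) → ∀ T' : Oracle, (∀ q ∈ Q, T' q = T1 q) →
          Wit V p z (join O T')) := by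
      intro z
      by_cases h : Wit V p z (join O T1)
      · obtain ⟨w, hw, h1⟩ := h
        obtain ⟨Q, h2, h3⟩ := hc0 O T1 z w hw
        refine ⟨Q, fun hz => ⟨?_, fun _ T' hT' => ⟨w, hw, by rw [h3 T' hT', h1]⟩⟩⟩
        have := hcC0 z hz
        nlinarith
      · exact ⟨∅, fun _ => ⟨by simp, fun h' => absurd h' h⟩⟩
    choose cz hcz using hcz
    obtain ⟨Q1, Q2, h1, h2, h3, h4, h5⟩ := hf T1 ans n
    set o : Bool := phi O M k T1 ans n with ho
    set Bad : Finset (List Bool) :=
      Q1 ∪ Q2.biUnion (fun z => if Wit V p z (join O T1) then cz z else In0 z) with hBad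
    have hBadc : Bad.card < (secs j n o.toNat).card := by
      rw [card_secs]
      have h6 : (Q2.biUnion (fun z => if Wit V p z (join O T1) then cz z else In0 z)).card ≤
          Q2.card * K := by
        refine Finset.card_biUnion_le_card_mul _ _ _ fun z hz => ?_
        split_ifs with h8
        · exact (hcz z (h4 z hz)).1
        · exact (hkill z (h4 z hz) h8).le
      have h7 : Q2.card * K ≤ pf n * K := Nat.mul_le_mul_right _ h2
      have h8 : Bad.card ≤ Q1.card +
          (Q2.biUnion (fun z => if Wit V p z (join O T1) then cz z else In0 z)).card :=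
        Finset.card_union_le _ _
      omega
    obtain ⟨s, hs, hsB⟩ := Finset.exists_mem_notMem_of_card_lt_card hBadc
    obtain ⟨y, hy, hsy⟩ := mem_secs.1 hs
    have hsSec : s ∈ Sec := by
      rw [hSec, Finset.mem_union]
      cases ho2 : o with
      | false => left; rw [ho2] at hs; exact hs
      | true => right; rw [ho2] at hs; exact hs
    refine ⟨n, {mk j n, s}, max b0 (max (qb n + 1) (max ((mk j n).length + 1)
      (s.length + 1))), hn0, ?_, Finset.card_le_two.trans (by norm_num), Or.inl ⟨?_, ?_⟩⟩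
    · intro x hx
      simp only [Finset.mem_insert, Finset.mem_singleton] at hx
      rcases hx with rfl | rfl
      · exact mk_mem_Lv j n
      · exact mem_Lv_of_secs hs
    · exact ⟨o, y, hy, by rw [hsy]⟩
    · intro T hT
      have hT0 : ∀ q : List Bool, q.length < max b0 (max (qb n + 1)
          (max ((mk j n).length + 1) (s.length + 1))) → T q = add T1 s q := by
        intro q hq
        rw [hT q hq, ofF_two]
      have hw0 : ∀ z : List Bool, z.length ≤ qb n →
          (Wit V p z (join O T) ↔ Wit V p z (join O (add T1 s))) :=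
        fun z hz => hb0 O (add T1 s) T z hz fun q hq => hT0 q (lt_of_lt_of_le hq
          (le_max_left _ _))
      have hphi : phi O M k T (fun z => decide (Wit V p z (join O T))) n = o := by
        rw [ho]
        refine h5 T _ (fun q hq => ?_) (fun z hz => ?_)
        · rw [hT0 q]
          · exact add_ne fun h => hsB (Finset.mem_union_left _ (h ▸ hq))
          · have := h3 q hq
            simp only [lt_max_iff]; omega
        · rw [hans]
          refine decide_eq_decide.2 ?_
          rw [hw0 z (h4 z hz)]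
          constructor
          · intro h6
            by_contra h7
            refine hsB (Finset.mem_union_right _ (Finset.mem_biUnion.2 ⟨z, hz, ?_⟩))
            rw [if_neg h7]
            exact Finset.mem_filter.2 ⟨hsSec, h6⟩
          · intro h6
            refine (hcz z (h4 z hz)).2 h6 _ fun q hq => add_ne fun h => ?_
            refine hsB (Finset.mem_union_right _ (Finset.mem_biUnion.2 ⟨z, hz, ?_⟩))
            rw [if_pos h6]
            exact h ▸ hq
      refine ⟨n, hnN, ?_, y, hy, ?_⟩
      · rw [hT0 _ (by simp only [lt_max_iff]; omega)]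
        unfold add
        split_ifs
        · rfl
        · exact add_self
      · have e1 : (phi O M k T (fun z => @decide (Wit V p z (join O T)) (Classical.propDecidable _)) n)
            = o := hphi
        rw [e1, ← hsy, hT0 _ (by simp only [lt_max_iff]; omega)]
        exact add_self

end Pool.Agent.TH672.SD
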